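import Mathlib

/-!
# Generic freeness over a polynomial ring

Noether normalization and the spreading out of a basis from the fraction field.
-/

noncomputable section

namespace Pool.Agent.NCV

universe u v

private theorem gf_finite {k : Type u} [Field k] (R : Type v) [CommRing R] [Algebra k R]
    [Algebra.FiniteType k R] {s : ℕ} (g : MvPolynomial (Fin s) k →ₐ[k] R) (hg : g.IsIntegral) :
    letI := g.toRingHom.toAlgebra
    Module.Finite (MvPolynomial (Fin s) k) R := by
  let := g.toRingHom.toAlgebra
  have : IsScalarTower k (MvPolynomial (Fin s) k) R :=
    IsScalarTower.of_algebraMap_eq' g.comp_algebraMap.symm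
  have h1 : Algebra.FiniteType (MvPolynomial (Fin s) k) R :=
    Algebra.FiniteType.of_restrictScalars_finiteType k (MvPolynomial (Fin s) k) R
  have h2 : Algebra.IsIntegral (MvPolynomial (Fin s) k) R := ⟨hg⟩
  exact Algebra.IsIntegral.finite

private theorem gf_main (P : Type u) [CommRing P] [IsDomain P] [IsNoetherianRing P] (R : Type v)
    [CommRing R] [IsDomain R] [Algebra P R] (hinj : Function.Injective (algebraMap P R))
    [Module.Finite P R] :
    ∃ r : P, r ≠ 0 ∧ algebraMap P R r ≠ 0 ∧ ∃ (e : ℕ) (_ : Algebra (Localization.Away r)
      (Localization.Away (algebraMap P R r))),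
      IsScalarTower P (Localization.Away r) (Localization.Away (algebraMap P R r)) ∧
        Nonempty (Module.Basis (Fin e) (Localization.Away r)
          (Localization.Away (algebraMap P R r))) := by
  have hfp : Module.FinitePresentation P R := Module.finitePresentation_of_finite P R
  obtain ⟨r, hr, hfree, -⟩ := Module.FinitePresentation.exists_free_localizedModule_powers
    (nonZeroDivisors P) (LocalizedModule.mkLinearMap (nonZeroDivisors P) R) (FractionRing P)
  have hr0 : r ≠ 0 := nonZeroDivisors.ne_zero hr
  have hR0 : algebraMap P R r ≠ 0 := by
    intro h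
    exact hr0 (hinj (h.trans (map_zero _).symm))
  refine ⟨r, hr0, hR0, ?_⟩
  let : Algebra (Localization.Away r) (Localization.Away (algebraMap P R r)) :=
    (Localization.awayMap (algebraMap P R) r).toAlgebra
  have htow : IsScalarTower P (Localization.Away r) (Localization.Away (algebraMap P R r)) := by
    refine IsScalarTower.of_algebraMap_eq fun x => ?_
    have hy : Submonoid.powers r ≤
        Submonoid.comap (algebraMap P R) (Submonoid.powers (algebraMap P R r)) := by
      rintro y ⟨n, rfl⟩
      exact ⟨n, (map_pow _ _ _).symm⟩
    have h1 : algebraMap (Localization.Away r) (Localization.Away (algebraMap P R r))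
        (algebraMap P (Localization.Away r) x) =
        algebraMap R (Localization.Away (algebraMap P R r)) (algebraMap P R x) :=
      IsLocalization.map_eq (M := Submonoid.powers r) (T := Submonoid.powers (algebraMap P R r))
        (Q := Localization.Away (algebraMap P R r)) (S := Localization.Away r) hy x
    rw [h1]
    exact IsScalarTower.algebraMap_apply P R (Localization.Away (algebraMap P R r)) x
  have hloc : IsLocalizedModule (Submonoid.powers r)
      (IsScalarTower.toAlgHom P R (Localization.Away (algebraMap P R r))).toLinearMap := by
    rw [isLocalizedModule_iff_isLocalization]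
    have h2 : Algebra.algebraMapSubmonoid R (Submonoid.powers r) =
        Submonoid.powers (algebraMap P R r) := Submonoid.map_powers _ r
    rw [h2]
    infer_instance
  have e1 : LocalizedModule.Away r R ≃ₗ[P] Localization.Away (algebraMap P R r) :=
    IsLocalizedModule.iso (Submonoid.powers r)
      (IsScalarTower.toAlgHom P R (Localization.Away (algebraMap P R r))).toLinearMap
  have e2 : LocalizedModule.Away r R ≃ₗ[Localization.Away r]
      Localization.Away (algebraMap P R r) :=
    { __ := e1
      toLinearMap := e1.toLinearMap.extendScalarsOfIsLocalization (Submonoid.powers r)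
        (Localization.Away r) }
  have hfin : Module.Finite (Localization.Away r) (LocalizedModule.Away r R) :=
    Module.Finite.of_isLocalizedModule (Submonoid.powers r) (Rₚ := Localization.Away r)
      (LocalizedModule.mkLinearMap (Submonoid.powers r) R)
  have hdom : IsDomain (Localization.Away r) :=
    IsLocalization.isDomain_localization (powers_le_nonZeroDivisors_of_noZeroDivisors hr0)
  refine ⟨_, inferInstance, htow, ⟨(Module.finBasis (Localization.Away r)
    (LocalizedModule.Away r R)).map e2⟩⟩

theorem exists_free {k : Type u} [Field k] (R : Type v) [CommRing R] [IsDomain R] [Algebra k R]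
    [Algebra.FiniteType k R] :
    ∃ (h : R) (_ : h ≠ 0) (s e : ℕ) (f : MvPolynomial (Fin s) k) (_ : f ≠ 0)
      (_ : Algebra (Localization.Away f) (Localization.Away h)),
      IsScalarTower k (Localization.Away f) (Localization.Away h) ∧
        Nonempty (Module.Basis (Fin e) (Localization.Away f) (Localization.Away h)) := by
  obtain ⟨s, g, hg, hint⟩ := exists_integral_inj_algHom_of_fg k R
  let := g.toRingHom.toAlgebra
  have htow : IsScalarTower k (MvPolynomial (Fin s) k) R :=
    IsScalarTower.of_algebraMap_eq' g.comp_algebraMap.symm
  have hfin : Module.Finite (MvPolynomial (Fin s) k) R := gf_finite R g hint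
  obtain ⟨r, hr0, hR0, e, halg, ht, hb⟩ := gf_main (MvPolynomial (Fin s) k) R hg
  refine ⟨algebraMap (MvPolynomial (Fin s) k) R r, hR0, s, e, r, hr0, halg, ?_, hb⟩
  refine IsScalarTower.of_algebraMap_eq fun x => ?_
  rw [IsScalarTower.algebraMap_apply k (MvPolynomial (Fin s) k) (Localization.Away r) x,
    ← IsScalarTower.algebraMap_apply (MvPolynomial (Fin s) k) (Localization.Away r)
      (Localization.Away (algebraMap (MvPolynomial (Fin s) k) R r)),
    IsScalarTower.algebraMap_apply (MvPolynomial (Fin s) k) R
      (Localization.Away (algebraMap (MvPolynomial (Fin s) k) R r)),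
    ← IsScalarTower.algebraMap_apply k (MvPolynomial (Fin s) k) R]
  exact IsScalarTower.algebraMap_apply k R _ x

end Pool.Agent.NCV
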