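import Pool.Agent.NCV.Eff
import Pool.Agent.NCV.GenFree
import Pool.Agent.GSM.Main2

/-!
# All points of a finitely generated algebra

By Noetherian induction, generic freeness and `eff`: for every finitely generated algebra `R` over an
algebraically closed field `k` there are finitely many tuples of `k`-points such that every point of `R`
over a field is a root of the polynomial given by one of them. In characteristic zero, for a domain,
the `k`-points are linked, so all points are linked, with the same number of factors.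
-/

noncomputable section

namespace Pool.Agent.NCV

open Pool.Agent.GSM Module

universe u v w

/-- The points with values in `k` as points with values in `K`. -/
def cpt {k : Type u} [Field k] {R : Type v} [CommRing R] [Algebra k R] (K : Type w) [Field K]
    [Algebra k K] (q : R →ₐ[k] k) : R →+* K := (algebraMap k K).comp (q : R →+* k)

theorem KilledF.comp {R : Type u} {R' : Type v} {K : Type w} [CommRing R] [CommRing R'] [CommRing K]
    (φ : R →+* R') {p : R' →+* K} {D : ℕ} {q : Fin D → (R' →+* K)} (h : KilledF p q) :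
    KilledF (p.comp φ) fun i => (q i).comp φ := by
  intro I σ _ _ _ _ a b X ha hb hX
  have h1 := h I σ a b (fun j => GG.base φ (X j)) ha hb fun j => (hX j).base _
  simp only [GG.base_base] at h1
  exact h1

theorem eff_killed {k : Type u} [Field k] [IsAlgClosed k] {r e m : ℕ}
    {g : MvPolynomial (Fin r) k} (hg : g ≠ 0) (hm : g.totalDegree ≤ m) {R : Type v} [CommRing R]
    [Algebra k R] [Algebra (Localization.Away g) R] [IsScalarTower k (Localization.Away g) R]
    (B : Module.Basis (Fin e) (Localization.Away g) R) :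
    ∃ q : Fin (e * (m + 1)) → (R →ₐ[k] k), ∀ (K : Type w) [Field K] [Algebra k K]
      (p : R →ₐ[k] K), KilledF (p : R →+* K) fun i => cpt K (q i) := by
  obtain ⟨q, hq, h⟩ := eff.{u, v, w} (m := m) hg hm B
  have hc : ∀ c : k, algebraMap k R c = cst g R c := by
    intro c
    rw [IsScalarTower.algebraMap_apply k (Localization.Away g) R,
      IsScalarTower.algebraMap_apply k (MvPolynomial (Fin r) k) (Localization.Away g)]
    rfl
  refine ⟨fun i => AlgHom.mk (q i) (fun c => (congrArg (q i) (hc c)).trans (hq i c)), ?_⟩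
  intro K _ _ p
  have h1 := h K (p : R →+* K)
  have hp : (p : R →+* K).comp (cst g R) = algebraMap k K := by
    ext c
    rw [RingHom.comp_apply, ← hc]
    exact p.commutes c
  rw [hp] at h1
  exact h1

/-- The statement for the points of a closed subset. -/
private def PP {k : Type u} [Field k] {R : Type v} [CommRing R] [Algebra k R] (I : Ideal R) : Prop :=
  ∃ T : Set (Σ D : ℕ, Fin D → (R →ₐ[k] k)), T.Finite ∧
    ∀ (K : Type w) [Field K] [Algebra k K] (p : R →ₐ[k] K), (∀ r ∈ I, p r = 0) →
      ∃ t ∈ T, KilledF (p : R →+* K) fun i => cpt K (t.2 i)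

theorem all_points (k : Type u) [Field k] [IsAlgClosed k] (R : Type v) [CommRing R] [Algebra k R]
    [Algebra.FiniteType k R] :
    ∃ T : Set (Σ D : ℕ, Fin D → (R →ₐ[k] k)), T.Finite ∧
      ∀ (K : Type w) [Field K] [Algebra k K] (p : R →ₐ[k] K),
        ∃ t ∈ T, KilledF (p : R →+* K) fun i => cpt K (t.2 i) := by
  classical
  have hN : IsNoetherianRing R := Algebra.FiniteType.isNoetherianRing k R
  have key : ∀ I : Ideal R, PP.{u, v, w} (k := k) I := by
    intro I
    refine IsNoetherian.induction (R := R) (M := R) (P := fun I => PP.{u, v, w} (k := k) I) ?_ I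
    intro (I : Ideal R) ih
    by_cases htop : I = ⊤
    · refine ⟨∅, Set.finite_empty, fun K _ _ p hp => ?_⟩
      exfalso
      have h1 := hp 1 (by rw [htop]; exact Submodule.mem_top)
      rw [map_one] at h1
      exact one_ne_zero h1
    by_cases hprime : Ideal.IsPrime I
    · -- the generic part
      have hdom : IsDomain (R ⧸ I) := Ideal.Quotient.isDomain I
      obtain ⟨h, hh, s, e, f, hf, hA, hT, ⟨B⟩⟩ := exists_free (k := k) (R ⧸ I)
      obtain ⟨h₀, rfl⟩ := Ideal.Quotient.mk_surjective h
      obtain ⟨q, hq⟩ := eff_killed.{u, v, w} (m := f.totalDegree) hf le_rfl B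
      have hlt : I < I ⊔ Ideal.span {h₀} := by
        refine lt_of_le_of_ne le_sup_left fun he => hh ?_
        rw [Ideal.Quotient.eq_zero_iff_mem, he]
        exact Ideal.mem_sup_right (Ideal.subset_span rfl)
      obtain ⟨T, hTf, hT'⟩ := ih _ hlt
      let φ : R →ₐ[k] Localization.Away (Ideal.Quotient.mk I h₀) :=
        (IsScalarTower.toAlgHom k (R ⧸ I) _).comp (Ideal.Quotient.mkₐ k I)
      refine ⟨insert ⟨_, fun i => (q i).comp φ⟩ T, hTf.insert _, fun K _ _ p hp => ?_⟩
      by_cases hph : p h₀ = 0
      · obtain ⟨t, ht, hq'⟩ := hT' K p fun r hr => by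
          obtain ⟨a, ha, b, hb, rfl⟩ := Submodule.mem_sup.1 hr
          obtain ⟨c, rfl⟩ := Ideal.mem_span_singleton'.1 hb
          rw [map_add, hp a ha, map_mul, hph, mul_zero, add_zero]
        exact ⟨t, Set.mem_insert_of_mem _ ht, hq'⟩
      · let p₁ : (R ⧸ I) →ₐ[k] K := Ideal.Quotient.liftₐ I p hp
        have hp₁ : ∀ r, p₁ (Ideal.Quotient.mk I r) = p r := fun r => rfl
        have hu : IsUnit (p₁ (Ideal.Quotient.mk I h₀)) := by
          rw [hp₁]
          exact IsUnit.mk0 _ hph
        let p₂ : Localization.Away (Ideal.Quotient.mk I h₀) →ₐ[k] K :=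
          { toRingHom := IsLocalization.Away.lift (Ideal.Quotient.mk I h₀)
              (g := (p₁ : (R ⧸ I) →+* K)) hu
            commutes' := fun c => by
              have h1 : algebraMap k (Localization.Away (Ideal.Quotient.mk I h₀)) c =
                  algebraMap (R ⧸ I) _ (algebraMap k (R ⧸ I) c) :=
                IsScalarTower.algebraMap_apply k (R ⧸ I) _ c
              rw [h1]
              have h2 := IsLocalization.Away.lift_eq (S := Localization.Away
                (Ideal.Quotient.mk I h₀)) (Ideal.Quotient.mk I h₀)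
                (g := (p₁ : (R ⧸ I) →+* K)) hu (algebraMap k (R ⧸ I) c)
              refine h2.trans ?_
              exact p₁.commutes c }
        have hφ : p₂.comp φ = p := by
          ext r
          have h2 := IsLocalization.Away.lift_eq (S := Localization.Away
            (Ideal.Quotient.mk I h₀)) (Ideal.Quotient.mk I h₀)
            (g := (p₁ : (R ⧸ I) →+* K)) hu (Ideal.Quotient.mk I r)
          exact h2
        refine ⟨_, Set.mem_insert _ _, ?_⟩
        have h3 := (hq K p₂).comp (φ : R →+* Localization.Away (Ideal.Quotient.mk I h₀))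
        have h4 : (p₂ : Localization.Away (Ideal.Quotient.mk I h₀) →+* K).comp
            (φ : R →+* Localization.Away (Ideal.Quotient.mk I h₀)) = (p : R →+* K) := by
          rw [← hφ]
          rfl
        rw [h4] at h3
        exact h3
    · -- not prime
      rw [Ideal.isPrime_iff] at hprime
      push Not at hprime
      obtain ⟨a, b, hab, ha, hb⟩ := hprime htop
      have hlt : ∀ c, c ∉ I → I < I ⊔ Ideal.span {c} := by
        intro c hc
        refine lt_of_le_of_ne le_sup_left fun he => hc ?_
        rw [he]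
        exact Ideal.mem_sup_right (Ideal.subset_span rfl)
      obtain ⟨T, hTf, hT⟩ := ih _ (hlt a ha)
      obtain ⟨T', hTf', hT'⟩ := ih _ (hlt b hb)
      have hmem : ∀ (K : Type w) [Field K] [Algebra k K] (p : R →ₐ[k] K), (∀ r ∈ I, p r = 0) →
          ∀ c, p c = 0 → ∀ r ∈ I ⊔ Ideal.span {c}, p r = 0 := by
        intro K _ _ p hp c hc r hr
        obtain ⟨a, ha, b, hb, rfl⟩ := Submodule.mem_sup.1 hr
        obtain ⟨c', rfl⟩ := Ideal.mem_span_singleton'.1 hb
        rw [map_add, hp a ha, map_mul, hc, mul_zero, add_zero]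
      refine ⟨T ∪ T', hTf.union hTf', fun K _ _ p hp => ?_⟩
      have h1 : p a * p b = 0 := by
        rw [← map_mul]
        exact hp _ hab
      rcases mul_eq_zero.1 h1 with h2 | h2
      · obtain ⟨t, ht, hq'⟩ := hT K p (hmem K p hp a h2)
        exact ⟨t, Or.inl ht, hq'⟩
      · obtain ⟨t, ht, hq'⟩ := hT' K p (hmem K p hp b h2)
        exact ⟨t, Or.inr ht, hq'⟩
  obtain ⟨T, hTf, hT⟩ := key ⊥
  exact ⟨T, hTf, fun K _ _ p => hT K p fun r hr => by
    rw [(Submodule.mem_bot R).1 hr, map_zero]⟩

/-- A bound for finitely many elements. -/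
theorem exists_bound {α : Type u} {s : Set α} (hs : s.Finite) {P : α → ℕ → Prop}
    (hmono : ∀ a m n, m ≤ n → P a m → P a n) (h : ∀ a, ∃ n, P a n) : ∃ N, ∀ a ∈ s, P a N := by
  choose f hf using h
  obtain ⟨N, hN⟩ := (hs.image f).bddAbove
  exact ⟨N, fun a ha => hmono a _ _ (hN (Set.mem_image_of_mem f ha)) (hf a)⟩

theorem exists_pt (k : Type u) [Field k] [IsAlgClosed k] (A : Type v) [CommRing A]
    [Nontrivial A] [Algebra k A] [Algebra.FiniteType k A] : Nonempty (A →ₐ[k] k) := by
  obtain ⟨m, hm⟩ := Ideal.exists_maximal A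
  letI : Field (A ⧸ m) := Ideal.Quotient.field m
  have h1 : Algebra.FiniteType k (A ⧸ m) :=
    Algebra.FiniteType.of_surjective (Ideal.Quotient.mkₐ k m) (Ideal.Quotient.mkₐ_surjective k m)
  have h2 : Module.Finite k (A ⧸ m) := finite_of_finite_type_of_isJacobsonRing k (A ⧸ m)
  have hbij : Function.Bijective (algebraMap k (A ⧸ m)) :=
    IsAlgClosed.algebraMap_bijective_of_isIntegral
  exact ⟨((AlgEquiv.ofBijective (Algebra.ofId k (A ⧸ m)) hbij).symm : (A ⧸ m) →ₐ[k] k).comp
    (Ideal.Quotient.mkₐ k m)⟩

/-- All points of a domain are linked, with the same number of factors. -/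
theorem linked_all (k : Type u) [Field k] [IsAlgClosed k] [CharZero k] (R : Type v) [CommRing R]
    [IsDomain R] [Algebra k R] [Algebra.FiniteType k R] :
    ∃ N : ℕ, ∀ (K : Type w) [Field K] [Algebra k K] (p q : R →ₐ[k] K),
      LinkedF (p : R →+* K) (q : R →+* K) N := by
  obtain ⟨c⟩ := exists_pt k R
  -- the points over `k`
  have hk : ∀ q : R →ₐ[k] k, ∃ n, LinkedF (q : R →+* k) (c : R →+* k) n := by
    intro q
    obtain ⟨Ω, _, _, _, D, hD⟩ := exists_linked_points (k := k) (K := k) q c
    exact ⟨D, LinkedF.of_linked (Ω := Ω) hD⟩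
  obtain ⟨T, hTf, hT⟩ := all_points.{u, v, w} k R
  obtain ⟨N₀, hN₀⟩ := exists_bound (s := T) hTf
    (P := fun t n => ∀ i, LinkedF (t.2 i : R →+* k) (c : R →+* k) n)
    (fun t m n hmn h i => (h i).mono hmn) (fun t => by
      obtain ⟨n, hn⟩ := exists_bound (s := (Set.univ : Set (Fin t.1))) Set.finite_univ
        (P := fun i n => LinkedF (t.2 i : R →+* k) (c : R →+* k) n)
        (fun i m n hmn h => h.mono hmn) (fun i => hk (t.2 i))
      exact ⟨n, fun i => hn i (Set.mem_univ i)⟩)
  obtain ⟨N₁, hN₁⟩ := exists_bound (s := T) hTf (P := fun t n => t.1 * N₀ + t.1 ≤ n)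
    (fun t m n hmn h => h.trans hmn) (fun t => ⟨_, le_rfl⟩)
  have hc : ∀ (K : Type w) [Field K] [Algebra k K] (p : R →ₐ[k] K),
      LinkedF (p : R →+* K) (cpt K c) N₁ := by
    intro K _ _ p
    obtain ⟨t, ht, h⟩ := hT K p
    exact (LinkedF.of_killed h fun i => (hN₀ t ht i).post (algebraMap k K)).mono (hN₁ t ht)
  exact ⟨N₁ + N₁, fun K _ _ p q => (hc K p).trans (hc K q).symm⟩

end Pool.Agent.NCV
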