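import Pool.Agent.NCV.Ren
import Pool.Agent.GSM.Chars
import Pool.Agent.GSM.Polar
import Pool.Agent.GSM.Desc

/-!
# Cayley-Hamilton: products of `d` classes over an extension of degree `d`

Over the algebraic closure `Ω` of `E` the regular representation of `E` over `F` decomposes into `d`
characters, one of which is `E ⊆ Ω`. If the transfers of all partial products vanish, then all power
sums of the conjugates vanish, and by the polarised Newton identities (`polar`) so does the product.
-/

noncomputable section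

namespace Pool.Agent.NCV

open Pool.Agent.GSM Module

universe u v

section

variable {F : Type u} [Field F] {E : Type v} [Field E] [Algebra F E] {d : ℕ}

/-- The regular representation. -/
private def regF (B : Basis (Fin (d + 1)) F E) : E →+* Matrix (Fin (d + 1)) (Fin (d + 1)) F :=
  (Algebra.leftMulMatrix B).toRingHom

/-- The regular representation over the algebraic closure. -/
private def regC (B : Basis (Fin (d + 1)) F E) :
    E →+* Matrix (Fin (d + 1)) (Fin (d + 1)) (AlgebraicClosure E) :=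
  (((algebraMap E (AlgebraicClosure E)).comp (algebraMap F E)).mapMatrix).comp (regF B)

private theorem regC_eigen (B : Basis (Fin (d + 1)) F E) (s : E) :
    Matrix.vecMul (fun i => algebraMap E (AlgebraicClosure E) (B i)) (regC B s) =
      algebraMap E (AlgebraicClosure E) s •
        fun i => algebraMap E (AlgebraicClosure E) (B i) := by
  funext j
  have h1 : ∀ i, regC B s i j =
      algebraMap E (AlgebraicClosure E) (algebraMap F E (B.repr (s * B j) i)) := by
    intro i
    rw [← Algebra.leftMulMatrix_eq_repr_mul]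
    rfl
  rw [Pi.smul_apply, smul_eq_mul, ← map_mul]
  have h2 : Matrix.vecMul (fun i => algebraMap E (AlgebraicClosure E) (B i)) (regC B s) j =
      ∑ i, algebraMap E (AlgebraicClosure E) (B i) * regC B s i j := rfl
  rw [h2, Finset.sum_congr rfl fun i _ => by rw [h1 i, ← map_mul], ← map_sum]
  congr 1
  rw [← B.sum_repr (s * B j)]
  refine Finset.sum_congr rfl fun i _ => ?_
  rw [B.sum_repr, Algebra.smul_def, mul_comm]

/-- The transfer of a partial product vanishes. -/
private theorem transfer_bd (B : Basis (Fin (d + 1)) F E) (n w : Fin (d + 1) → ℕ)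
    (J : Finset (Fin (d + 1)))
    (hv : ∀ z : GG (Fin (∑ j ∈ J, n j)) (Fin (∑ j ∈ J, w j)) F,
      IsCubeOn Set.univ Set.univ z → BdOn Set.univ Set.univ z)
    (x : ∀ j, GG (Fin (n j)) (Fin (w j)) E) (hx : ∀ j, IsCubeOn Set.univ Set.univ (x j)) :
    BdOn {t : Σ j, Fin (n j) | t.1 ∈ J} {t : Σ j, Fin (w j) | t.1 ∈ J}
      (GG.corr (regF B) (∏ j ∈ J, emb j (x j))) := by
  classical
  have hinj : Function.Injective (Subtype.val : J → Fin (d + 1)) := Subtype.val_injective
  let z : GG (Σ j : J, Fin (n j)) (Σ j : J, Fin (w j)) E :=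
    ∏ j : J, emb (I := fun j : J => Fin (n j)) (σ := fun j : J => Fin (w j)) j (x j)
  have hz : IsCubeOn Set.univ Set.univ z := by
    have h1 := IsCubeOn.prod (R := E) (a := fun j : J => {t : Σ j : J, Fin (n j) | t.1 = j})
      (b := fun j : J => {t : Σ j : J, Fin (w j) | t.1 = j}) Finset.univ
      (fun i _ j _ hij => Set.disjoint_left.2 fun t h1 h2 => hij (Eq.trans (Eq.symm h1) h2))
      (fun i _ j _ hij => Set.disjoint_left.2 fun t h1 h2 => hij (Eq.trans (Eq.symm h1) h2))
      (fun j _ => isCubeOn_emb (I := fun j : J => Fin (n j)) (σ := fun j : J => Fin (w j)) j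
        (isCubeOn_univ.1 (hx j)))
    have e1 : (⋃ j ∈ (Finset.univ : Finset J), {t : Σ j : J, Fin (n j) | t.1 = j}) = Set.univ := by
      ext t
      simp
    have e2 : (⋃ j ∈ (Finset.univ : Finset J), {t : Σ j : J, Fin (w j) | t.1 = j}) = Set.univ := by
      ext t
      simp
    rw [e1, e2] at h1
    exact h1
  have hren : ren (Sigma.map Subtype.val (fun _ => id) : (Σ j : J, Fin (n j)) → Σ j, Fin (n j))
      (Sigma.map Subtype.val (fun _ => id) : (Σ j : J, Fin (w j)) → Σ j, Fin (w j)) z =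
      ∏ j ∈ J, emb j (x j) := by
    rw [map_prod, ← Finset.prod_coe_sort J fun j => emb j (x j)]
    exact Finset.prod_congr rfl fun j _ =>
      ren_emb (I := fun j => Fin (n j)) (σ := fun j => Fin (w j)) hinj j (x j)
  have hc : BdOn Set.univ Set.univ (GG.corr (regF B) z) := by
    refine bd_of_card (n := ∑ j ∈ J, n j) (w := ∑ j ∈ J, w j) ?_ ?_ hv (hz.corr _)
    · rw [Fintype.card_sigma, ← Finset.sum_coe_sort J n]
      simp
    · rw [Fintype.card_sigma, ← Finset.sum_coe_sort J w]
      simp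
  have h1 := bdOn_ren (φ := (Sigma.map Subtype.val (fun _ => id) :
    (Σ j : J, Fin (n j)) → Σ j, Fin (n j))) (χ := (Sigma.map Subtype.val (fun _ => id) :
    (Σ j : J, Fin (w j)) → Σ j, Fin (w j)))
    (hinj.sigma_map fun _ => Function.injective_id)
    (hinj.sigma_map fun _ => Function.injective_id) hc
  rw [ren_corr, hren] at h1
  have r1 : Set.range (Sigma.map Subtype.val (fun _ => id) :
      (Σ j : J, Fin (n j)) → Σ j, Fin (n j)) = {t : Σ j, Fin (n j) | t.1 ∈ J} := by
    ext t
    constructor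
    · rintro ⟨s, rfl⟩
      exact s.1.2
    · intro ht
      exact ⟨⟨⟨t.1, ht⟩, t.2⟩, rfl⟩
  have r2 : Set.range (Sigma.map Subtype.val (fun _ => id) :
      (Σ j : J, Fin (w j)) → Σ j, Fin (w j)) = {t : Σ j, Fin (w j) | t.1 ∈ J} := by
    ext t
    constructor
    · rintro ⟨s, rfl⟩
      exact s.1.2
    · intro ht
      exact ⟨⟨⟨t.1, ht⟩, t.2⟩, rfl⟩
  rw [r1, r2] at h1
  exact h1

private theorem ch_disj {ι : Type} {T : ι → Type} {J J' : Finset ι} (h : Disjoint J J') :
    Disjoint {t : Σ j, T j | t.1 ∈ J} {t : Σ j, T j | t.1 ∈ J'} := by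
  rw [Set.disjoint_left]
  intro t h1 h2
  exact Finset.disjoint_left.1 h h1 h2

private theorem ch_union {ι : Type} [DecidableEq ι] {T : ι → Type} {J J' : Finset ι} :
    {t : Σ j, T j | t.1 ∈ J} ∪ {t : Σ j, T j | t.1 ∈ J'} = {t : Σ j, T j | t.1 ∈ J ∪ J'} := by
  ext t
  simp

/-- Products of `d` classes over an extension of degree `d` of `F` vanish. -/
theorem ch (B : Basis (Fin (d + 1)) F E) (n w : Fin (d + 1) → ℕ)
    (hv : ∀ J : Finset (Fin (d + 1)), J.Nonempty →
      ∀ z : GG (Fin (∑ j ∈ J, n j)) (Fin (∑ j ∈ J, w j)) F,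
        IsCubeOn Set.univ Set.univ z → BdOn Set.univ Set.univ z)
    (x : ∀ j, GG (Fin (n j)) (Fin (w j)) E) (hx : ∀ j, IsCubeOn Set.univ Set.univ (x j)) :
    BdOn Set.univ Set.univ (∏ j, emb j (x j)) := by
  classical
  apply bd_of_algebraic (Ω := AlgebraicClosure E)
  have hl : (fun i => algebraMap E (AlgebraicClosure E) (B i)) ≠ 0 := by
    intro h
    have h1 := congrFun h 0
    exact B.ne_zero 0 ((map_eq_zero _).1 h1)
  obtain ⟨χ, hχ, hχ0⟩ := exists_charDecomp_zero (regC B) (algebraMap E (AlgebraicClosure E)) _ hl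
    (regC_eigen B)
  have hX : ∀ j, IsCubeOn {t : Σ j, Fin (n j) | t.1 = j} {t : Σ j, Fin (w j) | t.1 = j}
      (emb j (x j)) := fun j => isCubeOn_emb j (isCubeOn_univ.1 (hx j))
  let Z : Finset (Fin (d + 1)) → Submodule ℚ
      (GG (Σ j, Fin (n j)) (Σ j, Fin (w j)) (AlgebraicClosure E)) := fun J =>
    { carrier := {x | IsCubeOn {t : Σ j, Fin (n j) | t.1 ∈ J} {t : Σ j, Fin (w j) | t.1 ∈ J} x}
      zero_mem' := IsCubeOn.zero _ _
      add_mem' := fun hx hy => IsCubeOn.add hx hy
      smul_mem' := fun c x hx => IsCubeOn.smul c hx }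
  let Bd' : Finset (Fin (d + 1)) → Submodule ℚ
      (GG (Σ j, Fin (n j)) (Σ j, Fin (w j)) (AlgebraicClosure E)) := fun J =>
    { carrier := {x | BdOn {t : Σ j, Fin (n j) | t.1 ∈ J} {t : Σ j, Fin (w j) | t.1 ∈ J} x}
      zero_mem' := BdOn.zero _ _
      add_mem' := fun hx hy => BdOn.add hx hy
      smul_mem' := fun c x hx => BdOn.smul c hx }
  have hZ : ∀ J x, x ∈ Z J ↔ IsCubeOn {t : Σ j, Fin (n j) | t.1 ∈ J}
      {t : Σ j, Fin (w j) | t.1 ∈ J} x := fun _ _ => Iff.rfl
  have hB : ∀ J x, x ∈ Bd' J ↔ BdOn {t : Σ j, Fin (n j) | t.1 ∈ J}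
      {t : Σ j, Fin (w j) | t.1 ∈ J} x := fun _ _ => Iff.rfl
  have e0 : ∀ (T : Fin (d + 1) → Type), {t : Σ j, T j | t.1 ∈ (∅ : Finset (Fin (d + 1)))} = ∅ := by
    intro T
    ext t
    simp
  have es : ∀ (T : Fin (d + 1) → Type) (i : Fin (d + 1)),
      {t : Σ j, T j | t.1 ∈ ({i} : Finset (Fin (d + 1)))} = {t | t.1 = i} := by
    intro T i
    ext t
    simp
  have eu : ∀ (T : Fin (d + 1) → Type),
      {t : Σ j, T j | t.1 ∈ (Finset.univ : Finset (Fin (d + 1)))} = Set.univ := by
    intro T
    ext t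
    simp
  have hcub : ∀ J : Finset (Fin (d + 1)),
      IsCubeOn {t : Σ j, Fin (n j) | t.1 ∈ J} {t : Σ j, Fin (w j) | t.1 ∈ J}
        (∏ j ∈ J, emb j (x j)) := by
    intro J
    have h1 := IsCubeOn.prod (R := E) (a := fun j => {t : Σ j, Fin (n j) | t.1 = j})
      (b := fun j => {t : Σ j, Fin (w j) | t.1 = j}) J
      (fun i _ j _ hij => Set.disjoint_left.2 fun t h1 h2 => hij (Eq.trans (Eq.symm h1) h2))
      (fun i _ j _ hij => Set.disjoint_left.2 fun t h1 h2 => hij (Eq.trans (Eq.symm h1) h2))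
      (fun j _ => hX j)
    have e1 : (⋃ j ∈ J, {t : Σ j, Fin (n j) | t.1 = j}) = {t : Σ j, Fin (n j) | t.1 ∈ J} := by
      ext t
      simp
    have e2 : (⋃ j ∈ J, {t : Σ j, Fin (w j) | t.1 = j}) = {t : Σ j, Fin (w j) | t.1 ∈ J} := by
      ext t
      simp
    rw [e1, e2] at h1
    exact h1
  let X : Fin (d + 1) → Option (Fin (d + 1)) →
      GG (Σ j, Fin (n j)) (Σ j, Fin (w j)) (AlgebraicClosure E) := fun j o =>
    o.elim 0 fun i => GG.base (χ i) (emb j (x j))
  have key := polar (D := d + 1) Z Bd'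
    (by
      rw [hZ, e0, e0]
      exact IsCubeOn.one)
    (by
      intro J J' h y hy z hz
      rw [hZ, ← ch_union, ← ch_union]
      exact IsCubeOn.mul (ch_disj h) (ch_disj h) hy hz)
    (by
      intro J J' h y hy z hz
      rw [hB, ← ch_union, ← ch_union]
      exact BdOn.mul (ch_disj h) (ch_disj h) hy hz)
    X
    (by
      intro j o
      rw [hZ, es, es]
      cases o with
      | none => exact IsCubeOn.zero _ _
      | some i => exact (hX j).base _)
    (by
      intro J hJ
      rw [hB]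
      have e1 : ∑ i, ∏ j ∈ J, X j (some i) = ∑ i, GG.base (χ i) (∏ j ∈ J, emb j (x j)) := by
        refine Finset.sum_congr rfl fun i _ => ?_
        rw [map_prod]
        rfl
      have e2 : ∏ j ∈ J, X j none = 0 := by
        obtain ⟨j, hj⟩ := hJ
        exact Finset.prod_eq_zero hj rfl
      rw [e1, e2, smul_zero, sub_zero]
      have b1 := hχ.bd _ _ _ _ _ (hcub J)
      have b2 := (transfer_bd B n w J (hv J hJ) x hx).base
        ((algebraMap E (AlgebraicClosure E)).comp (algebraMap F E))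
      rw [GG.base_corr] at b2
      have b3 := b2.sub b1
      convert b3 using 1
      have : (((algebraMap E (AlgebraicClosure E)).comp (algebraMap F E)).mapMatrix).comp (regF B) =
        regC B := rfl
      rw [this, sub_sub_cancel])
    0
  rw [hB, eu, eu] at key
  have h3 : ∀ j, X j (some 0) - X j none =
      GG.base (algebraMap E (AlgebraicClosure E)) (emb j (x j)) := by
    intro j
    rw [← hχ0]
    exact sub_zero _
  rw [Finset.prod_congr rfl fun j _ => h3 j, ← map_prod] at key
  exact key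

end

end Pool.Agent.NCV
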