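import Pool.Agent.NCV.AllPts

/-!
# All points of a connected scheme of finite type

The irreducible components are linked, by `linked_all`; two components which meet are linked to each
other.
-/

noncomputable section

namespace Pool.Agent.NCV

open Pool.Agent.GSM Module

universe u v w

theorem LinkedF.comp {R : Type u} {R' : Type v} {K : Type w} [CommRing R] [CommRing R'] [CommRing K]
    (φ : R →+* R') {p q : R' →+* K} {D : ℕ} (h : LinkedF p q D) :
    LinkedF (p.comp φ) (q.comp φ) D := by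
  intro I σ _ _ _ _ a b X ha hb hX
  have h1 := h I σ a b (fun j => GG.base φ (X j)) ha hb fun j => (hX j).base _
  simp only [GG.base_base] at h1
  exact h1

section

variable (k : Type u) [Field k] [IsAlgClosed k] [CharZero k] (R : Type v) [CommRing R]
  [Algebra k R] [Algebra.FiniteType k R]

/-- The points of an irreducible closed subset are linked to a fixed `k`-point of it. -/
private theorem linked_prime (P : PrimeSpectrum R) : ∃ (d : R →ₐ[k] k) (N : ℕ),
    (∀ r ∈ P.asIdeal, d r = 0) ∧ ∀ (K : Type u) [Field K] [Algebra k K] (p : R →ₐ[k] K),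
      (∀ r ∈ P.asIdeal, p r = 0) → LinkedF (p : R →+* K) (cpt K d) N := by
  have hdom : IsDomain (R ⧸ P.asIdeal) := Ideal.Quotient.isDomain _
  obtain ⟨N, hN⟩ := linked_all.{u, v, u} k (R ⧸ P.asIdeal)
  obtain ⟨c⟩ := exists_pt k (R ⧸ P.asIdeal)
  refine ⟨c.comp (Ideal.Quotient.mkₐ k P.asIdeal), N, fun r hr => ?_, fun K _ _ p hp => ?_⟩
  · have h1 : Ideal.Quotient.mkₐ k P.asIdeal r = 0 := Ideal.Quotient.eq_zero_iff_mem.2 hr
    rw [AlgHom.comp_apply, h1, map_zero]
  · have h1 := (hN K (Ideal.Quotient.liftₐ P.asIdeal p hp)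
      ((Algebra.ofId k K).comp c)).comp (Ideal.Quotient.mk P.asIdeal)
    exact h1

/-- All points of a connected affine scheme of finite type are linked. -/
theorem linked_conn [ConnectedSpace (PrimeSpectrum R)] :
    ∃ N : ℕ, ∀ (K : Type u) [Field K] [Algebra k K] (p q : R →ₐ[k] K),
      LinkedF (p : R →+* K) (q : R →+* K) N := by
  have hnoeth : IsNoetherianRing R := Algebra.FiniteType.isNoetherianRing k R
  choose d N hd hN using linked_prime k R
  obtain ⟨P₀⟩ : Nonempty (PrimeSpectrum R) := inferInstance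
  -- the minimal primes
  let S : Set (PrimeSpectrum R) := {P | P.asIdeal ∈ minimalPrimes R}
  have hS : S.Finite := by
    refine Set.Finite.of_finite_image (f := fun P : PrimeSpectrum R => P.asIdeal)
      ((minimalPrimes.finite_of_isNoetherianRing R).subset ?_) ?_
    · rintro _ ⟨P, hP, rfl⟩
      exact hP
    · intro P _ Q _ h
      exact PrimeSpectrum.ext h
  have hmin : ∀ P : PrimeSpectrum R, ∃ Q ∈ S, Q.asIdeal ≤ P.asIdeal := by
    intro P
    obtain ⟨Q, hQ, hle⟩ := Ideal.exists_minimalPrimes_le (I := (⊥ : Ideal R)) (J := P.asIdeal)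
      bot_le
    exact ⟨⟨Q, hQ.1.1⟩, hQ, hle⟩
  -- two meeting closed subsets
  have hmeet : ∀ P Q M : PrimeSpectrum R, P.asIdeal ≤ M.asIdeal → Q.asIdeal ≤ M.asIdeal →
      ∃ n, LinkedF (d P : R →+* k) (d Q : R →+* k) n := by
    intro P Q M h1 h2
    have e : ∀ c : R →ₐ[k] k, cpt k c = (c : R →+* k) := fun c => rfl
    have h3 := hN P k (d M) fun r hr => hd M r (h1 hr)
    have h4 := hN Q k (d M) fun r hr => hd M r (h2 hr)
    rw [e] at h3 h4
    exact ⟨_, h3.symm.trans h4⟩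
  -- the components linked to `P₀`
  let A : Set (PrimeSpectrum R) := {P | ∃ n, LinkedF (d P : R →+* k) (d P₀ : R →+* k) n}
  have hcl : ∀ B : Set (PrimeSpectrum R), IsClosed (⋃ P ∈ S ∩ B,
      PrimeSpectrum.zeroLocus (P.asIdeal : Set R)) := fun B =>
    (hS.inter_of_left B).isClosed_biUnion fun P _ => PrimeSpectrum.isClosed_zeroLocus _
  have hcompl : (⋃ P ∈ S ∩ A, PrimeSpectrum.zeroLocus (P.asIdeal : Set R))ᶜ =
      ⋃ P ∈ S ∩ Aᶜ, PrimeSpectrum.zeroLocus (P.asIdeal : Set R) := by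
    ext M
    simp only [Set.mem_compl_iff, Set.mem_iUnion, exists_prop, PrimeSpectrum.mem_zeroLocus,
      SetLike.coe_subset_coe, not_exists, not_and]
    constructor
    · intro h
      obtain ⟨Q, hQ, hle⟩ := hmin M
      exact ⟨Q, ⟨hQ, fun hA => h Q ⟨hQ, hA⟩ hle⟩, hle⟩
    · rintro ⟨Q, ⟨hQ, hQA⟩, hle⟩ P ⟨hP, n, hn⟩ hle'
      obtain ⟨n', hn'⟩ := hmeet Q P M hle hle'
      exact hQA ⟨_, hn'.trans hn⟩
  have huniv : (⋃ P ∈ S ∩ A, PrimeSpectrum.zeroLocus (P.asIdeal : Set R)) = Set.univ := by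
    refine IsClopen.eq_univ ⟨hcl A, ?_⟩ ?_
    · rw [← isClosed_compl_iff, hcompl]
      exact hcl Aᶜ
    · obtain ⟨Q, hQ, hle⟩ := hmin P₀
      refine ⟨P₀, Set.mem_iUnion₂.2 ⟨Q, ⟨hQ, ?_⟩, ?_⟩⟩
      · exact hmeet Q P₀ P₀ hle le_rfl
      · exact (PrimeSpectrum.mem_zeroLocus _ _).2 hle
  have hall : ∀ P : PrimeSpectrum R, ∃ n, LinkedF (d P : R →+* k) (d P₀ : R →+* k) n := by
    intro P
    have h1 : P ∈ ⋃ P ∈ S ∩ A, PrimeSpectrum.zeroLocus (P.asIdeal : Set R) := by
      rw [huniv]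
      exact Set.mem_univ P
    obtain ⟨Q, ⟨hQ, n, hn⟩, hle⟩ := Set.mem_iUnion₂.1 h1
    obtain ⟨n', hn'⟩ := hmeet P Q P le_rfl ((PrimeSpectrum.mem_zeroLocus _ _).1 hle)
    exact ⟨_, hn'.trans hn⟩
  obtain ⟨N₀, hN₀⟩ := exists_bound (s := S) hS
    (P := fun P n => LinkedF (d P : R →+* k) (d P₀ : R →+* k) n)
    (fun P m n hmn h => h.mono hmn) hall
  obtain ⟨N₁, hN₁⟩ := exists_bound (s := S) hS (P := fun P n => N P + N₀ ≤ n)
    (fun P m n hmn h => h.trans hmn) (fun P => ⟨_, le_rfl⟩)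
  have hc : ∀ (K : Type u) [Field K] [Algebra k K] (p : R →ₐ[k] K),
      LinkedF (p : R →+* K) (cpt K (d P₀)) N₁ := by
    intro K _ _ p
    have hker : (RingHom.ker (p : R →+* K)).IsPrime := RingHom.ker_isPrime _
    obtain ⟨Q, hQ, hle⟩ := hmin ⟨RingHom.ker (p : R →+* K), hker⟩
    have h1 := hN Q K p fun r hr => (RingHom.mem_ker).1 (hle hr)
    have h2 := (hN₀ Q hQ).post (algebraMap k K)
    exact (h1.trans h2).mono (hN₁ Q hQ)
  exact ⟨N₁ + N₁, fun K _ _ p q => (hc K p).trans (hc K q).symm⟩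

end

end Pool.Agent.NCV
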