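import Pool.Agent.GSM.GG

/-!
# `corr` of renumbered and of repeated blocks

MODULE NCV-CorrK. PLAN. `corr_reindex`: `GG.corr_conj` with `P = (1 : Matrix δ δ R).submatrix id e.symm`,
`Q = (1 : Matrix δ δ R).submatrix e.symm id` (compare `iso_reindex` in GSM/Basic.lean).
`corr_kron`: induction on the cardinality of `ε`: first for `ε = Fin a`: `δ × Fin 0` is empty
(`GG.corr_empty`); for `a + 1` renumber `δ × Fin (a + 1)` as `(δ × Fin a) ⊕ δ` (`corr_reindex`), then the
matrix is `fromBlocks (M s ⊗ 1) 0 0 (M s)` (`GG.corr_fromBlocks`); the two block homomorphisms are `M s`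
and `s ↦ kronecker (M s) 1`, the latter is a ring homomorphism (`Matrix.mul_kronecker_mul`, define it).
Then transport along `Fintype.equivFin ε`.
-/

noncomputable section

namespace Pool.Agent.NCV

open Pool.Agent.GSM

universe u v

variable {I σ : Type} {S : Type u} {R : Type v} [CommRing S] [CommRing R]
  {δ ε : Type} [Fintype δ] [DecidableEq δ] [Fintype ε] [DecidableEq ε]

theorem corr_reindex (e : δ ≃ ε) (Λ : S →+* Matrix δ δ R) (Λ' : S →+* Matrix ε ε R)
    (h : ∀ s i j, Λ' s i j = Λ s (e.symm i) (e.symm j)) (x : GG I σ S) :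
    GG.corr Λ' x = GG.corr Λ x := by
  have hm : ∀ s, Λ' s = (Λ s).submatrix e.symm e.symm := fun s => by
    ext i j
    exact h s i j
  refine GG.corr_conj Λ' Λ ((1 : Matrix δ δ R).submatrix e.symm id)
    ((1 : Matrix δ δ R).submatrix id e.symm) ?_ ?_ (fun s => ?_) x
  · have h := Matrix.submatrix_mul_equiv (1 : Matrix δ δ R) (1 : Matrix δ δ R) e.symm
      (Equiv.refl δ) e.symm
    rw [Equiv.coe_refl] at h
    rw [h, Matrix.one_mul, Matrix.submatrix_one_equiv]
  · rw [Matrix.submatrix_mul_equiv (1 : Matrix δ δ R) (1 : Matrix δ δ R) id e.symm id,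
      Matrix.one_mul, Matrix.submatrix_id_id]
  · rw [hm s, Matrix.submatrix_mul_equiv (Λ s) (1 : Matrix δ δ R) e.symm e.symm id,
      Matrix.mul_one]
    have h := Matrix.submatrix_mul_equiv (1 : Matrix δ δ R) (Λ s) e.symm (Equiv.refl δ) id
    rw [Equiv.coe_refl, Matrix.submatrix_id_id, Matrix.one_mul] at h
    exact h.symm

/-- the renumbered homomorphism -/
private def corrK_re (e : δ ≃ ε) (Λ : S →+* Matrix δ δ R) : S →+* Matrix ε ε R :=
  ((Matrix.reindexAlgEquiv ℤ R e : Matrix δ δ R ≃ₐ[ℤ] Matrix ε ε R) :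
    Matrix δ δ R →+* Matrix ε ε R).comp Λ

private theorem corrK_re_apply (e : δ ≃ ε) (Λ : S →+* Matrix δ δ R) (s : S) (i j : ε) :
    corrK_re e Λ s i j = Λ s (e.symm i) (e.symm j) := rfl

variable (ε) in
/-- repeated blocks -/
private def corrK_kr (M : S →+* Matrix δ δ R) : S →+* Matrix (δ × ε) (δ × ε) R where
  toFun s := Matrix.kroneckerMap (· * ·) (M s) (1 : Matrix ε ε R)
  map_one' := by
    rw [map_one]
    exact Matrix.one_kronecker_one
  map_mul' s t := by
    rw [map_mul]
    have h := Matrix.mul_kronecker_mul (M s) (M t) (1 : Matrix ε ε R) (1 : Matrix ε ε R)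
    rw [Matrix.one_mul] at h
    exact h
  map_zero' := by
    rw [map_zero]
    exact Matrix.zero_kronecker _
  map_add' s t := by
    rw [map_add]
    exact Matrix.add_kronecker _ _ _

private theorem corrK_kr_apply (M : S →+* Matrix δ δ R) (s : S) (i j : δ × ε) :
    corrK_kr ε M s i j = if i.2 = j.2 then M s i.1 j.1 else 0 := by
  show M s i.1 j.1 * (1 : Matrix ε ε R) i.2 j.2 = _
  rw [Matrix.one_apply]
  split_ifs
  · rw [mul_one]
  · rw [mul_zero]

/-- separate the first block -/
private def corrK_eq (δ : Type) (a : ℕ) : δ × Fin (a + 1) ≃ (δ × Fin a) ⊕ δ where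
  toFun x := Fin.cases (motive := fun _ => (δ × Fin a) ⊕ δ) (Sum.inr x.1)
    (fun i => Sum.inl (x.1, i)) x.2
  invFun y := Sum.elim (fun z => (z.1, z.2.succ)) (fun z => (z, 0)) y
  left_inv x := by
    obtain ⟨d, i⟩ := x
    refine Fin.cases ?_ (fun i => ?_) i
    · rfl
    · rfl
  right_inv y := by
    rcases y with z | z
    · rfl
    · rfl

private theorem corrK_fin (M : S →+* Matrix δ δ R) (x : GG I σ S) (a : ℕ) :
    ∀ (Λ : S →+* Matrix (δ × Fin a) (δ × Fin a) R),
      (∀ s (i j : δ × Fin a), Λ s i j = if i.2 = j.2 then M s i.1 j.1 else 0) →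
        GG.corr Λ x = (a : ℚ) • GG.corr M x := by
  induction a with
  | zero =>
    intro Λ _
    rw [GG.corr_empty, Nat.cast_zero, zero_smul]
  | succ a ih =>
    intro Λ h
    have h1 := corr_reindex (corrK_eq δ a) Λ (corrK_re (corrK_eq δ a) Λ)
      (fun s i j => corrK_re_apply _ Λ s i j) x
    have h2 := GG.corr_fromBlocks (corrK_re (corrK_eq δ a) Λ) (corrK_kr (Fin a) M) M
      (fun s => by
        ext i j
        rw [corrK_re_apply, h]
        rcases i with i | i <;> rcases j with j | j
        · rw [Matrix.fromBlocks_apply₁₁, corrK_kr_apply]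
          show (if i.2.succ = j.2.succ then M s i.1 j.1 else 0) = _
          exact if_congr Fin.succ_inj rfl rfl
        · rw [Matrix.fromBlocks_apply₁₂]
          show (if i.2.succ = 0 then M s i.1 j else 0) = _
          rw [if_neg (Fin.succ_ne_zero _)]
          rfl
        · rw [Matrix.fromBlocks_apply₂₁]
          show (if 0 = j.2.succ then M s i j.1 else 0) = _
          rw [if_neg (Fin.succ_ne_zero _).symm]
          rfl
        · rw [Matrix.fromBlocks_apply₂₂]
          show (if (0 : Fin (a + 1)) = 0 then M s i j else 0) = _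
          rw [if_pos rfl]) x
    rw [← h1, h2, ih (corrK_kr (Fin a) M) (fun s i j => corrK_kr_apply M s i j), Nat.cast_succ,
      add_smul, one_smul]

theorem corr_kron (Λ : S →+* Matrix (δ × ε) (δ × ε) R) (M : S →+* Matrix δ δ R)
    (h : ∀ s i a j b, Λ s (i, a) (j, b) = if a = b then M s i j else 0) (x : GG I σ S) :
    GG.corr Λ x = (Fintype.card ε : ℚ) • GG.corr M x := by
  have h1 := corr_reindex (Equiv.prodCongr (Equiv.refl δ) (Fintype.equivFin ε)) Λ
    (corrK_re (Equiv.prodCongr (Equiv.refl δ) (Fintype.equivFin ε)) Λ)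
    (fun s i j => corrK_re_apply _ Λ s i j) x
  rw [← h1]
  refine corrK_fin M x _ _ fun s i j => ?_
  rw [corrK_re_apply]
  obtain ⟨i, a⟩ := i
  obtain ⟨j, b⟩ := j
  show Λ s (i, (Fintype.equivFin ε).symm a) (j, (Fintype.equivFin ε).symm b) = _
  rw [h]
  exact if_congr ((Fintype.equivFin ε).symm.injective.eq_iff) rfl rfl

end Pool.Agent.NCV
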