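import Pool.Agent.GSM.Plain

/-!
# Further definitions used in the statement

Nothing but definitions. Classes over a family of fields `K i`, `i ∈ ι`, are classes over the ring
`∏ K i`; this is a family of classes over the `K i` with matrices of bounded size and entries of
bounded degree, and its vanishing means that the members vanish by uniformly bounded homotopies.
-/

noncomputable section

namespace Pool.Agent.NCV.Plain

open Pool.Agent.GSM.Plain

universe u v w

/-- `H(n, w; R) = 0`. -/
def Vanishes (n w : ℕ) (R : Type u) [CommRing R] : Prop :=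
  ∀ x : F (Fin w) (MvPolynomial (Fin n) R), IsCube x → IsBd x

/-- The `N`-th external power of a class over `R[t_1, ..., t_n]`. -/
def pow {n w : ℕ} {R : Type u} [CommRing R] (N : ℕ) (x : F (Fin w) (MvPolynomial (Fin n) R)) :
    F (Σ _ : Fin N, Fin w) (MvPolynomial (Σ _ : Fin N, Fin n) R) :=
  prod fun j : Fin N => emb (I := fun _ => Fin n) (σ := fun _ => Fin w) j x

section

variable {R : Type v} [CommRing R] {K : Type w} [CommRing K]

/-- The external products of `N` differences `p_* x_j - q_* x_j`, with `x_j` in `H(n_j, w_j; R)`,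
vanish. -/
def Link (p q : R →+* K) (N : ℕ) : Prop :=
  ∀ (n w : Fin N → ℕ) (x : ∀ j, F (Fin (w j)) (MvPolynomial (Fin (n j)) R)), (∀ j, IsCube (x j)) →
    IsBd (prod fun j => emb j (base p (x j) - base q (x j)))

/-- The polarised product of the `p_* x - (q i)_* x`, `i < D`, vanishes for all classes over `R`: for all
classes `x_1, ..., x_D` over `R` the sum over all permutations `π` of the external products of the classes
`p_* x_j - (q (π j))_* x_j` is zero. -/
def Root (p : R →+* K) {D : ℕ} (q : Fin D → (R →+* K)) : Prop :=
  ∀ (n w : Fin D → ℕ) (x : ∀ j, F (Fin (w j)) (MvPolynomial (Fin (n j)) R)), (∀ j, IsCube (x j)) →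
    IsBd (∑ π : Equiv.Perm (Fin D), prod fun j => emb j (base p (x j) - base (q (π j)) (x j)))

/-- The external products of `N` classes `p_* x_j`, with `x_j` in `H(n_j, w_j; R)` for bidegrees such that
`H(n_j, w_j; k) = 0`, vanish. -/
def Kills (k : Type u) [CommRing k] (p : R →+* K) (N : ℕ) : Prop :=
  ∀ (n w : Fin N → ℕ) (x : ∀ j, F (Fin (w j)) (MvPolynomial (Fin (n j)) R)), (∀ j, IsCube (x j)) →
    (∀ j, Vanishes (n j) (w j) k) → IsBd (prod fun j => emb j (base p (x j)))

end

/-- The `k`-algebra `R` is free of rank `e` over `k[t_1, ..., t_r][1/g]`. -/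
def FreeAway {k : Type u} [Field k] {r : ℕ} (g : MvPolynomial (Fin r) k) (e : ℕ) (R : Type v)
    [CommRing R] [Algebra k R] : Prop :=
  ∃ (_ : Algebra (Localization.Away g) R) (_ : IsScalarTower k (Localization.Away g) R),
    Nonempty (Module.Basis (Fin e) (Localization.Away g) R)

variable {ι : Type} (k K : ι → Type) [∀ i, Field (k i)] [∀ i, Field (K i)] [∀ i, Algebra (k i) (K i)]

/-- The indices `i` such that the characteristic of `K i` is zero or larger than `M`. -/
def Large (M : ℕ) : Set ι := {i | ringChar (K i) = 0 ∨ M < ringChar (K i)}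

/-- Forget the members of a family whose index is not in `Large K M`. -/
def large (M : ℕ) : (∀ i, K i) →+* ∀ i : Large K M, K i :=
  RingHom.pi fun i => Pi.evalRingHom K i

/-- The inclusion of `∏ k i` into `∏ K i`, over the indices in `Large K M`. -/
def incl (M : ℕ) : (∀ i : Large K M, k i) →+* ∀ i : Large K M, K i :=
  RingHom.pi fun i => (algebraMap (k i) (K i)).comp (Pi.evalRingHom (fun i : Large K M => k i) i)

end Pool.Agent.NCV.Plain
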