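import Pool.Agent.NCV.LinkF

/-!
# A point which is a root of a polynomial with linked roots is linked to them
-/

noncomputable section

namespace Pool.Agent.NCV

open Pool.Agent.GSM

universe u v w

/-- The polarised product of the differences `p_* x - (q i)_* x` is a boundary. -/
def KilledF {R : Type u} {K : Type v} [CommRing R] [CommRing K] (p : R →+* K) {D : ℕ}
    (q : Fin D → (R →+* K)) : Prop :=
  ∀ (I σ : Type) [Finite I] [Finite σ] [DecidableEq I] [DecidableEq σ] (a : Fin D → Set I)
    (b : Fin D → Set σ) (X : Fin D → GG I σ R), (∀ i j, i ≠ j → Disjoint (a i) (a j)) →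
    (∀ i j, i ≠ j → Disjoint (b i) (b j)) → (∀ j, IsCubeOn (a j) (b j) (X j)) →
    BdOn (⋃ j, a j) (⋃ j, b j) (∑ π : Equiv.Perm (Fin D), ∏ j,
      (GG.base p (X j) - GG.base (q (π j)) (X j)))

private theorem linkK_union {ι I : Type} [Fintype ι] [DecidableEq ι] (a : ι → Set I)
    (t : Finset ι) : (⋃ j ∈ t, a j) ∪ (⋃ j ∈ Finset.univ \ t, a j) = ⋃ j, a j := by
  ext x
  simp only [Set.mem_union, Set.mem_iUnion, Finset.mem_sdiff, exists_prop, Finset.mem_univ,
    true_and]
  constructor
  · rintro (⟨j, _, hx⟩ | ⟨j, _, hx⟩)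
    · exact ⟨j, hx⟩
    · exact ⟨j, hx⟩
  · rintro ⟨j, hx⟩
    by_cases hjt : j ∈ t
    · exact Or.inl ⟨j, hjt, hx⟩
    · exact Or.inr ⟨j, hjt, hx⟩

private theorem linkK_disj {ι I : Type} [Fintype ι] [DecidableEq ι] (a : ι → Set I)
    (t : Finset ι) (ha : ∀ i j, i ≠ j → Disjoint (a i) (a j)) :
    Disjoint (⋃ j ∈ t, a j) (⋃ j ∈ Finset.univ \ t, a j) := by
  rw [Set.disjoint_left]
  intro x hx hx'
  simp only [Set.mem_iUnion, Finset.mem_sdiff, exists_prop] at hx hx'
  obtain ⟨i, hi, hxi⟩ := hx
  obtain ⟨j, ⟨_, hjt⟩, hxj⟩ := hx'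
  have hij : i ≠ j := fun e => hjt (e ▸ hi)
  exact Set.disjoint_left.1 (ha i j hij) hxi hxj

/-- the differences with `c`: for `p` (`none`) and for `q i` (`some i`) -/
private def linkKW {R : Type u} {K : Type v} [CommRing R] [CommRing K] (p c : R →+* K)
    {D : ℕ} (q : Fin D → (R →+* K)) {I σ : Type} [DecidableEq I] [DecidableEq σ] {ι : Type}
    (X : ι → GG I σ R) (o : Option (Fin D)) (j : ι) : GG I σ K :=
  GG.base (o.elim p q) (X j) - GG.base c (X j)

private theorem linkK_cube {R : Type u} {K : Type v} [CommRing R] [CommRing K] (p c : R →+* K)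
    {D : ℕ} (q : Fin D → (R →+* K)) {I σ : Type} [DecidableEq I] [DecidableEq σ] {ι : Type}
    {X : ι → GG I σ R} {a : ι → Set I} {b : ι → Set σ} (hX : ∀ j, IsCubeOn (a j) (b j) (X j))
    (o : Option (Fin D)) (j : ι) : IsCubeOn (a j) (b j) (linkKW p c q X o j) :=
  ((hX j).base _).sub ((hX j).base _)

private theorem linkK_mul {K : Type v} [CommRing K] {I σ : Type} [DecidableEq I]
    [DecidableEq σ] {ι : Type} [Fintype ι] [DecidableEq ι] {a : ι → Set I} {b : ι → Set σ}
    (ha : ∀ i j, i ≠ j → Disjoint (a i) (a j)) (hb : ∀ i j, i ≠ j → Disjoint (b i) (b j))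
    (t : Finset ι) {x y : GG I σ K} (hx : BdOn (⋃ j ∈ t, a j) (⋃ j ∈ t, b j) x)
    (hy : IsCubeOn (⋃ j ∈ Finset.univ \ t, a j) (⋃ j ∈ Finset.univ \ t, b j) y) :
    BdOn (⋃ j, a j) (⋃ j, b j) (x * y) := by
  have h := hx.mul (linkK_disj a t ha) (linkK_disj b t hb) hy
  rwa [linkK_union a t, linkK_union b t] at h

/-- a product of differences is a product of minuends, modulo a subgroup -/
private theorem linkK_expand {A : Type*} [CommRing A] (P : A → Prop) (h0 : P 0)
    (hadd : ∀ x y, P x → P y → P (x + y)) (hneg : ∀ x, P x → P (-x)) {ι : Type}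
    [DecidableEq ι] (s : Finset ι) (x y : ι → A) (r : A)
    (h : ∀ t ⊆ s, t ≠ s → P (((∏ j ∈ t, x j) * ∏ j ∈ s \ t, y j) * r)) :
    P ((∏ j ∈ s, (x j - y j)) * r - (∏ j ∈ s, x j) * r) := by
  have h1 : ∏ j ∈ s, (x j - y j) = ∑ t ∈ s.powerset,
      (∏ j ∈ t, x j) * ∏ j ∈ s \ t, (-y j) := by
    rw [← Finset.prod_add]
    exact Finset.prod_congr rfl fun j _ => sub_eq_add_neg _ _
  have h2 : (∏ j ∈ s, (x j - y j)) * r - (∏ j ∈ s, x j) * r =
      ∑ t ∈ s.powerset.erase s, ((∏ j ∈ t, x j) * ∏ j ∈ s \ t, (-y j)) * r := by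
    rw [h1, Finset.sum_mul, ← Finset.add_sum_erase _ _ (Finset.mem_powerset_self s),
      Finset.sdiff_self, Finset.prod_empty, mul_one, add_sub_cancel_left]
  rw [h2]
  have hsum : ∀ (T : Finset (Finset ι)) (f : Finset ι → A), (∀ t ∈ T, P (f t)) →
      P (∑ t ∈ T, f t) := by
    intro T f
    induction T using Finset.induction_on with
    | empty =>
      intro _
      rw [Finset.sum_empty]
      exact h0
    | insert t T ht ih =>
      intro hT
      rw [Finset.sum_insert ht]
      exact hadd _ _ (hT t (Finset.mem_insert_self t T))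
        (ih fun u hu => hT u (Finset.mem_insert_of_mem hu))
  refine hsum _ _ fun t ht => ?_
  have ht1 := Finset.mem_erase.1 ht
  have h3 := h t (Finset.mem_powerset.1 ht1.2) ht1.1
  have h4 : ∏ j ∈ s \ t, (-y j) = (-1) ^ (s \ t).card * ∏ j ∈ s \ t, y j := by
    rw [← Finset.prod_const, ← Finset.prod_mul_distrib]
    exact Finset.prod_congr rfl fun j _ => by ring
  rw [h4]
  rcases neg_one_pow_eq_or A (s \ t).card with h5 | h5
  · rw [h5, one_mul]
    exact h3
  · rw [h5]
    have h6 : ((∏ j ∈ t, x j) * (-1 * ∏ j ∈ s \ t, y j)) * r =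
        -(((∏ j ∈ t, x j) * ∏ j ∈ s \ t, y j) * r) := by ring
    rw [h6]
    exact hneg _ h3

private theorem linkK_key {R : Type u} {K : Type v} [CommRing R] [CommRing K] {p c : R →+* K}
    {D N₀ : ℕ} {q : Fin D → (R →+* K)} (h : KilledF p q) (hq : ∀ i, LinkedF (q i) c N₀)
    {I σ : Type} [Finite I] [Finite σ] [DecidableEq I] [DecidableEq σ] {ι : Type} [Fintype ι]
    [DecidableEq ι] (hN : D * N₀ + D ≤ Fintype.card ι) (a : ι → Set I) (b : ι → Set σ)
    (X : ι → GG I σ R) (ha : ∀ i j, i ≠ j → Disjoint (a i) (a j))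
    (hb : ∀ i j, i ≠ j → Disjoint (b i) (b j)) (hX : ∀ j, IsCubeOn (a j) (b j) (X j))
    (n : ℕ) : ∀ χ : ι → Option (Fin D), (Finset.univ.filter fun j => χ j = none).card = n →
      BdOn (⋃ j, a j) (⋃ j, b j) (∏ j, linkKW p c q X (χ j) j) := by
  induction n using Nat.strong_induction_on with
  | _ n ih =>
    intro χ hχ
    have hcube : ∀ (t : Finset ι) (f : ι → Option (Fin D)),
        IsCubeOn (⋃ j ∈ t, a j) (⋃ j ∈ t, b j) (∏ j ∈ t, linkKW p c q X (f j) j) :=
      fun t f => IsCubeOn.prod t (fun i _ j _ hij => ha i j hij) (fun i _ j _ hij => hb i j hij)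
        fun j _ => linkK_cube p c q hX (f j) j
    rcases Nat.lt_or_ge n D with hlt | hge
    · set Jv : Finset ι := Finset.univ.filter fun j => ¬ χ j = none with hJv
      have hcard : n + Jv.card = Fintype.card ι := by
        rw [← hχ, hJv, Finset.card_filter_add_card_filter_not, Finset.card_univ]
      have hmaps : ∀ j ∈ Jv, χ j ∈ (Finset.univ : Finset (Fin D)).image some := by
        intro j hj
        rw [hJv, Finset.mem_filter] at hj
        rcases hc : χ j with _ | i
        · exact absurd hc hj.2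
        · exact Finset.mem_image.2 ⟨i, Finset.mem_univ i, rfl⟩
      have hcim : ((Finset.univ : Finset (Fin D)).image some).card = D := by
        rw [Finset.card_image_of_injective _ (Option.some_injective _), Finset.card_univ,
          Fintype.card_fin]
      obtain ⟨o, ho, hoc⟩ := Finset.exists_lt_card_fiber_of_mul_lt_card_of_maps_to
        (n := N₀) hmaps (by rw [hcim]; omega)
      obtain ⟨i, _, rfl⟩ := Finset.mem_image.1 ho
      set S : Finset ι := Jv.filter fun j => χ j = some i with hS
      have hSχ : ∀ j ∈ S, χ j = some i := fun j hj => (Finset.mem_filter.1 hj).2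
      have h1 := (hq i).finset S hoc.le a b X (fun i _ j _ hij => ha i j hij)
        (fun i _ j _ hij => hb i j hij) fun j _ => hX j
      have h2 : ∏ j ∈ S, (GG.base (q i) (X j) - GG.base c (X j)) =
          ∏ j ∈ S, linkKW p c q X (χ j) j := by
        refine Finset.prod_congr rfl fun j hj => ?_
        rw [hSχ j hj]
        rfl
      rw [h2] at h1
      have h3 := linkK_mul ha hb S h1 (hcube (Finset.univ \ S) χ)
      rw [mul_comm, Finset.prod_sdiff (Finset.subset_univ S)] at h3
      exact h3
    · obtain ⟨J, hJs, hJc⟩ := Finset.exists_subset_card_eq (n := D)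
        (s := Finset.univ.filter fun j => χ j = none) (by rw [hχ]; exact hge)
      have hJn : ∀ j ∈ J, χ j = none := fun j hj => (Finset.mem_filter.1 (hJs hj)).2
      let e : Fin D ≃ J := (J.equivFinOfCardEq hJc).symm
      have hne : ∀ i j : Fin D, i ≠ j → (e i : ι) ≠ e j := fun i j hij h' =>
        hij (e.injective (Subtype.ext h'))
      have h1 := h I σ (fun j => a (e j)) (fun j => b (e j)) (fun j => X (e j))
        (fun i j hij => ha _ _ (hne i j hij)) (fun i j hij => hb _ _ (hne i j hij))
        (fun j => hX _)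
      have hU : ∀ {L : Type} (f : ι → Set L), (⋃ j : Fin D, f (e j)) = ⋃ j ∈ J, f j := by
        intro L f
        ext x
        simp only [Set.mem_iUnion, exists_prop]
        constructor
        · rintro ⟨j, hj⟩
          exact ⟨e j, (e j).2, hj⟩
        · rintro ⟨j, hj, hx⟩
          refine ⟨e.symm ⟨j, hj⟩, ?_⟩
          rw [Equiv.apply_symm_apply]
          exact hx
      let o : Equiv.Perm (Fin D) → ι → Option (Fin D) := fun π j =>
        if hj : j ∈ J then some (π (e.symm ⟨j, hj⟩)) else none
      have ho : ∀ π j, j ∈ J → o π j ≠ none := by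
        intro π j hj
        simp only [o, dif_pos hj]
        exact Option.some_ne_none _
      have hP : ∀ π : Equiv.Perm (Fin D), ∏ k : Fin D, (GG.base p (X (e k)) -
          GG.base (q (π k)) (X (e k))) =
          ∏ j ∈ J, (linkKW p c q X none j - linkKW p c q X (o π j) j) := by
        intro π
        rw [← Finset.prod_coe_sort J, ← Equiv.prod_comp e]
        refine Finset.prod_congr rfl fun k _ => ?_
        have h2 : o π (e k) = some (π k) := by
          simp only [o, dif_pos (e k).2, Subtype.coe_eta, Equiv.symm_apply_apply]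
        rw [h2]
        change _ = (GG.base p (X (e k)) - GG.base c (X (e k))) -
          (GG.base (q (π k)) (X (e k)) - GG.base c (X (e k)))
        ring
      rw [hU a, hU b, Finset.sum_congr rfl fun π _ => hP π] at h1
      have h2 := linkK_mul ha hb J h1 (hcube (Finset.univ \ J) χ)
      have hfull : (∏ j ∈ J, linkKW p c q X none j) *
          ∏ j ∈ Finset.univ \ J, linkKW p c q X (χ j) j = ∏ j, linkKW p c q X (χ j) j := by
        rw [mul_comm, ← Finset.prod_sdiff (Finset.subset_univ J)]
        congr 1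
        exact Finset.prod_congr rfl fun j hj => by rw [hJn j hj]
      have hπ : ∀ π : Equiv.Perm (Fin D), BdOn (⋃ j, a j) (⋃ j, b j)
          ((∏ j ∈ J, (linkKW p c q X none j - linkKW p c q X (o π j) j)) *
            (∏ j ∈ Finset.univ \ J, linkKW p c q X (χ j) j) -
            ∏ j, linkKW p c q X (χ j) j) := by
        intro π
        rw [← hfull]
        refine linkK_expand (BdOn (⋃ j, a j) (⋃ j, b j)) (BdOn.zero _ _)
          (fun x y hx hy => hx.add hy) (fun x hx => hx.neg) J _ _ _ fun t ht htJ => ?_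
        let χ' : ι → Option (Fin D) := fun j =>
          if j ∈ t then none else if j ∈ J then o π j else χ j
        have h3 : ((∏ j ∈ t, linkKW p c q X none j) *
            ∏ j ∈ J \ t, linkKW p c q X (o π j) j) *
            (∏ j ∈ Finset.univ \ J, linkKW p c q X (χ j) j) =
            ∏ j, linkKW p c q X (χ' j) j := by
          rw [← Finset.prod_sdiff (Finset.subset_univ J), ← Finset.prod_sdiff ht,
            mul_comm, mul_comm (∏ j ∈ t, linkKW p c q X none j)]
          congr 1
          · refine Finset.prod_congr rfl fun j hj => ?_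
            have hjJ : j ∉ J := (Finset.mem_sdiff.1 hj).2
            have hjt : j ∉ t := fun h => hjJ (ht h)
            simp only [χ', if_neg hjt, if_neg hjJ]
          · congr 1
            · refine Finset.prod_congr rfl fun j hj => ?_
              have hjJ := Finset.mem_sdiff.1 hj
              simp only [χ', if_neg hjJ.2, if_pos hjJ.1]
            · refine Finset.prod_congr rfl fun j hj => ?_
              simp only [χ', if_pos hj]
        rw [h3]
        refine ih _ ?_ χ' rfl
        rw [← hχ]
        refine Finset.card_lt_card ?_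
        rw [Finset.ssubset_iff_of_subset]
        · have h4 : ∃ j ∈ J, j ∉ t := by
            by_contra hcon
            push Not at hcon
            exact htJ (Finset.Subset.antisymm ht hcon)
          obtain ⟨j, hjJ, hjt⟩ := h4
          refine ⟨j, hJs hjJ, fun hj => ?_⟩
          have h5 := (Finset.mem_filter.1 hj).2
          simp only [χ', if_neg hjt, if_pos hjJ] at h5
          exact ho π j hjJ h5
        · intro j hj
          have h5 := (Finset.mem_filter.1 hj).2
          by_cases hjt : j ∈ t
          · exact hJs (ht hjt)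
          · by_cases hjJ : j ∈ J
            · exact hJs hjJ
            · simp only [χ', if_neg hjt, if_neg hjJ] at h5
              exact Finset.mem_filter.2 ⟨Finset.mem_univ j, h5⟩
      have h4 := h2.sub (BdOn.sum Finset.univ fun π _ => hπ π)
      rw [Finset.sum_sub_distrib, ← Finset.sum_mul, Finset.sum_const, Finset.card_univ,
        sub_sub_cancel] at h4
      have hne0 : ((Fintype.card (Equiv.Perm (Fin D)) : ℕ) : ℚ) ≠ 0 :=
        Nat.cast_ne_zero.2 Fintype.card_ne_zero
      have h5 := h4.smul ((Fintype.card (Equiv.Perm (Fin D)) : ℕ) : ℚ)⁻¹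
      rw [← Nat.cast_smul_eq_nsmul ℚ, smul_smul, inv_mul_cancel₀ hne0, one_smul] at h5
      exact h5

theorem LinkedF.of_killed {R : Type u} {K : Type v} [CommRing R] [CommRing K] {p c : R →+* K}
    {D N₀ : ℕ} {q : Fin D → (R →+* K)} (h : KilledF p q) (hq : ∀ i, LinkedF (q i) c N₀) :
    LinkedF p c (D * N₀ + D) := by
  intro I σ _ _ _ _ a b X ha hb hX
  exact linkK_key h hq (by rw [Fintype.card_fin]) a b X ha hb hX _ (fun _ => none) rfl

end Pool.Agent.NCV
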