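import Pool.Agent.GSM.Newton

/-!
# Polarised Newton for two families

MODULE NCV-Polar2. Model: GSM/Polar.lean.
* `newton_ideal2`: in `MvPolynomial (Fin D ⊕ Fin D) ℚ` the product `∏ l, (X (inl i) - X (inr l))` is a
  combination of the elements `∑ j, X (inl j) ^ m - ∑ j, X (inr j) ^ m`, `1 ≤ m ≤ D`.
* evaluate at linear forms and compare the coefficients of the squarefree monomial of full degree.
* the coefficient of that monomial in a product of linear forms is the sum over permutations.
-/

noncomputable section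

namespace Pool.Agent.NCV

open Pool.Agent.GSM

universe u

open MvPolynomial Finset

/-- the indicator of `J` as an exponent -/
private def polar2Ind {D : ℕ} (J : Finset (Fin D)) : Fin D →₀ ℕ :=
  Finsupp.equivFunOnFinite.symm fun j => if j ∈ J then 1 else 0

private theorem polar2Ind_apply {D : ℕ} (J : Finset (Fin D)) (j : Fin D) :
    polar2Ind J j = if j ∈ J then 1 else 0 := rfl

private theorem polar2Ind_eq_zero {D : ℕ} {J : Finset (Fin D)} : polar2Ind J = 0 ↔ J = ∅ := by
  constructor
  · intro h
    ext j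
    have h1 := DFunLike.congr_fun h j
    rw [polar2Ind_apply, Finsupp.coe_zero, Pi.zero_apply] at h1
    constructor
    · intro hj
      rw [if_pos hj] at h1
      exact absurd h1 one_ne_zero
    · intro hj
      exact absurd hj (Finset.notMem_empty j)
  · rintro rfl
    ext j
    rw [polar2Ind_apply]
    simp

private theorem polar2Ind_add {D : ℕ} {J J1 : Finset (Fin D)} (h : J1 ⊆ J) :
    polar2Ind J1 + polar2Ind (J \ J1) = polar2Ind J := by
  ext j
  rw [Finsupp.coe_add, Pi.add_apply, polar2Ind_apply, polar2Ind_apply, polar2Ind_apply]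
  by_cases h1 : j ∈ J1
  · rw [if_pos h1, if_pos (h h1), if_neg (fun h2 => (Finset.mem_sdiff.1 h2).2 h1)]
  · by_cases h2 : j ∈ J
    · rw [if_neg h1, if_pos h2, if_pos (Finset.mem_sdiff.2 ⟨h2, h1⟩)]
    · rw [if_neg h1, if_neg h2, if_neg (fun h3 => h2 (Finset.mem_sdiff.1 h3).1)]

private theorem polar2Ind_mul {A : Type u} [CommRing A] {D : ℕ} (J : Finset (Fin D))
    (p q : MvPolynomial (Fin D) A) :
    coeff (polar2Ind J) (p * q) = ∑ J1 ∈ J.powerset, coeff (polar2Ind J1) p * coeff (polar2Ind (J \ J1)) q := by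
  classical
  rw [coeff_mul]
  symm
  refine Finset.sum_bij' (fun J1 _ => (polar2Ind J1, polar2Ind (J \ J1))) (fun a _ => a.1.support)
    ?_ ?_ ?_ ?_ ?_
  · intro J1 hJ1
    rw [Finset.HasAntidiagonal.mem_antidiagonal]
    exact polar2Ind_add (Finset.mem_powerset.1 hJ1)
  · intro a ha
    rw [Finset.HasAntidiagonal.mem_antidiagonal] at ha
    rw [Finset.mem_powerset]
    intro j hj
    by_contra hjJ
    have h1 := DFunLike.congr_fun ha j
    rw [Finsupp.coe_add, Pi.add_apply, polar2Ind_apply, if_neg hjJ] at h1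
    rw [Finsupp.mem_support_iff] at hj
    omega
  · intro J1 _
    ext j
    rw [Finsupp.mem_support_iff, polar2Ind_apply]
    by_cases h1 : j ∈ J1 <;> simp [h1]
  · intro a ha
    rw [Finset.HasAntidiagonal.mem_antidiagonal] at ha
    have h1 : ∀ j, a.1 j + a.2 j = if j ∈ J then 1 else 0 := by
      intro j
      have h2 := DFunLike.congr_fun ha j
      rwa [Finsupp.coe_add, Pi.add_apply, polar2Ind_apply] at h2
    refine Prod.ext ?_ ?_
    · ext j
      rw [polar2Ind_apply]
      have h2 := h1 j
      by_cases h3 : j ∈ J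
      · rw [if_pos h3] at h2
        by_cases h4 : a.1 j = 0
        · rw [if_neg (fun h5 => (Finsupp.mem_support_iff.1 h5) h4), h4]
        · rw [if_pos (Finsupp.mem_support_iff.2 h4)]
          omega
      · rw [if_neg h3] at h2
        have h4 : a.1 j = 0 := by omega
        rw [if_neg (fun h5 => (Finsupp.mem_support_iff.1 h5) h4), h4]
    · ext j
      rw [polar2Ind_apply]
      have h2 := h1 j
      by_cases h3 : j ∈ J
      · rw [if_pos h3] at h2
        by_cases h4 : a.1 j = 0
        · rw [if_pos (Finset.mem_sdiff.2 ⟨h3, fun h5 => (Finsupp.mem_support_iff.1 h5) h4⟩)]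
          omega
        · rw [if_neg (fun h5 => (Finset.mem_sdiff.1 h5).2 (Finsupp.mem_support_iff.2 h4))]
          omega
      · rw [if_neg h3] at h2
        rw [if_neg (fun h5 => h3 (Finset.mem_sdiff.1 h5).1)]
        omega
  · intro J1 _
    rfl

/-- the linear form of a family -/
private def polar2Lin {A : Type u} [CommRing A] {D : ℕ} (y : Fin D → A) : MvPolynomial (Fin D) A :=
  ∑ j, C (y j) * X j

private theorem polar2Lin_coeff {A : Type u} [CommRing A] {D : ℕ} (y : Fin D → A)
    (J : Finset (Fin D)) :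
    coeff (polar2Ind J) (polar2Lin y) = if J.card = 1 then ∏ j ∈ J, y j else 0 := by
  classical
  unfold polar2Lin
  rw [coeff_sum]
  have h1 : ∀ j : Fin D, coeff (polar2Ind J) (C (y j) * X j : MvPolynomial (Fin D) A) =
      if J = {j} then y j else 0 := by
    intro j
    rw [coeff_C_mul, coeff_X]
    by_cases h2 : J = {j}
    · have h3 : Finsupp.single j 1 = polar2Ind J := by
        ext k
        rw [polar2Ind_apply, h2, Finsupp.single_apply]
        by_cases h4 : j = k
        · rw [if_pos h4, if_pos (Finset.mem_singleton.2 h4.symm)]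
        · rw [if_neg h4, if_neg (fun h5 => h4 (Finset.mem_singleton.1 h5).symm)]
      rw [if_pos h3, if_pos h2, mul_one]
    · have h3 : ¬ Finsupp.single j 1 = polar2Ind J := by
        intro h4
        apply h2
        ext k
        have h5 := DFunLike.congr_fun h4 k
        rw [polar2Ind_apply, Finsupp.single_apply] at h5
        rw [Finset.mem_singleton]
        by_cases h6 : j = k
        · rw [if_pos h6] at h5
          by_cases h7 : k ∈ J
          · exact ⟨fun _ => h6.symm, fun _ => h7⟩
          · rw [if_neg h7] at h5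
            exact absurd h5 one_ne_zero
        · rw [if_neg h6] at h5
          by_cases h7 : k ∈ J
          · rw [if_pos h7] at h5
            exact absurd h5 (by norm_num)
          · exact ⟨fun h => absurd h h7, fun h => absurd h.symm h6⟩
      rw [if_neg h3, if_neg h2, mul_zero]
  rw [Finset.sum_congr rfl fun j _ => h1 j]
  by_cases hJ : J.card = 1
  · obtain ⟨a, rfl⟩ := Finset.card_eq_one.1 hJ
    rw [if_pos hJ, Finset.prod_singleton, Finset.sum_eq_single a]
    · rw [if_pos rfl]
    · intro b _ hb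
      rw [if_neg (fun h => hb (Finset.singleton_injective h).symm)]
    · intro h
      exact absurd (Finset.mem_univ a) h
  · rw [if_neg hJ]
    refine Finset.sum_eq_zero fun j _ => ?_
    rw [if_neg]
    rintro rfl
    exact hJ (Finset.card_singleton j)

private theorem polar2Lin_pow {A : Type u} [CommRing A] {D : ℕ} (y : Fin D → A) (m : ℕ)
    (J : Finset (Fin D)) :
    coeff (polar2Ind J) (polar2Lin y ^ m) = if J.card = m then (m.factorial : A) * ∏ j ∈ J, y j else 0 := by
  classical
  induction m generalizing J with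
  | zero =>
    rw [pow_zero, coeff_one]
    by_cases hJ : J = ∅
    · subst hJ
      rw [if_pos (polar2Ind_eq_zero.2 rfl).symm, if_pos Finset.card_empty]
      simp
    · rw [if_neg (fun h => hJ (polar2Ind_eq_zero.1 h.symm)),
        if_neg (fun h => hJ (Finset.card_eq_zero.1 h))]
  | succ m ih =>
    rw [pow_succ, polar2Ind_mul]
    have h1 : ∀ J1 ∈ J.powerset, coeff (polar2Ind J1) (polar2Lin y ^ m) *
        coeff (polar2Ind (J \ J1)) (polar2Lin y) =
        if J1.card = m then (if J.card = m + 1 then (m.factorial : A) * ∏ j ∈ J, y j else 0)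
          else 0 := by
      intro J1 hJ1
      have hs := Finset.mem_powerset.1 hJ1
      have hc : (J \ J1).card + J1.card = J.card := Finset.card_sdiff_add_card_eq_card hs
      rw [ih, polar2Lin_coeff]
      by_cases h2 : J1.card = m
      · rw [if_pos h2, if_pos h2]
        by_cases h3 : J.card = m + 1
        · rw [if_pos h3, if_pos (by omega), ← Finset.prod_sdiff hs]
          ring
        · rw [if_neg h3, if_neg (by omega), mul_zero]
      · rw [if_neg h2, if_neg h2, zero_mul]
    rw [Finset.sum_congr rfl h1]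
    by_cases h3 : J.card = m + 1
    · rw [if_pos h3, if_pos h3, ← Finset.sum_filter, Finset.sum_const]
      have h4 : (J.powerset.filter fun J1 => J1.card = m).card = m + 1 := by
        rw [← Finset.powersetCard_eq_filter, Finset.card_powersetCard, h3,
          Nat.choose_succ_self_right]
      rw [h4, nsmul_eq_mul, Nat.factorial_succ]
      push_cast
      ring
    · rw [if_neg h3, if_neg h3]
      refine Finset.sum_eq_zero fun J1 _ => ?_
      rw [ite_self]

private theorem polar2Lin_sub {A : Type u} [CommRing A] {D : ℕ} (y z : Fin D → A) :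
    polar2Lin y - polar2Lin z = polar2Lin fun j => y j - z j := by
  unfold polar2Lin
  rw [← Finset.sum_sub_distrib]
  refine Finset.sum_congr rfl fun j _ => ?_
  rw [map_sub, sub_mul]


private theorem polar2_ideal (D : ℕ) (i : Fin D) :
    ∃ Q : ℕ → MvPolynomial (Fin D ⊕ Fin D) ℚ,
    (∏ l : Fin D, (X (Sum.inl i) - X (Sum.inr l) : MvPolynomial (Fin D ⊕ Fin D) ℚ)) =
      ∑ m ∈ Finset.Icc 1 D, (∑ j : Fin D, X (Sum.inl j) ^ m - ∑ j : Fin D, X (Sum.inr j) ^ m) *
        Q m := by
  classical
  let v : ℕ → MvPolynomial (Fin D ⊕ Fin D) ℚ := fun m =>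
    ∑ j : Fin D, X (Sum.inl j) ^ m - ∑ j : Fin D, X (Sum.inr j) ^ m
  let I : Ideal (MvPolynomial (Fin D ⊕ Fin D) ℚ) :=
    Ideal.span (v '' (Finset.Icc 1 D : Finset ℕ))
  have h1 : ∀ m, 1 ≤ m → m ≤ D →
      ∑ j : Fin D, Ideal.Quotient.mk I (X (Sum.inl j)) ^ m =
        ∑ j : Fin D, Ideal.Quotient.mk I (X (Sum.inr j)) ^ m := by
    intro m hm1 hm2
    have h2 : v m ∈ I := Ideal.subset_span ⟨m, by simp [hm1, hm2], rfl⟩
    have h3 := Ideal.Quotient.eq_zero_iff_mem.2 h2
    have h4 : Ideal.Quotient.mk I (v m) = ∑ j : Fin D, Ideal.Quotient.mk I (X (Sum.inl j)) ^ m -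
        ∑ j : Fin D, Ideal.Quotient.mk I (X (Sum.inr j)) ^ m := by
      simp only [v, map_sub, map_sum, map_pow]
    rw [h4] at h3
    exact sub_eq_zero.1 h3
  have h5 := newton_prod (A := MvPolynomial (Fin D ⊕ Fin D) ℚ ⧸ I)
    (fun j => Ideal.Quotient.mk I (X (Sum.inl j))) (fun j => Ideal.Quotient.mk I (X (Sum.inr j))) h1
    (Ideal.Quotient.mk I (X (Sum.inl i)))
  have h50 : ∏ l : Fin D, (Ideal.Quotient.mk I (X (Sum.inl i)) -
      Ideal.Quotient.mk I (X (Sum.inr l))) = 0 := by
    rw [← h5]
    exact Finset.prod_eq_zero (Finset.mem_univ i) (sub_self _)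
  have h6 : (∏ l : Fin D, (X (Sum.inl i) - X (Sum.inr l) : MvPolynomial (Fin D ⊕ Fin D) ℚ)) ∈
      I := by
    rw [← Ideal.Quotient.eq_zero_iff_mem, map_prod]
    simp only [map_sub]
    exact h50
  obtain ⟨c, hc⟩ := (Submodule.mem_span_image_finset_iff_exists_fun' _).1 h6
  refine ⟨c, ?_⟩
  rw [← hc]
  refine Finset.sum_congr rfl fun m _ => ?_
  rw [smul_eq_mul, mul_comm]


private theorem polar2_coeff {A : Type u} [CommRing A] {D : ℕ} (a : Fin D → Fin D → A) :
    coeff (polar2Ind (Finset.univ : Finset (Fin D))) (∏ l, polar2Lin (a l)) =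
      ∑ π : Equiv.Perm (Fin D), ∏ j, a (π j) j := by
  classical
  have h0 : (∏ l, polar2Lin (a l) : MvPolynomial (Fin D) A) =
      ∑ f : Fin D → Fin D, ∏ l, (C (a l (f l)) * X (f l) : MvPolynomial (Fin D) A) := by
    unfold polar2Lin
    rw [Finset.prod_univ_sum, Fintype.piFinset_univ]
  have h1 : ∀ f : Fin D → Fin D, coeff (polar2Ind (Finset.univ : Finset (Fin D)))
      (∏ l, (C (a l (f l)) * X (f l) : MvPolynomial (Fin D) A)) =
      if Function.Bijective f then ∏ l, a l (f l) else 0 := by
    intro f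
    have e1 : (∏ l, (C (a l (f l)) * X (f l) : MvPolynomial (Fin D) A)) =
        monomial (∑ l, Finsupp.single (f l) 1) (∏ l, a l (f l)) := by
      have e2 : ∀ l, (C (a l (f l)) * X (f l) : MvPolynomial (Fin D) A) =
          monomial (Finsupp.single (f l) 1) (a l (f l)) := by
        intro l
        rw [C_mul_X_eq_monomial]
      rw [Finset.prod_congr rfl fun l _ => e2 l, ← monomial_sum_prod]
    rw [e1, coeff_monomial]
    have e3 : (∑ l, Finsupp.single (f l) 1 = polar2Ind (Finset.univ : Finset (Fin D))) ↔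
        Function.Bijective f := by
      have e4 : ∀ j, (∑ l, Finsupp.single (f l) 1 : Fin D →₀ ℕ) j =
          (Finset.univ.filter fun l => f l = j).card := by
        intro j
        rw [Finsupp.finsetSum_apply, Finset.card_filter]
        refine Finset.sum_congr rfl fun l _ => ?_
        rw [Finsupp.single_apply]
      constructor
      · intro h2
        have h3 : ∀ j, (Finset.univ.filter fun l => f l = j).card = 1 := by
          intro j
          rw [← e4 j, h2, polar2Ind_apply, if_pos (Finset.mem_univ j)]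
        have hs : Function.Surjective f := by
          intro j
          obtain ⟨l, hl⟩ := Finset.card_pos.1 (by rw [h3 j]; exact one_pos)
          exact ⟨l, (Finset.mem_filter.1 hl).2⟩
        exact Finite.surjective_iff_bijective.1 hs
      · intro hb
        ext j
        rw [e4 j, polar2Ind_apply, if_pos (Finset.mem_univ j), Finset.card_eq_one]
        obtain ⟨l, hl⟩ := hb.2 j
        refine ⟨l, ?_⟩
        ext k
        rw [Finset.mem_filter, Finset.mem_singleton]
        constructor
        · rintro ⟨_, hk⟩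
          exact hb.1 (hk.trans hl.symm)
        · rintro rfl
          exact ⟨Finset.mem_univ _, hl⟩
    by_cases hb : Function.Bijective f
    · rw [if_pos (e3.2 hb), if_pos hb]
    · rw [if_neg (fun h2 => hb (e3.1 h2)), if_neg hb]
  rw [h0, coeff_sum, Finset.sum_congr rfl fun f _ => h1 f, ← Finset.sum_filter]
  symm
  refine Finset.sum_bij (fun (σ : Equiv.Perm (Fin D)) _ => (⇑σ⁻¹ : Fin D → Fin D)) ?_ ?_ ?_ ?_
  · intro σ _
    rw [Finset.mem_filter]
    exact ⟨Finset.mem_univ _, (σ⁻¹).bijective⟩
  · intro σ _ τ _ h2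
    have h3 : σ⁻¹ = τ⁻¹ := DFunLike.coe_injective h2
    exact inv_injective h3
  · intro f hf
    rw [Finset.mem_filter] at hf
    refine ⟨(Equiv.ofBijective f hf.2)⁻¹, Finset.mem_univ _, ?_⟩
    rw [inv_inv]
    rfl
  · intro σ _
    have h2 : ∀ j, a (σ j) j = a (σ j) (σ⁻¹ (σ j)) := by
      intro j
      rw [← Equiv.Perm.mul_apply, inv_mul_cancel, Equiv.Perm.one_apply]
    rw [Finset.prod_congr rfl fun j _ => h2 j]
    exact Equiv.prod_comp σ (fun l => a l (σ⁻¹ l))

theorem polar2 {A : Type u} [CommRing A] [Algebra ℚ A] {D : ℕ}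
    (Z B : Finset (Fin D) → Submodule ℚ A) (hZ1 : (1 : A) ∈ Z ∅)
    (hZmul : ∀ J J', Disjoint J J' → ∀ x ∈ Z J, ∀ y ∈ Z J', x * y ∈ Z (J ∪ J'))
    (hBmul : ∀ J J', Disjoint J J' → ∀ x ∈ B J, ∀ y ∈ Z J', x * y ∈ B (J ∪ J'))
    (x y : Fin D → Fin D → A) (hx : ∀ j i, x j i ∈ Z {j}) (hy : ∀ j i, y j i ∈ Z {j})
    (h : ∀ J : Finset (Fin D), J.Nonempty →
      (∑ i, ∏ j ∈ J, x j i) - (∑ i, ∏ j ∈ J, y j i) ∈ B J)
    (i : Fin D) : ∑ π : Equiv.Perm (Fin D), ∏ j, (x j i - y j (π j)) ∈ B Finset.univ := by
  classical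
  obtain ⟨Q, hQ⟩ := polar2_ideal D i
  -- the point of evaluation
  let ev : Fin D ⊕ Fin D → MvPolynomial (Fin D) A :=
    Sum.elim (fun i => polar2Lin fun j => x j i) (fun i => polar2Lin fun j => y j i)
  -- the subalgebra
  have zmul : ∀ p q : MvPolynomial (Fin D) A, (∀ J, coeff (polar2Ind J) p ∈ Z J) →
      (∀ J, coeff (polar2Ind J) q ∈ Z J) → ∀ J, coeff (polar2Ind J) (p * q) ∈ Z J := by
    intro p q hp hq J
    rw [polar2Ind_mul]
    refine Submodule.sum_mem _ fun J1 hJ1 => ?_
    have h1 := hZmul J1 (J \ J1) Finset.disjoint_sdiff _ (hp J1) _ (hq (J \ J1))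
    rwa [Finset.union_sdiff_of_subset (Finset.mem_powerset.1 hJ1)] at h1
  have zlin : ∀ s : Fin D ⊕ Fin D, ∀ J, coeff (polar2Ind J) (ev s) ∈ Z J := by
    intro s J
    rcases s with i | i
    · change coeff (polar2Ind J) (polar2Lin fun j => x j i) ∈ Z J
      rw [polar2Lin_coeff]
      by_cases hJ : J.card = 1
      · obtain ⟨a, rfl⟩ := Finset.card_eq_one.1 hJ
        rw [if_pos hJ, Finset.prod_singleton]
        exact hx a i
      · rw [if_neg hJ]
        exact Submodule.zero_mem _
    · change coeff (polar2Ind J) (polar2Lin fun j => y j i) ∈ Z J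
      rw [polar2Lin_coeff]
      by_cases hJ : J.card = 1
      · obtain ⟨a, rfl⟩ := Finset.card_eq_one.1 hJ
        rw [if_pos hJ, Finset.prod_singleton]
        exact hy a i
      · rw [if_neg hJ]
        exact Submodule.zero_mem _
  have zQ : ∀ q : MvPolynomial (Fin D ⊕ Fin D) ℚ, ∀ J,
      coeff (polar2Ind J) (aeval ev q) ∈ Z J := by
    intro q
    induction q using MvPolynomial.induction_on with
    | C c =>
      intro J
      rw [algHom_C, MvPolynomial.algebraMap_apply, coeff_C]
      by_cases hJ : J = ∅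
      · subst hJ
        rw [if_pos (polar2Ind_eq_zero.2 rfl).symm, Algebra.algebraMap_eq_smul_one]
        exact Submodule.smul_mem _ _ hZ1
      · rw [if_neg (fun h => hJ (polar2Ind_eq_zero.1 h.symm))]
        exact Submodule.zero_mem _
    | add p q hp hq =>
      intro J
      rw [map_add, coeff_add]
      exact Submodule.add_mem _ (hp J) (hq J)
    | mul_X p i hp =>
      intro J
      rw [map_mul, aeval_X]
      exact zmul _ _ hp (zlin i) J
  -- the coefficients of the power sums
  have bsum : ∀ m, 1 ≤ m → ∀ J, coeff (polar2Ind J)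
      ((∑ i : Fin D, (polar2Lin fun j => x j i) ^ m) -
        ∑ i : Fin D, (polar2Lin fun j => y j i) ^ m) ∈ B J := by
    intro m hm J
    rw [coeff_sub, coeff_sum, coeff_sum,
      Finset.sum_congr rfl fun i _ => polar2Lin_pow (fun j => x j i) m J,
      Finset.sum_congr rfl fun i _ => polar2Lin_pow (fun j => y j i) m J]
    by_cases hJ : J.card = m
    · have hne : J.Nonempty := by
        rw [← Finset.card_pos]
        omega
      have h1 := Submodule.smul_mem _ (m.factorial : ℚ) (h J hne)
      have e : ∀ a : A, (m.factorial : ℚ) • a = (m.factorial : A) * a := by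
        intro a
        rw [Algebra.smul_def, map_natCast]
      rw [e, mul_sub, Finset.mul_sum, Finset.mul_sum] at h1
      simp only [if_pos hJ]
      exact h1
    · simp only [if_neg hJ, Finset.sum_const_zero, sub_zero]
      exact Submodule.zero_mem _
  -- evaluation
  have hev := congrArg (fun q => coeff (polar2Ind (Finset.univ : Finset (Fin D))) (aeval ev q)) hQ
  simp only [map_prod, map_pow, map_sub, map_sum, map_mul, aeval_X] at hev
  have hL : (∏ l : Fin D, (ev (Sum.inl i) - ev (Sum.inr l))) =
      ∏ l : Fin D, polar2Lin fun j => x j i - y j l := by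
    refine Finset.prod_congr rfl fun l _ => ?_
    change (polar2Lin fun j => x j i) - (polar2Lin fun j => y j l) = _
    rw [polar2Lin_sub]
  rw [hL, polar2_coeff, coeff_sum] at hev
  have hR : ∑ m ∈ Finset.Icc 1 D, coeff (polar2Ind (Finset.univ : Finset (Fin D)))
      ((∑ j : Fin D, ev (Sum.inl j) ^ m - ∑ j : Fin D, ev (Sum.inr j) ^ m) *
        aeval ev (Q m)) ∈ B Finset.univ := by
    refine Submodule.sum_mem _ fun m hm => ?_
    rw [polar2Ind_mul]
    refine Submodule.sum_mem _ fun J1 hJ1 => ?_
    have h1 := hBmul J1 (Finset.univ \ J1) Finset.disjoint_sdiff _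
      (bsum m (Finset.mem_Icc.1 hm).1 J1) _ (zQ (Q m) (Finset.univ \ J1))
    rwa [Finset.union_sdiff_of_subset (Finset.mem_powerset.1 hJ1)] at h1
  rw [← hev] at hR
  exact hR

end Pool.Agent.NCV
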