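import Pool.Agent.NCV.Line
import Pool.Agent.NCV.LinkK
import Pool.Agent.NCV.Polar2
import Pool.Agent.NCV.CorrK
import Pool.Agent.GSM.Chars
import Pool.Agent.GSM.Stmt
import Pool.Agent.GSM.Desc

/-!
# Effective nilpotence

`R` is free of rank `e` over `k[t_1, …, t_r][1/g]`, `g` of degree at most `m`. The points of `R` over
`z ∈ k ^ r`, `g(z) ≠ 0`, each repeated `m + 1` times, are `q_1, …, q_N`, `N = e (m + 1)`. Every point `p` of
`R` over a field `K` is one of `N` points whose power sums agree with those of the `q_i`.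
-/

noncomputable section

namespace Pool.Agent.NCV

open Pool.Agent.GSM Polynomial Module

universe u v w

section

variable {k : Type u} [Field k] {r : ℕ} {g : MvPolynomial (Fin r) k} {R : Type v} [CommRing R]
  [Algebra (Localization.Away g) R] {e : ℕ}

/-- The fibre over a point of the base, as a family of matrices. -/
private def fib (B : Basis (Fin e) (Localization.Away g) R) (δ : Localization.Away g →+* k) :
    R →+* Matrix (Fin e) (Fin e) k :=
  (δ.mapMatrix).comp (Algebra.leftMulMatrix B).toRingHom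

private theorem fib_algebraMap (B : Basis (Fin e) (Localization.Away g) R)
    (δ : Localization.Away g →+* k) (a : Localization.Away g) :
    fib B δ (algebraMap _ R a) = Matrix.scalar (Fin e) (δ a) := by
  unfold fib
  rw [RingHom.comp_apply]
  have h1 : (Algebra.leftMulMatrix B).toRingHom (algebraMap _ R a) =
      Matrix.diagonal fun _ => a := by
    show Algebra.leftMulMatrix B (algebraMap _ R a) = _
    rw [AlgHom.commutes, Matrix.algebraMap_eq_diagonal]
    rfl
  rw [h1]
  ext i j
  by_cases h : i = j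
  · subst h
    simp
  · simp [Matrix.diagonal_apply_ne _ h]

/-- The constants. -/
private def kap {K : Type w} [Field K] (p : R →+* K) : k →+* K :=
  (p.comp (algebraMap (Localization.Away g) R)).comp
    ((algebraMap (MvPolynomial (Fin r) k) (Localization.Away g)).comp MvPolynomial.C)

variable {m : ℕ}

/-- The moving fibre. -/
private theorem exists_moving {K : Type w} [Field K] (hm : g.totalDegree ≤ m)
    (B : Basis (Fin e) (Localization.Away g) R) (z : Fin r → k) (δ : Localization.Away g →+* k)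
    (hδ : ∀ p, δ (algebraMap _ _ p) = MvPolynomial.eval z p) (p : R →+* K) {d : ℕ}
    (E : Fin e × Fin (m + 1) ≃ Fin (d + 1)) :
    ∃ (Λ : R →+* Matrix (Fin (d + 1)) (Fin (d + 1)) K[X]) (l : Fin (d + 1) → K), l ≠ 0 ∧
      (∀ s, Matrix.vecMul l ((ev K true).mapMatrix (Λ s)) = p s • l) ∧
      ∀ s i j, (ev K false).mapMatrix (Λ s) i j =
        if (E.symm i).2 = (E.symm j).2 then
          kap (g := g) p (fib B δ s (E.symm i).1 (E.symm j).1) else 0 := by
  classical
  obtain ⟨M, l, hl, h1, h0⟩ := exists_line g hm (p.comp (algebraMap (Localization.Away g) R)) z δ hδ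
  let Λ₀ : R →+* Matrix (Fin e × Fin (m + 1)) (Fin e × Fin (m + 1)) K[X] :=
    (Tup.blockHom M).comp (Algebra.leftMulMatrix B).toRingHom
  have hΛ₀ : ∀ s x y, Λ₀ s x y = M (Algebra.leftMulMatrix B s x.1 y.1) x.2 y.2 := fun s x y => rfl
  let Λ : R →+* Matrix (Fin (d + 1)) (Fin (d + 1)) K[X] :=
    (Matrix.reindexRingEquiv K[X] E).toRingHom.comp Λ₀
  have hΛ : ∀ s i j, Λ s i j = M (Algebra.leftMulMatrix B s (E.symm i).1 (E.symm j).1)
    (E.symm i).2 (E.symm j).2 := fun s i j => rfl
  have hp1 : ∃ i, p (B i) ≠ 0 := by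
    by_contra h
    push Not at h
    have h2 : ∑ i, p ((B.repr (1 : R)) i • B i) = 1 := by
      rw [← map_sum, B.sum_repr]
      exact map_one p
    have h3 : ∑ i, p ((B.repr (1 : R)) i • B i) = 0 := by
      refine Finset.sum_eq_zero fun i _ => ?_
      rw [Algebra.smul_def, map_mul, h i, mul_zero]
    rw [h3] at h2
    exact zero_ne_one h2
  refine ⟨Λ, fun i => p (B (E.symm i).1) * l (E.symm i).2, ?_, ?_, ?_⟩
  · obtain ⟨i, hi⟩ := hp1
    obtain ⟨a, ha⟩ := Function.ne_iff.1 hl
    intro h
    have h2 := congrFun h (E (i, a))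
    simp only [Equiv.symm_apply_apply, Pi.zero_apply] at h2
    exact (mul_ne_zero hi ha) h2
  · intro s
    funext j
    have e1 : Matrix.vecMul (fun i => p (B (E.symm i).1) * l (E.symm i).2)
        ((ev K true).mapMatrix (Λ s)) j =
        ∑ i, p (B (E.symm i).1) * l (E.symm i).2 * (ev K true) (Λ s i j) := rfl
    rw [e1, ← Equiv.sum_comp E, Fintype.sum_prod_type]
    simp only [Equiv.symm_apply_apply, hΛ]
    have e2 : ∀ i, ∑ a, p (B i) * l a * (ev K true) (M (Algebra.leftMulMatrix B s i (E.symm j).1)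
        a (E.symm j).2) = p (B i) * (p (algebraMap (Localization.Away g) R
          (Algebra.leftMulMatrix B s i (E.symm j).1)) * l (E.symm j).2) := by
      intro i
      have e3 := congrFun (h1 (Algebra.leftMulMatrix B s i (E.symm j).1)) (E.symm j).2
      have e4 : Matrix.vecMul l ((ev K true).mapMatrix
          (M (Algebra.leftMulMatrix B s i (E.symm j).1))) (E.symm j).2 =
          ∑ a, l a * (ev K true) (M (Algebra.leftMulMatrix B s i (E.symm j).1)
            a (E.symm j).2) := rfl
      rw [e4, Pi.smul_apply, smul_eq_mul] at e3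
      simp only [mul_assoc]
      rw [← Finset.mul_sum, e3]
      rfl
    rw [Finset.sum_congr rfl fun i _ => e2 i]
    have e5 := congrFun (row_eigen B p s) (E.symm j).1
    have e6 : Matrix.vecMul (fun i => p (B i)) ((p.comp (algebraMap (Localization.Away g)
        R)).mapMatrix (Algebra.leftMulMatrix B s)) (E.symm j).1 =
        ∑ i, p (B i) * p (algebraMap (Localization.Away g) R
          (Algebra.leftMulMatrix B s i (E.symm j).1)) := rfl
    rw [e6, Pi.smul_apply, smul_eq_mul] at e5
    simp only [← mul_assoc]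
    rw [← Finset.sum_mul, e5, Pi.smul_apply, smul_eq_mul, mul_assoc]
  · intro s i j
    have e1 : (ev K false).mapMatrix (Λ s) i j = (ev K false).mapMatrix
        (M (Algebra.leftMulMatrix B s (E.symm i).1 (E.symm j).1)) (E.symm i).2 (E.symm j).2 := rfl
    rw [e1, h0, Matrix.scalar_apply, Matrix.diagonal_apply]
    rfl

private theorem ef_disj {ι T : Type} {a : ι → Set T} (ha : ∀ i j, i ≠ j → Disjoint (a i) (a j))
    {J J' : Finset ι} (h : Disjoint J J') : Disjoint (⋃ j ∈ J, a j) (⋃ j ∈ J', a j) := by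
  rw [Set.disjoint_iUnion₂_left]
  intro i hi
  rw [Set.disjoint_iUnion₂_right]
  intro j hj
  apply ha
  rintro rfl
  exact Finset.disjoint_left.1 h hi hj

/-- Equal power sums up to boundaries. -/
private theorem eff_key {K : Type w} [Field K] [IsAlgClosed K] (hm : g.totalDegree ≤ m)
    (B : Basis (Fin e) (Localization.Away g) R) (z : Fin r → k) (δ : Localization.Away g →+* k)
    (hδ : ∀ p, δ (algebraMap _ _ p) = MvPolynomial.eval z p) (p : R →+* K) {d : ℕ}
    (E : Fin e × Fin (m + 1) ≃ Fin (d + 1)) (q : Fin e → (R →+* k))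
    (hq : CharDecomp (fib B δ) q) :
    ∃ χ : Fin (d + 1) → (R →+* K), χ 0 = p ∧
      ∀ (I σ : Type) [DecidableEq I] [DecidableEq σ] (a : Set I) (b : Set σ) (x : GG I σ R),
        IsCubeOn a b x → BdOn a b (∑ i, GG.base (χ i) x -
          ∑ i, GG.base ((kap (g := g) p).comp (q (E.symm i).1)) x) := by
  classical
  obtain ⟨Λ, l, hl, h1, h0⟩ := exists_moving hm B z δ hδ p E
  obtain ⟨χ, hχ, hχ0⟩ := exists_charDecomp_zero (((ev K true).mapMatrix).comp Λ) p l hl h1
  refine ⟨χ, hχ0, fun I σ _ _ a b x hx => ?_⟩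
  have b1 := hχ.bd I σ a b x hx
  have b2 := homotopy Λ hx
  have b3 := (hq.bd I σ a b x hx).base (kap (g := g) p)
  have e1 : GG.corr (((ev K false).mapMatrix).comp Λ) x =
      ((m + 1 : ℕ) : ℚ) • GG.base (kap (g := g) p) (GG.corr (fib B δ) x) := by
    let Λ₂ : R →+* Matrix (Fin e × Fin (m + 1)) (Fin e × Fin (m + 1)) K :=
      (Matrix.reindexRingEquiv K E.symm).toRingHom.comp (((ev K false).mapMatrix).comp Λ)
    have hΛ₂ : ∀ s x y, Λ₂ s x y = (ev K false).mapMatrix (Λ s) (E x) (E y) := fun s x y => rfl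
    have e2 : GG.corr (((ev K false).mapMatrix).comp Λ) x = GG.corr Λ₂ x := by
      refine corr_reindex E Λ₂ _ (fun s i j => ?_) x
      rw [hΛ₂, Equiv.apply_symm_apply, Equiv.apply_symm_apply]
      rfl
    rw [e2, GG.base_corr, corr_kron Λ₂ (((kap (g := g) p).mapMatrix).comp (fib B δ)) ?_ x,
      Fintype.card_fin]
    intro s i a j b
    rw [hΛ₂, h0, Equiv.symm_apply_apply, Equiv.symm_apply_apply]
    rfl
  have e3 : ∑ i, GG.base ((kap (g := g) p).comp (q (E.symm i).1)) x =
      ((m + 1 : ℕ) : ℚ) • ∑ i, GG.base ((kap (g := g) p).comp (q i)) x := by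
    rw [← Equiv.sum_comp E, Fintype.sum_prod_type, Finset.smul_sum]
    refine Finset.sum_congr rfl fun i _ => ?_
    simp only [Equiv.symm_apply_apply]
    rw [Finset.sum_const, Finset.card_univ, Fintype.card_fin, Nat.cast_smul_eq_nsmul]
  rw [e3]
  rw [e1] at b2
  rw [map_sub, map_sum] at b3
  simp only [GG.base_base] at b3
  have b4 := (b2.sub b1).add (b3.smul ((m + 1 : ℕ) : ℚ))
  convert b4 using 1
  rw [smul_sub]
  abel

private theorem eff_closed {K : Type w} [Field K] [IsAlgClosed K] (hm : g.totalDegree ≤ m)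
    (B : Basis (Fin e) (Localization.Away g) R) (z : Fin r → k) (δ : Localization.Away g →+* k)
    (hδ : ∀ p, δ (algebraMap _ _ p) = MvPolynomial.eval z p) (p : R →+* K) {d : ℕ}
    (E : Fin e × Fin (m + 1) ≃ Fin (d + 1)) (q : Fin e → (R →+* k))
    (hq : CharDecomp (fib B δ) q) :
    KilledF p fun i : Fin (d + 1) => (kap (g := g) p).comp (q (E.symm i).1) := by
  classical
  obtain ⟨χ, hχ0, hχ⟩ := eff_key hm B z δ hδ p E q hq
  intro I σ _ _ _ _ a b X ha hb hX
  let Z : Finset (Fin (d + 1)) → Submodule ℚ (GG I σ K) := fun J =>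
    { carrier := {x | IsCubeOn (⋃ j ∈ J, a j) (⋃ j ∈ J, b j) x}
      zero_mem' := IsCubeOn.zero _ _
      add_mem' := fun hx hy => IsCubeOn.add hx hy
      smul_mem' := fun c x hx => IsCubeOn.smul c hx }
  let Bd' : Finset (Fin (d + 1)) → Submodule ℚ (GG I σ K) := fun J =>
    { carrier := {x | BdOn (⋃ j ∈ J, a j) (⋃ j ∈ J, b j) x}
      zero_mem' := BdOn.zero _ _
      add_mem' := fun hx hy => BdOn.add hx hy
      smul_mem' := fun c x hx => BdOn.smul c hx }
  have hZ : ∀ J x, x ∈ Z J ↔ IsCubeOn (⋃ j ∈ J, a j) (⋃ j ∈ J, b j) x := fun _ _ => Iff.rfl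
  have hB : ∀ J x, x ∈ Bd' J ↔ BdOn (⋃ j ∈ J, a j) (⋃ j ∈ J, b j) x := fun _ _ => Iff.rfl
  have key := polar2 (D := d + 1) Z Bd'
    (by
      rw [hZ]
      have h1 : (⋃ j ∈ (∅ : Finset (Fin (d + 1))), a j) = ∅ := by simp
      have h2 : (⋃ j ∈ (∅ : Finset (Fin (d + 1))), b j) = ∅ := by simp
      rw [h1, h2]
      exact IsCubeOn.one)
    (by
      intro J J' h y hy z hz
      rw [hZ, Finset.set_biUnion_union, Finset.set_biUnion_union]
      exact IsCubeOn.mul (ef_disj ha h) (ef_disj hb h) hy hz)
    (by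
      intro J J' h y hy z hz
      rw [hB, Finset.set_biUnion_union, Finset.set_biUnion_union]
      exact BdOn.mul (ef_disj ha h) (ef_disj hb h) hy hz)
    (fun j i => GG.base (χ i) (X j))
    (fun j i => GG.base ((kap (g := g) p).comp (q (E.symm i).1)) (X j))
    (by
      intro j i
      rw [hZ, Finset.set_biUnion_singleton, Finset.set_biUnion_singleton]
      exact (hX j).base _)
    (by
      intro j i
      rw [hZ, Finset.set_biUnion_singleton, Finset.set_biUnion_singleton]
      exact (hX j).base _)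
    (by
      intro J _
      rw [hB]
      have b1 := hχ _ _ _ _ _ (IsCubeOn.prod J (fun i _ j _ h => ha i j h)
        (fun i _ j _ h => hb i j h) fun j _ => hX j)
      simp only [map_prod] at b1
      exact b1)
    0
  rw [hB, hχ0] at key
  have h1 : (⋃ j ∈ (Finset.univ : Finset (Fin (d + 1))), a j) = ⋃ j, a j := by simp
  have h2 : (⋃ j ∈ (Finset.univ : Finset (Fin (d + 1))), b j) = ⋃ j, b j := by simp
  rw [h1, h2] at key
  exact key

end

section

variable {k : Type u} [Field k] [IsAlgClosed k] {r : ℕ} {g : MvPolynomial (Fin r) k} {R : Type v}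
  [CommRing R] [Algebra (Localization.Away g) R] {e m : ℕ}

/-- The inclusion of the constants. -/
def cst (g : MvPolynomial (Fin r) k) (R : Type v) [CommRing R] [Algebra (Localization.Away g) R] :
    k →+* R :=
  (algebraMap (Localization.Away g) R).comp
    ((algebraMap (MvPolynomial (Fin r) k) (Localization.Away g)).comp MvPolynomial.C)

private theorem exists_delta (hg : g ≠ 0) : ∃ (z : Fin r → k) (δ : Localization.Away g →+* k),
    ∀ p, δ (algebraMap _ _ p) = MvPolynomial.eval z p := by
  have hz : ∃ z : Fin r → k, MvPolynomial.eval z g ≠ 0 := by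
    by_contra h
    push Not at h
    exact hg (MvPolynomial.funext fun x => by rw [h x, map_zero])
  obtain ⟨z, hz⟩ := hz
  have hu : IsUnit (MvPolynomial.eval z g) := IsUnit.mk0 _ hz
  exact ⟨z, IsLocalization.Away.lift g hu, fun p => IsLocalization.Away.lift_eq g hu p⟩

private theorem eff_aux (hg : g ≠ 0) (hm : g.totalDegree ≤ m)
    (B : Basis (Fin e) (Localization.Away g) R) :
    ∃ q : Fin e → (R →+* k), (∀ i c, q i (cst g R c) = c) ∧
      ∀ (D : ℕ) (E : Fin e × Fin (m + 1) ≃ Fin D) (K : Type w) [Field K] (p : R →+* K),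
        KilledF p fun i : Fin D => (p.comp (cst g R)).comp (q (E.symm i).1) := by
  obtain ⟨z, δ, hδ⟩ := exists_delta hg
  obtain ⟨q, hq⟩ := exists_charDecomp (fib B δ)
  refine ⟨q, fun i c => ?_, ?_⟩
  · have h1 := hq.scalar _ _ (fib_algebraMap B δ
      (algebraMap (MvPolynomial (Fin r) k) (Localization.Away g) (MvPolynomial.C c))) i
    rw [hδ, MvPolynomial.eval_C] at h1
    exact h1
  · intro D E K _ p I σ _ _ _ _ a b X ha hb hX
    -- `D` is not zero
    have hD : 0 < D := by
      rcases Nat.eq_zero_or_pos D with h | h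
      · exfalso
        subst h
        have hemp : IsEmpty (Fin e × Fin (m + 1)) := E.isEmpty
        have he : IsEmpty (Fin e) := ⟨fun i => hemp.false (i, 0)⟩
        have h1 := B.sum_repr (1 : R)
        rw [Finset.univ_eq_empty, Finset.sum_empty] at h1
        have h2 := congrArg p h1
        rw [map_zero, map_one] at h2
        exact zero_ne_one h2
      · exact h
    obtain ⟨d, rfl⟩ : ∃ d, D = d + 1 := ⟨D - 1, (Nat.succ_pred_eq_of_pos hD).symm⟩
    apply bd_of_algebraic (Ω := AlgebraicClosure K)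
    have h1 := eff_closed hm B z δ hδ ((algebraMap K (AlgebraicClosure K)).comp p) E q hq
      I σ a b X ha hb hX
    rw [map_sum]
    simp only [map_prod, map_sub, GG.base_base]
    exact h1

/-- Effective nilpotence. -/
theorem eff (hg : g ≠ 0) (hm : g.totalDegree ≤ m) (B : Basis (Fin e) (Localization.Away g) R) :
    ∃ q : Fin (e * (m + 1)) → (R →+* k), (∀ i c, q i (cst g R c) = c) ∧
      ∀ (K : Type w) [Field K] (p : R →+* K),
        KilledF p fun i => (p.comp (cst g R)).comp (q i) := by
  obtain ⟨q, hq, h⟩ := eff_aux.{u, v, w} hg hm B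
  exact ⟨fun i => q (finProdFinEquiv.symm i).1, fun i c => hq _ c,
    fun K _ p => h _ finProdFinEquiv K p⟩

end

end Pool.Agent.NCV
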