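import Pool.Agent.NCV.Eff

/-!
# Effective nilpotence if the constants vanish
-/

noncomputable section

namespace Pool.Agent.NCV

open Pool.Agent.GSM Module

universe u v

/-- A sum over permutations of products of differences, in terms of classes. -/
theorem perm_prod_zero {R : Type v} [CommRing R] {K : Type u} [CommRing K] {D : ℕ}
    {n w : Fin D → ℕ} (x : ∀ j, GG (Fin (n j)) (Fin (w j)) R)
    (hx : ∀ j, IsCubeOn Set.univ Set.univ (x j)) (p : R →+* K) (q : Fin D → (R →+* K))
    (h0 : ∀ i j, BdOn Set.univ Set.univ (GG.base (q i) (x j)))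
    (h : BdOn Set.univ Set.univ (∑ π : Equiv.Perm (Fin D), ∏ j,
      (GG.base p (emb (I := fun j => Fin (n j)) (σ := fun j => Fin (w j)) j (x j)) -
        GG.base (q (π j)) (emb (I := fun j => Fin (n j)) (σ := fun j => Fin (w j)) j (x j))))) :
    BdOn Set.univ Set.univ (∏ j, emb (I := fun j => Fin (n j)) (σ := fun j => Fin (w j)) j
      (GG.base p (x j))) := by
  classical
  let Y : ∀ j, Z (Fin (n j)) (Fin (w j)) K := fun j =>
    ⟨GG.base p (x j), isCubeOn_univ.1 ((hx j).base _)⟩
  let X : Equiv.Perm (Fin D) → ∀ j, Z (Fin (n j)) (Fin (w j)) K := fun π j =>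
    ⟨GG.base p (x j) - GG.base (q (π j)) (x j), isCubeOn_univ.1 (((hx j).base _).sub ((hx j).base _))⟩
  have hXY : ∀ π j, H.mk (X π j) = H.mk (Y j) := by
    intro π j
    rw [← sub_eq_zero, ← map_sub, H.mk_eq_zero]
    have e1 : ((X π j - Y j : Z (Fin (n j)) (Fin (w j)) K) : GG (Fin (n j)) (Fin (w j)) K) =
        -GG.base (q (π j)) (x j) := by
      show (GG.base p (x j) - GG.base (q (π j)) (x j)) - GG.base p (x j) = _
      abel
    rw [e1]
    exact (h0 _ _).neg
  have hprod : ∀ π, H.mk (Z.prod (X π)) = H.mk (Z.prod Y) := fun π =>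
    Z.prod_congr (X π) Y (hXY π)
  have h1 : H.mk (∑ π : Equiv.Perm (Fin D), Z.prod (X π)) = 0 := by
    rw [H.mk_eq_zero]
    have e2 : ((∑ π : Equiv.Perm (Fin D), Z.prod (X π) :
        Z (Σ j, Fin (n j)) (Σ j, Fin (w j)) K) : GG (Σ j, Fin (n j)) (Σ j, Fin (w j)) K) =
        ∑ π : Equiv.Perm (Fin D), ∏ j,
          (GG.base p (emb (I := fun j => Fin (n j)) (σ := fun j => Fin (w j)) j (x j)) -
            GG.base (q (π j)) (emb (I := fun j => Fin (n j)) (σ := fun j => Fin (w j)) j
              (x j))) := by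
      rw [AddSubmonoidClass.coe_finsetSum]
      refine Finset.sum_congr rfl fun π _ => ?_
      show ∏ j, emb j (GG.base p (x j) - GG.base (q (π j)) (x j)) = _
      refine Finset.prod_congr rfl fun j _ => ?_
      rw [map_sub, emb_base (I := fun j => Fin (n j)) (σ := fun j => Fin (w j)),
        emb_base (I := fun j => Fin (n j)) (σ := fun j => Fin (w j))]
    rw [e2]
    exact h
  rw [map_sum, Finset.sum_congr rfl fun π _ => hprod π, Finset.sum_const, Finset.card_univ,
    ← Nat.cast_smul_eq_nsmul ℚ] at h1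
  have hne : ((Fintype.card (Equiv.Perm (Fin D)) : ℕ) : ℚ) ≠ 0 :=
    Nat.cast_ne_zero.2 Fintype.card_ne_zero
  have h2 : H.mk (Z.prod Y) = 0 := by
    have h3 := congrArg (fun t => ((Fintype.card (Equiv.Perm (Fin D)) : ℕ) : ℚ)⁻¹ • t) h1
    simp only [smul_zero] at h3
    rwa [smul_smul, inv_mul_cancel₀ hne, one_smul] at h3
  rw [H.mk_eq_zero] at h2
  exact h2

end Pool.Agent.NCV
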