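import Pool.Agent.NCV.UCl
import Pool.Agent.NCV.AllPts
import Pool.Agent.NCV.Eff2
import Pool.Agent.LGF.CNul
import Pool.Agent.LGF.Glue
import Pool.Agent.LGF.IclE

/-!
# Families of points

A class over a product of fields is a boundary if it is one over all ultraproducts.
-/

noncomputable section

namespace Pool.Agent.NCV

open Pool.Agent.GSM Pool.Agent.LGF Filter

universe u v

section

variable {ι : Type} (K : ι → Type) [∀ i, Field (K i)]
variable {I σ : Type} [Finite I] [DecidableEq I] [Finite σ] [DecidableEq σ]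

theorem nul_family [Nonempty σ] {z : GG I σ (∀ i, K i)} (hz : Cub z)
    (h : ∀ U : Ultrafilter ι, Nul (GG.base (toUP K U) z)) : Nul z := by
  have key : ∃ _ : ℕ, Nul (GG.base (res K (Subtype.val : ↥(Set.univ : Set ι) → ι)) z) := by
    refine exists_tail2 (fun _ => (Set.univ : Set ι)) (fun _ _ _ => le_rfl)
      (fun J => Nul (GG.base (res K (Subtype.val : J → ι)) z)) ?_ ?_ ?_ ?_
    · have h1 : Subsingleton (∀ i : (∅ : Set ι), K i) :=
        ⟨fun a b => funext fun i => absurd i.2 (Set.notMem_empty _)⟩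
      rw [gg_eq_zero_of_subsingleton (GG.base (res K (Subtype.val : (∅ : Set ι) → ι)) z)]
      exact BdOn.zero _ _
    · intro J J' hJ h'
      have h1 := h'.base (res (fun i : J' => K i) (Set.inclusion hJ))
      rw [GG.base_base] at h1
      exact h1
    · intro J J' h₁ h₂
      refine nul_glue (isProd_res (fun i : (J ∪ J' : Set ι) => K i) {i | (i : ι) ∈ J}) ?_ ?_
      · have h3 := h₁.base (res (fun i : J => K i)
          (fun s : {i : (J ∪ J' : Set ι) // (i : ι) ∈ J} => (⟨s.1.1, s.2⟩ : J)))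
        rw [GG.base_base] at h3 ⊢
        exact h3
      · have h3 := h₂.base (res (fun i : J' => K i)
          (fun s : {i : (J ∪ J' : Set ι) // ¬ (i : ι) ∈ J} =>
            (⟨s.1.1, s.1.2.resolve_left s.2⟩ : J')))
        rw [GG.base_base] at h3 ⊢
        exact h3
    · intro U _
      exact nul_of_UP K U hz (h U)
  obtain ⟨_, h1⟩ := key
  have h2 := h1.base (res (fun i : ↥(Set.univ : Set ι) => K i)
    (fun i : ι => (⟨i, Set.mem_univ i⟩ : ↥(Set.univ : Set ι))))
  rw [GG.base_base] at h2
  have e : (res (fun i : ↥(Set.univ : Set ι) => K i)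
      (fun i : ι => (⟨i, Set.mem_univ i⟩ : ↥(Set.univ : Set ι)))).comp
      (res K (Subtype.val : ↥(Set.univ : Set ι) → ι)) = RingHom.id _ := rfl
  rw [e, GG.base_id] at h2
  exact h2

end

/-- Classes of weight zero are constant. -/
theorem base_eq_of_isEmpty {I σ : Type} [IsEmpty σ] {R : Type u} {R' : Type v} [CommRing R]
    [CommRing R'] (f g : R →+* R') (x : GG I σ R) : GG.base f x = GG.base g x := by
  have h : (GG.base f : GG I σ R →ₐ[ℚ] GG I σ R').toLinearMap = (GG.base g).toLinearMap := by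
    refine KK.lin_ext fun r A => ?_
    simp only [AlgHom.toLinearMap_apply, GG.base, KK.map_mk]
    congr 1
    apply Tup.ext
    funext s
    exact isEmptyElim s
  exact LinearMap.congr_fun h x

section

variable {k : Type} [Field k] {ι : Type} {K : ι → Type} [∀ i, Field (K i)]
  [∀ i, Algebra k (K i)] {R : Type v} [CommRing R] [Algebra k R]

/-- The `k`-algebra structure of the ultraproduct. -/
def upAlg (k : Type) [Field k] {ι : Type} (K : ι → Type) [∀ i, Field (K i)]
    [∀ i, Algebra k (K i)] (U : Ultrafilter ι) : Algebra k (UP K U) :=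
  ((toUP K U).comp (algebraMap k (∀ i, K i))).toAlgebra

/-- The point with values in the ultraproduct. -/
def upPt (U : Ultrafilter ι) (p : R →ₐ[k] ∀ i, K i) :
    letI := upAlg k K U
    R →ₐ[k] UP K U :=
  letI := upAlg k K U
  { toRingHom := (toUP K U).comp (p : R →+* ∀ i, K i)
    commutes' := fun c => congrArg (toUP K U) (p.commutes c) }

private theorem fam_cub {D : ℕ} {n w : Fin D → ℕ} {A : Type} [CommRing A] {R : Type v} [CommRing R]
    (x : ∀ j, GG (Fin (n j)) (Fin (w j)) R)
    (hx : ∀ j, IsCubeOn Set.univ Set.univ (x j)) (f g : Fin D → (R →+* A)) :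
    Cub (∏ j, (GG.base (f j) (emb (I := fun j => Fin (n j)) (σ := fun j => Fin (w j)) j (x j)) -
      GG.base (g j) (emb (I := fun j => Fin (n j)) (σ := fun j => Fin (w j)) j (x j)))) := by
  have h1 := IsCubeOn.prod (R := A) (a := fun j : Fin D => {t : Σ j, Fin (n j) | t.1 = j})
    (b := fun j : Fin D => {t : Σ j, Fin (w j) | t.1 = j}) Finset.univ
    (fun i _ j _ hij => Set.disjoint_left.2 fun t h1 h2 => hij (Eq.trans (Eq.symm h1) h2))
    (fun i _ j _ hij => Set.disjoint_left.2 fun t h1 h2 => hij (Eq.trans (Eq.symm h1) h2))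
    (fun j _ => ((isCubeOn_emb (I := fun j => Fin (n j)) (σ := fun j => Fin (w j)) j
      (isCubeOn_univ.1 (hx j))).base (f j)).sub ((isCubeOn_emb (I := fun j => Fin (n j))
        (σ := fun j => Fin (w j)) j (isCubeOn_univ.1 (hx j))).base (g j)))
  have e1 : (⋃ j ∈ (Finset.univ : Finset (Fin D)), {t : Σ j, Fin (n j) | t.1 = j}) = Set.univ := by
    ext t
    simp
  have e2 : (⋃ j ∈ (Finset.univ : Finset (Fin D)), {t : Σ j, Fin (w j) | t.1 = j}) = Set.univ := by
    ext t
    simp
  rw [e1, e2] at h1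
  exact h1

private theorem fam_zero {D : ℕ} {n w : Fin D → ℕ} {A : Type} [CommRing A] {R : Type v} [CommRing R]
    (x : ∀ j, GG (Fin (n j)) (Fin (w j)) R) (f g : Fin D → (R →+* A)) {j : Fin D} (hj : w j = 0) :
    ∏ j, (GG.base (f j) (emb (I := fun j => Fin (n j)) (σ := fun j => Fin (w j)) j (x j)) -
      GG.base (g j) (emb (I := fun j => Fin (n j)) (σ := fun j => Fin (w j)) j (x j))) = 0 := by
  have hemp : IsEmpty (Fin (w j)) := by
    rw [hj]
    infer_instance
  refine Finset.prod_eq_zero (Finset.mem_univ j) ?_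
  rw [← emb_base (I := fun j => Fin (n j)) (σ := fun j => Fin (w j)),
    ← emb_base (I := fun j => Fin (n j)) (σ := fun j => Fin (w j)),
    base_eq_of_isEmpty (f j) (g j), sub_self]

/-- Families of pairs of points. -/
theorem linked_family (k : Type) [Field k] [IsAlgClosed k] [CharZero k] (R : Type v) [CommRing R]
    [IsDomain R] [Algebra k R] [Algebra.FiniteType k R] :
    ∃ N : ℕ, ∀ (ι : Type) (K : ι → Type) [∀ i, Field (K i)] [∀ i, Algebra k (K i)]
      (p q : R →ₐ[k] ∀ i, K i) (n w : Fin N → ℕ) (x : ∀ j, GG (Fin (n j)) (Fin (w j)) R),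
      (∀ j, IsCubeOn Set.univ Set.univ (x j)) →
      Nul (∏ j, (GG.base (p : R →+* ∀ i, K i)
          (emb (I := fun j => Fin (n j)) (σ := fun j => Fin (w j)) j (x j)) -
        GG.base (q : R →+* ∀ i, K i)
          (emb (I := fun j => Fin (n j)) (σ := fun j => Fin (w j)) j (x j)))) := by
  obtain ⟨N, hN⟩ := linked_all.{0, v, 0} k R
  refine ⟨N + 1, fun ι K _ _ p q n w x hx => ?_⟩
  by_cases h0 : ∃ j, w j = 0
  · obtain ⟨j, hj⟩ := h0
    rw [fam_zero x (fun _ => (p : R →+* ∀ i, K i)) (fun _ => (q : R →+* ∀ i, K i)) hj]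
    exact BdOn.zero _ _
  · push Not at h0
    have hne : Nonempty (Σ j, Fin (w j)) := ⟨⟨0, ⟨0, Nat.pos_of_ne_zero (h0 0)⟩⟩⟩
    refine nul_family K (fam_cub x hx _ _) fun U => ?_
    letI := upAlg k K U
    have h1 := (hN (UP K U) (upPt U p) (upPt U q)).mono (Nat.le_succ N)
      (Σ j, Fin (n j)) (Σ j, Fin (w j)) (fun j => {t | t.1 = j}) (fun j => {t | t.1 = j})
      (fun j => emb (I := fun j => Fin (n j)) (σ := fun j => Fin (w j)) j (x j))
      (fun i j hij => Set.disjoint_left.2 fun t h1 h2 => hij (Eq.trans (Eq.symm h1) h2))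
      (fun i j hij => Set.disjoint_left.2 fun t h1 h2 => hij (Eq.trans (Eq.symm h1) h2))
      (fun j => isCubeOn_emb j (isCubeOn_univ.1 (hx j)))
    have e1 : (⋃ j, {t : Σ j, Fin (n j) | t.1 = j}) = Set.univ := by
      ext t
      simp
    have e2 : (⋃ j, {t : Σ j, Fin (w j) | t.1 = j}) = Set.univ := by
      ext t
      simp
    rw [e1, e2] at h1
    rw [map_prod]
    simp only [map_sub, GG.base_base]
    exact h1

/-- Families of points, effective version. -/
theorem killed_family {k : Type} [Field k] [IsAlgClosed k] {r e m : ℕ}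
    {g : MvPolynomial (Fin r) k} (hg : g ≠ 0) (hm : g.totalDegree ≤ m) {R : Type v} [CommRing R]
    [Algebra k R] [Algebra (Localization.Away g) R] [IsScalarTower k (Localization.Away g) R]
    (B : Module.Basis (Fin e) (Localization.Away g) R) :
    ∃ q : Fin (e * (m + 1)) → (R →ₐ[k] k), ∀ (ι : Type) (K : ι → Type) [∀ i, Field (K i)]
      [∀ i, Algebra k (K i)] (p : R →ₐ[k] ∀ i, K i) (n w : Fin (e * (m + 1)) → ℕ)
      (x : ∀ j, GG (Fin (n j)) (Fin (w j)) R), (∀ j, IsCubeOn Set.univ Set.univ (x j)) →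
      Nul (∑ π : Equiv.Perm (Fin (e * (m + 1))), ∏ j, (GG.base (p : R →+* ∀ i, K i)
          (emb (I := fun j => Fin (n j)) (σ := fun j => Fin (w j)) j (x j)) -
        GG.base ((algebraMap k (∀ i, K i)).comp (q (π j) : R →+* k))
          (emb (I := fun j => Fin (n j)) (σ := fun j => Fin (w j)) j (x j)))) := by
  obtain ⟨q, hq⟩ := eff_killed.{0, v, 0} hg hm B
  refine ⟨q, fun ι K _ _ p n w x hx => ?_⟩
  by_cases h0 : ∃ j, w j = 0
  · obtain ⟨j, hj⟩ := h0
    rw [Finset.sum_eq_zero fun π _ => fam_zero x (fun _ => (p : R →+* ∀ i, K i))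
      (fun j => (algebraMap k (∀ i, K i)).comp (q (π j) : R →+* k)) hj]
    exact BdOn.zero _ _
  · push Not at h0
    by_cases hι : IsEmpty ι
    · have h1 : Subsingleton (∀ i, K i) := ⟨fun a b => funext fun i => isEmptyElim i⟩
      rw [gg_eq_zero_of_subsingleton (R := ∀ i, K i) (∑ π : Equiv.Perm (Fin (e * (m + 1))), _)]
      exact BdOn.zero _ _
    · rw [not_isEmpty_iff] at hι
      obtain ⟨i₀⟩ := hι
      have hD : 0 < e * (m + 1) := by
        refine Nat.mul_pos (Nat.pos_of_ne_zero ?_) (Nat.succ_pos m)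
        rintro rfl
        have h1 := B.sum_repr (1 : R)
        rw [Finset.univ_eq_empty, Finset.sum_empty] at h1
        have h2 := congrFun (congrArg p h1) i₀
        rw [map_zero, map_one] at h2
        exact zero_ne_one h2
      have hne : Nonempty (Σ j, Fin (w j)) := ⟨⟨⟨0, hD⟩, ⟨0, Nat.pos_of_ne_zero (h0 _)⟩⟩⟩
      refine nul_family K (IsCubeOn.sum _ fun π _ => fam_cub x hx _ _) fun U => ?_
      letI := upAlg k K U
      have h1 := hq (UP K U) (upPt U p) (Σ j, Fin (n j)) (Σ j, Fin (w j))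
        (fun j => {t | t.1 = j}) (fun j => {t | t.1 = j})
        (fun j => emb (I := fun j => Fin (n j)) (σ := fun j => Fin (w j)) j (x j))
        (fun i j hij => Set.disjoint_left.2 fun t h1 h2 => hij (Eq.trans (Eq.symm h1) h2))
        (fun i j hij => Set.disjoint_left.2 fun t h1 h2 => hij (Eq.trans (Eq.symm h1) h2))
        (fun j => isCubeOn_emb j (isCubeOn_univ.1 (hx j)))
      have e1 : (⋃ j, {t : Σ j, Fin (n j) | t.1 = j}) = Set.univ := by
        ext t
        simp
      have e2 : (⋃ j, {t : Σ j, Fin (w j) | t.1 = j}) = Set.univ := by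
        ext t
        simp
      rw [e1, e2] at h1
      rw [map_sum]
      simp only [map_prod, map_sub, GG.base_base]
      exact h1

end

end Pool.Agent.NCV
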