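import Pool.Agent.LGF.CNul

/-!
# Lifting classes and boundaries from an ultraproduct

MODULE NCV-Lift2. PLAN. `toUPJ`: extension by zero followed by `toUP`; it is a ring homomorphism because
`J ∈ U` (compare values almost everywhere, `toUP_eq`). `exists_liftJ`: from `exists_lift` (LGF/Lift.lean):
`Lifts k U φ J ρ` applied to the extension by zero of `ρ r` gives `toUPJ (ρ r) = φ r`.
`exists_liftJ_over`: as `exists_lift_over` in LGF/Lift.lean: take the lift `ρ` over `J₁` of `φ`; on the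
finitely many generators of `R₀` the elements `ρ (g r)` and `a₀ r` have the same image in `UP k U`, so they
agree on a smaller set `J ⊆ J₀ ∩ J₁`, `J ∈ U`. `nul_of_UPJ`: as `nul_of_UP` in LGF/CNul.lean with
`exists_liftJ_over`. `cub_of_UP`: `exists_cube` (GSM/ContG.lean) for the ring `UP k U`: the cube comes from
a cube over a finitely generated subring; `exists_liftJ`; `IsCubeOn.base`.
-/

noncomputable section

namespace Pool.Agent.NCV

open Pool.Agent.GSM Pool.Agent.LGF Filter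

variable {ι : Type} (k : ι → Type) [∀ i, Field (k i)] (U : Ultrafilter ι)

/-- The class in the ultraproduct of a family defined almost everywhere. -/
def toUPJ {J : Set ι} (hJ : J ∈ U) : (∀ i : J, k i) →+* UP k U where
  toFun x := open Classical in toUP k U fun i => if h : i ∈ J then x ⟨i, h⟩ else 0
  map_one' := by
    rw [← map_one (toUP k U), toUP_eq]
    filter_upwards [hJ] with i hi
    rw [dif_pos hi]
    rfl
  map_mul' := by
    intro x y
    rw [← map_mul (toUP k U), toUP_eq]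
    filter_upwards [hJ] with i hi
    rw [dif_pos hi, Pi.mul_apply, Pi.mul_apply, dif_pos hi, dif_pos hi]
  map_zero' := by
    rw [← map_zero (toUP k U), toUP_eq]
    filter_upwards [hJ] with i hi
    rw [dif_pos hi]
    rfl
  map_add' := by
    intro x y
    rw [← map_add (toUP k U), toUP_eq]
    filter_upwards [hJ] with i hi
    rw [dif_pos hi, Pi.add_apply, Pi.add_apply, dif_pos hi, dif_pos hi]

/-- a family is the class of any of its extensions -/
private theorem toUPJ_of_ext {J : Set ι} (hJ : J ∈ U) (x : ∀ i : J, k i) (a : ∀ i, k i)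
    (h : ∀ i : J, a i = x i) : toUPJ k U hJ x = toUP k U a := by
  classical
  show toUP k U (fun i => if h : i ∈ J then x ⟨i, h⟩ else 0) = toUP k U a
  rw [toUP_eq]
  filter_upwards [hJ] with i hi
  rw [dif_pos hi]
  exact (h ⟨i, hi⟩).symm

/-- extension by zero -/
private theorem exists_ext {J : Set ι} (hJ : J ∈ U) (x : ∀ i : J, k i) :
    ∃ a : ∀ i, k i, (∀ i : J, a i = x i) ∧ toUPJ k U hJ x = toUP k U a := by
  classical
  have h1 : ∀ i : J, (fun i : ι => if h : i ∈ J then x ⟨i, h⟩ else (0 : k i)) i = x i := by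
    intro i
    show (if h : (i : ι) ∈ J then x ⟨i, h⟩ else (0 : k i)) = x i
    rw [dif_pos i.2]
  exact ⟨fun i : ι => if h : i ∈ J then x ⟨i, h⟩ else (0 : k i), h1, toUPJ_of_ext k U hJ x _ h1⟩

theorem toUPJ_res {J : Set ι} (hJ : J ∈ U) :
    (toUPJ k U hJ).comp (res k (Subtype.val : J → ι)) = toUP k U := by
  refine RingHom.ext fun x => ?_
  exact toUPJ_of_ext k U hJ _ x fun i => rfl

theorem toUPJ_mono {J J' : Set ι} (hJ : J ∈ U) (hJ' : J' ∈ U) (h : J' ⊆ J) :
    (toUPJ k U hJ').comp (res (fun i : J => k i) (Set.inclusion h)) = toUPJ k U hJ := by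
  refine RingHom.ext fun x => ?_
  obtain ⟨a, ha, hax⟩ := exists_ext k U hJ x
  rw [hax]
  exact toUPJ_of_ext k U hJ' _ a fun i => ha (Set.inclusion h i)

theorem toUPJ_eq_zero {J : Set ι} (hJ : J ∈ U) {x : ∀ i : J, k i} :
    toUPJ k U hJ x = 0 ↔ ∃ J' ∈ U, ∀ i : J, (i : ι) ∈ J' → x i = 0 := by
  obtain ⟨a, ha, hax⟩ := exists_ext k U hJ x
  rw [hax, toUP_eq_zero]
  constructor
  · intro h
    refine ⟨{i | a i = 0}, h, fun i hi => ?_⟩
    rw [← ha i]
    exact hi
  · rintro ⟨J', hJ', h⟩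
    filter_upwards [hJ, hJ'] with i hi hi'
    exact (ha ⟨i, hi⟩).trans (h ⟨i, hi⟩ hi')

theorem exists_liftJ {R : Type} [CommRing R] [Algebra.FiniteType ℤ R] (φ : R →+* UP k U) :
    ∃ (J : Set ι) (hJ : J ∈ U) (ρ : R →+* ∀ i : J, k i), (toUPJ k U hJ).comp ρ = φ := by
  obtain ⟨J, hJ, ρ, hρ⟩ := exists_lift k U φ
  refine ⟨J, hJ, ρ, RingHom.ext fun r => ?_⟩
  obtain ⟨a, ha, hax⟩ := exists_ext k U hJ (ρ r)
  rw [RingHom.comp_apply, hax]
  exact hρ r a ha

theorem exists_liftJ_over {R₀ R : Type} [CommRing R₀] [Algebra.FiniteType ℤ R₀] [CommRing R]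
    [Algebra.FiniteType ℤ R] (g : R₀ →+* R) (φ : R →+* UP k U) {J₀ : Set ι} (hJ₀ : J₀ ∈ U)
    (a₀ : R₀ →+* ∀ i : J₀, k i) (h : (toUPJ k U hJ₀).comp a₀ = φ.comp g) :
    ∃ (J : Set ι) (_ : J ∈ U) (hs : J ⊆ J₀) (ρ : R →+* ∀ i : J, k i),
      ρ.comp g = (res (fun i : J₀ => k i) (Set.inclusion hs)).comp a₀ := by
  classical
  obtain ⟨J₁, hJ₁, ρ, hρ⟩ := exists_liftJ k U φ
  obtain ⟨n, π, hπ⟩ := (Algebra.FiniteType.iff_quotient_mvPolynomial'' (R := ℤ) (S := R₀)).1 inferInstance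
  have hb : ∀ l : Fin n, ∃ b : ∀ i, k i, (∀ i : J₁, b i = ρ (g (π (MvPolynomial.X l))) i) ∧
      toUPJ k U hJ₁ (ρ (g (π (MvPolynomial.X l)))) = toUP k U b := fun l => exists_ext k U hJ₁ _
  have hc : ∀ l : Fin n, ∃ c : ∀ i, k i, (∀ i : J₀, c i = a₀ (π (MvPolynomial.X l)) i) ∧
      toUPJ k U hJ₀ (a₀ (π (MvPolynomial.X l))) = toUP k U c := fun l => exists_ext k U hJ₀ _
  choose b hb hb' using hb
  choose c hc hc' using hc
  have h1 : ∀ᶠ i in (U : Filter ι), ∀ l, b l i = c l i := by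
    rw [Filter.eventually_all]
    intro l
    rw [← toUP_eq, ← hb' l, ← hc' l]
    have e1 := RingHom.congr_fun hρ (g (π (MvPolynomial.X l)))
    have e2 := RingHom.congr_fun h (π (MvPolynomial.X l))
    exact e1.trans e2.symm
  obtain ⟨J, hJdef⟩ : ∃ J : Set ι, J = J₀ ∩ (J₁ ∩ {i | ∀ l, b l i = c l i}) := ⟨_, rfl⟩
  have hJU : J ∈ U := by
    rw [hJdef]
    exact Filter.inter_mem hJ₀ (Filter.inter_mem hJ₁ h1)
  have hs : J ⊆ J₀ := by
    rw [hJdef]
    exact Set.inter_subset_left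
  have hs₁ : J ⊆ J₁ := by
    rw [hJdef]
    exact fun i hi => hi.2.1
  have hs₂ : ∀ i : J, ∀ l, b l i = c l i := by
    intro i
    have hi : (i : ι) ∈ J₀ ∩ (J₁ ∩ {i | ∀ l, b l i = c l i}) := by
      rw [← hJdef]
      exact i.2
    exact hi.2.2
  refine ⟨J, hJU, hs, (res (fun i : J₁ => k i) (Set.inclusion hs₁)).comp ρ, ?_⟩
  have h2 : ((((res (fun i : J₁ => k i) (Set.inclusion hs₁)).comp ρ).comp g).comp
      (π : MvPolynomial (Fin n) ℤ →+* R₀)) =
      (((res (fun i : J₀ => k i) (Set.inclusion hs)).comp a₀).comp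
        (π : MvPolynomial (Fin n) ℤ →+* R₀)) := by
    apply MvPolynomial.ringHom_ext
    · intro z
      rw [eq_intCast (MvPolynomial.C : ℤ →+* MvPolynomial (Fin n) ℤ) z, map_intCast, map_intCast]
    · intro l
      funext i
      show ρ (g (π (MvPolynomial.X l))) (Set.inclusion hs₁ i) =
        a₀ (π (MvPolynomial.X l)) (Set.inclusion hs i)
      rw [← hb l (Set.inclusion hs₁ i), ← hc l (Set.inclusion hs i)]
      exact hs₂ i l
  have hπ' : Function.Surjective (π : MvPolynomial (Fin n) ℤ →+* R₀) := hπ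
  exact (RingHom.cancel_right hπ').1 h2

private theorem fg_cl {A : Type} [CommRing A] {F : Set A} (hF : F.Finite) :
    Algebra.FiniteType ℤ (Subring.closure F) := by
  have h1 : (subalgebraOfSubring (Subring.closure F)).FG := by
    rw [← Algebra.adjoin_int, Subalgebra.fg_def]
    exact ⟨F, hF, rfl⟩
  have h2 := (Subalgebra.fg_iff_finiteType _).mp h1
  exact h2

section

variable {I σ : Type} [Finite I] [DecidableEq I] [Finite σ] [DecidableEq σ]

theorem nul_of_UPJ {J₀ : Set ι} (hJ₀ : J₀ ∈ U) {x : GG I σ (∀ i : J₀, k i)} (hx : Cub x)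
    (h : Nul (GG.base (toUPJ k U hJ₀) x)) :
    ∃ (J : Set ι) (_ : J ∈ U) (hs : J ⊆ J₀),
      Nul (GG.base (res (fun i : J₀ => k i) (Set.inclusion hs)) x) := by
  classical
  obtain ⟨F, hF, h1⟩ := exists_cube.{0, 0} hx
  obtain ⟨x₀, -, hxx⟩ := h1 (Subring.closure F).subtype Subtype.val_injective
    (fun c hc => ⟨⟨c, Subring.subset_closure hc⟩, rfl⟩)
  obtain ⟨F', hF', h2⟩ := bd_descend.{0, 0, 0}
    ((toUPJ k U hJ₀).comp (Subring.closure F).subtype) x₀
    (by
      rw [← GG.base_base, hxx]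
      exact h)
  have hmem : ∀ c : Subring.closure F, ((toUPJ k U hJ₀).comp (Subring.closure F).subtype) c ∈
      Subring.closure (F' ∪ (toUPJ k U hJ₀) '' F) := by
    intro c
    have h3 : Subring.closure F ≤
        (Subring.closure (F' ∪ (toUPJ k U hJ₀) '' F)).comap (toUPJ k U hJ₀) := by
      rw [Subring.closure_le]
      intro d hd
      exact Subring.subset_closure (Or.inr ⟨d, hd, rfl⟩)
    exact h3 c.2
  have hf0 : Algebra.FiniteType ℤ (Subring.closure F) := fg_cl hF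
  have hf1 : Algebra.FiniteType ℤ (Subring.closure (F' ∪ (toUPJ k U hJ₀) '' F)) :=
    fg_cl (hF'.union (hF.image _))
  have h4 := h2 (((toUPJ k U hJ₀).comp (Subring.closure F).subtype).codRestrict
    (Subring.closure (F' ∪ (toUPJ k U hJ₀) '' F)) hmem)
    (Subring.closure (F' ∪ (toUPJ k U hJ₀) '' F)).subtype
    rfl Subtype.val_injective (fun c hc => ⟨⟨c, Subring.subset_closure (Or.inl hc)⟩, rfl⟩)
  obtain ⟨J, hJ, hs, ρ, hρ⟩ := exists_liftJ_over k U
    (((toUPJ k U hJ₀).comp (Subring.closure F).subtype).codRestrict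
    (Subring.closure (F' ∪ (toUPJ k U hJ₀) '' F)) hmem)
    (Subring.closure (F' ∪ (toUPJ k U hJ₀) '' F)).subtype hJ₀
    (Subring.closure F).subtype rfl
  refine ⟨J, hJ, hs, ?_⟩
  have h5 := h4.base ρ
  rw [GG.base_base, hρ, ← GG.base_base, hxx] at h5
  exact h5

theorem cub_of_UP {y : GG I σ (UP k U)} (hy : Cub y) :
    ∃ (J : Set ι) (hJ : J ∈ U) (y' : GG I σ (∀ i : J, k i)), Cub y' ∧
      GG.base (toUPJ k U hJ) y' = y := by
  classical
  obtain ⟨F, hF, h1⟩ := exists_cube.{0, 0} hy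
  obtain ⟨y₀, hy₀, hyy⟩ := h1 (Subring.closure F).subtype Subtype.val_injective
    (fun c hc => ⟨⟨c, Subring.subset_closure hc⟩, rfl⟩)
  have hf0 : Algebra.FiniteType ℤ (Subring.closure F) := fg_cl hF
  obtain ⟨J, hJ, ρ, hρ⟩ := exists_liftJ k U (Subring.closure F).subtype
  refine ⟨J, hJ, GG.base ρ y₀, hy₀.base ρ, ?_⟩
  rw [GG.base_base, hρ]
  exact hyy

end

section

variable {K : ι → Type} [∀ i, Field (K i)] (f : ∀ i, k i →+* K i)

/-- Functoriality of the ultraproduct. -/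
def upMap : UP k U →+* UP K U :=
  Ideal.Quotient.lift (uIdeal k U) ((toUP K U).comp (pmap k f)) (by
    intro x hx
    have h1 : ∀ᶠ i in (U : Filter ι), x i = 0 := hx
    show toUP K U (pmap k f x) = 0
    rw [toUP_eq_zero]
    filter_upwards [h1] with i hi
    rw [pmap_apply, hi, map_zero])

theorem upMap_toUP : (upMap k U f).comp (toUP k U) = (toUP K U).comp (pmap k f) := by
  refine RingHom.ext fun x => ?_
  rfl

theorem upMap_toUPJ {J : Set ι} (hJ : J ∈ U) :
    (upMap k U f).comp (toUPJ k U hJ) =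
      (toUPJ K U hJ).comp (pmap (fun i : J => k i) fun i => f i) := by
  refine RingHom.ext fun x => ?_
  obtain ⟨a, ha, hax⟩ := exists_ext k U hJ x
  rw [RingHom.comp_apply, RingHom.comp_apply, hax]
  have h1 : upMap k U f (toUP k U a) = toUP K U (pmap k f a) := RingHom.congr_fun (upMap_toUP k U f) a
  rw [h1]
  refine (toUPJ_of_ext K U hJ _ (pmap k f a) fun i => ?_).symm
  rw [pmap_apply, ha i]
  rfl

end

end Pool.Agent.NCV
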