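import Pool.Agent.GSM.Bd

/-!
# Moving a point of a basic open set of affine space to a fixed point

Let `g` be a polynomial of degree at most `m` over `k`, `φ` a `K`-point of `D(g)` and `z` a `k`-point.
On the line through `z` and `φ`, with `z` at `0` and `φ` at `1`, consider the family of divisors
`u ^ (m + 1) = g(X u) / g(1)`, `X ∈ 𝔸¹`, and the points `X u`: at `X = 1` it contains the point `φ`, at
`X = 0` it is `m + 1` times the point `z`, and it never meets the zeros of `g`.
-/

noncomputable section

namespace Pool.Agent.NCV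

open Pool.Agent.GSM Polynomial Module

universe u v w

/-- The values of a basis under a homomorphism are a row eigenvector of the regular representation. -/
theorem row_eigen {S : Type u} {T : Type v} {K : Type w} [CommRing S] [CommRing T] [Algebra S T]
    [CommRing K] {ι : Type} [Fintype ι] [DecidableEq ι] (b : Basis ι S T) (ε : T →+* K)
    (a : T) :
    Matrix.vecMul (fun i => ε (b i)) ((ε.comp (algebraMap S T)).mapMatrix
      (Algebra.leftMulMatrix b a)) = ε a • fun i => ε (b i) := by
  funext j
  have h1 : ∀ i, ((ε.comp (algebraMap S T)).mapMatrix (Algebra.leftMulMatrix b a)) i j =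
      ε (algebraMap S T (b.repr (a * b j) i)) := by
    intro i
    rw [← Algebra.leftMulMatrix_eq_repr_mul]
    rfl
  rw [Pi.smul_apply, smul_eq_mul, ← map_mul]
  have h2 : Matrix.vecMul (fun i => ε (b i)) ((ε.comp (algebraMap S T)).mapMatrix
      (Algebra.leftMulMatrix b a)) j =
      ∑ i, ε (b i) * ((ε.comp (algebraMap S T)).mapMatrix (Algebra.leftMulMatrix b a)) i j := rfl
  rw [h2, Finset.sum_congr rfl fun i _ => by rw [h1 i, ← map_mul], ← map_sum]
  congr 1
  rw [← b.sum_repr (a * b j)]
  refine Finset.sum_congr rfl fun i _ => ?_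
  rw [b.sum_repr, Algebra.smul_def, mul_comm]

section

variable {k : Type u} [Field k] {K : Type v} [Field K] {r m : ℕ}

/-- The line through `z` and `c`. -/
private def lineHom (κ : k →+* K) (z : Fin r → k) (c : Fin r → K) :
    MvPolynomial (Fin r) k →+* K[X] :=
  MvPolynomial.eval₂Hom ((C : K →+* K[X]).comp κ) fun l => C (κ (z l)) + C (c l - κ (z l)) * X

private theorem lineHom_deg (κ : k →+* K) (z : Fin r → k) (c : Fin r → K)
    (g : MvPolynomial (Fin r) k) (hm : g.totalDegree ≤ m) :
    (lineHom κ z c g).natDegree ≤ m := by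
  have h1 : lineHom κ z c g = MvPolynomial.aeval
      (fun l => C (κ (z l)) + C (c l - κ (z l)) * X : Fin r → K[X]) (MvPolynomial.map κ g) := by
    rw [lineHom, MvPolynomial.aeval_def, MvPolynomial.eval₂_map]
    rfl
  rw [h1]
  refine (MvPolynomial.aeval_natDegree_le (n := 1) _
    ((Finset.sup_mono (MvPolynomial.support_map_subset κ g)).trans hm) _ fun l => ?_).trans (by rw [mul_one])
  refine (natDegree_add_le _ _).trans ?_
  rw [natDegree_C, max_le_iff]
  exact ⟨Nat.zero_le _, (natDegree_C_mul_le _ _).trans natDegree_X_le⟩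

private theorem lineHom_eval_zero (κ : k →+* K) (z : Fin r → k) (c : Fin r → K)
    (g : MvPolynomial (Fin r) k) : (lineHom κ z c g).eval 0 = κ (MvPolynomial.eval z g) := by
  have h : (evalRingHom (0 : K)).comp (lineHom κ z c) = κ.comp (MvPolynomial.eval z) := by
    refine MvPolynomial.ringHom_ext (fun a => ?_) fun l => ?_
    · simp [lineHom]
    · simp [lineHom]
  exact RingHom.congr_fun h g

/-- The defining polynomial of the family. -/
private def famPoly (m : ℕ) (G : K[X]) : K[X][X] :=
  X ^ (m + 1) - C (C (G.eval 1)⁻¹) * (G.map C).comp (C X * X)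

private theorem famPoly_aux {G : K[X]} (hG : G.natDegree ≤ m) :
    (C (C (G.eval 1)⁻¹) * (G.map C).comp (C X * X) : K[X][X]).natDegree ≤ m := by
  refine (natDegree_C_mul_le _ _).trans (natDegree_comp_le.trans ?_)
  have h1 : (C X * X : K[X][X]).natDegree ≤ 1 := (natDegree_C_mul_le _ _).trans natDegree_X_le
  calc (G.map C).natDegree * (C X * X : K[X][X]).natDegree ≤ m * 1 :=
        Nat.mul_le_mul ((natDegree_map_le).trans hG) h1
    _ = m := mul_one m

private theorem famPoly_monic {G : K[X]} (hG : G.natDegree ≤ m) : (famPoly m G).Monic := by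
  unfold famPoly
  refine monic_X_pow_sub (lt_of_le_of_lt (degree_le_of_natDegree_le (famPoly_aux hG)) ?_)
  exact_mod_cast Nat.lt_succ_self m

private theorem famPoly_natDegree {G : K[X]} (hG : G.natDegree ≤ m) :
    (famPoly m G).natDegree = m + 1 := by
  unfold famPoly
  rw [natDegree_sub_eq_left_of_natDegree_lt, natDegree_X_pow]
  rw [natDegree_X_pow]
  exact Nat.lt_succ_of_le (famPoly_aux hG)

end

section

variable {K : Type v} [Field K] {m : ℕ} (G : K[X])

/-- The ring of the family. -/
private abbrev TT (m : ℕ) (G : K[X]) : Type v := AdjoinRoot (famPoly m G)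

/-- The parameter of the point. -/
private def vv : TT m G := AdjoinRoot.of (famPoly m G) X * AdjoinRoot.root (famPoly m G)

/-- Evaluation at the point. -/
private def nu : K[X] →+* TT m G :=
  eval₂RingHom ((AdjoinRoot.of (famPoly m G)).comp C) (vv G)

private theorem eval_comp {B : Type w} [CommRing B] (f : K[X] →+* B) (x : B) :
    ((G.map C).comp (C X * X) : K[X][X]).eval₂ f x = G.eval₂ (f.comp C) (f X * x) := by
  rw [eval₂_comp, eval₂_mul, eval₂_C, eval₂_X, eval₂_map]

private theorem eval_fam {B : Type w} [CommRing B] (f : K[X] →+* B) (x : B) :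
    (famPoly m G).eval₂ f x = x ^ (m + 1) - f (C (G.eval 1)⁻¹) * G.eval₂ (f.comp C) (f X * x) := by
  unfold famPoly
  rw [eval₂_sub, eval₂_mul, eval₂_C, eval₂_X_pow, eval_comp]

private theorem root_pow : AdjoinRoot.root (famPoly m G) ^ (m + 1) =
    AdjoinRoot.of (famPoly m G) (C (G.eval 1)⁻¹) * nu (m := m) G G := by
  have h := AdjoinRoot.eval₂_root (famPoly m G)
  rw [eval_fam] at h
  exact sub_eq_zero.1 h

private theorem isUnit_nu (h0 : G.eval 0 ≠ 0) : IsUnit (nu (m := m) G G) := by
  have hG : G = C (G.eval 0) + divX G * X := by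
    have := divX_mul_X_add G
    rw [coeff_zero_eq_eval_zero] at this
    rw [add_comm]
    exact this.symm
  have e1 : nu (m := m) G G = AdjoinRoot.of (famPoly m G) (C (G.eval 0)) +
      nu (m := m) G (divX G) * vv G := by
    have e2 : nu (m := m) G X = vv G := by
      unfold nu
      rw [coe_eval₂RingHom, eval₂_X]
    have e3 : ∀ c, nu (m := m) G (C c) = AdjoinRoot.of (famPoly m G) (C c) := by
      intro c
      unfold nu
      rw [coe_eval₂RingHom, eval₂_C]
      rfl
    calc nu (m := m) G G = nu (m := m) G (C (G.eval 0) + divX G * X) := congrArg _ hG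
      _ = _ := by rw [map_add, map_mul, e2, e3]
  have hu : IsUnit (AdjoinRoot.of (famPoly m G) (C (G.eval 0))) :=
    ((isUnit_C.2 (IsUnit.mk0 _ h0)).map _)
  have hdiv : nu (m := m) G G ∣ vv G ^ (m + 1) := by
    refine ⟨AdjoinRoot.of (famPoly m G) X ^ (m + 1) *
      AdjoinRoot.of (famPoly m G) (C (G.eval 1)⁻¹), ?_⟩
    unfold vv
    rw [mul_pow, root_pow]
    ring
  have h3 := sub_dvd_pow_sub_pow (AdjoinRoot.of (famPoly m G) (C (G.eval 0)))
    (-(nu (m := m) G (divX G) * vv G)) (m + 1)
  rw [sub_neg_eq_add, ← e1] at h3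
  have h4 : nu (m := m) G G ∣ (-(nu (m := m) G (divX G) * vv G)) ^ (m + 1) := by
    rw [neg_eq_neg_one_mul, mul_pow, mul_pow]
    exact Dvd.dvd.mul_left (Dvd.dvd.mul_left hdiv _) _
  have h5 := (dvd_sub_left h4).1 h3
  exact isUnit_of_dvd_unit h5 (hu.pow _)

/-- The point at parameter `1`. -/
private def eps (h1 : G.eval 1 ≠ 0) : TT m G →+* K :=
  AdjoinRoot.lift (evalRingHom 1) 1 (by
    rw [eval_fam]
    have e1 : (evalRingHom (1 : K)).comp C = RingHom.id K := by
      ext a
      simp
    rw [e1, coe_evalRingHom, eval_X, one_mul, eval_C, one_pow]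
    have e2 : G.eval₂ (RingHom.id K) 1 = G.eval 1 := rfl
    rw [e2, inv_mul_cancel₀ h1, sub_self])

private theorem eps_of (h1 : G.eval 1 ≠ 0) (p : K[X]) :
    eps (m := m) G h1 (AdjoinRoot.of (famPoly m G) p) = p.eval 1 := by
  unfold eps
  rw [AdjoinRoot.lift_of]
  rfl

private theorem eps_root (h1 : G.eval 1 ≠ 0) :
    eps (m := m) G h1 (AdjoinRoot.root (famPoly m G)) = 1 := by
  unfold eps
  rw [AdjoinRoot.lift_root]

private theorem eps_vv (h1 : G.eval 1 ≠ 0) : eps (m := m) G h1 (vv G) = 1 := by
  unfold vv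
  rw [map_mul, eps_of, eps_root, eval_X, one_mul]

private theorem eps_nu (h1 : G.eval 1 ≠ 0) (p : K[X]) :
    eps (m := m) G h1 (nu G p) = p.eval 1 := by
  have h : (eps (m := m) G h1).comp (nu G) = evalRingHom 1 := by
    refine Polynomial.ringHom_ext (fun a => ?_) ?_
    · unfold nu
      rw [RingHom.comp_apply, coe_eval₂RingHom, eval₂_C, RingHom.comp_apply, eps_of]
      simp
    · unfold nu
      rw [RingHom.comp_apply, coe_eval₂RingHom, eval₂_X, eps_vv]
      simp
  exact RingHom.congr_fun h p

end

section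

variable {k : Type u} [Field k] {K : Type v} [Field K] {r m : ℕ}

theorem exists_line (g : MvPolynomial (Fin r) k) (hm : g.totalDegree ≤ m)
    (φ : Localization.Away g →+* K) (z : Fin r → k) (δ : Localization.Away g →+* k)
    (hδ : ∀ p, δ (algebraMap _ _ p) = MvPolynomial.eval z p) :
    ∃ (M : Localization.Away g →+* Matrix (Fin (m + 1)) (Fin (m + 1)) K[X]) (l : Fin (m + 1) → K),
      l ≠ 0 ∧ (∀ a, Matrix.vecMul l ((ev K true).mapMatrix (M a)) = φ a • l) ∧
      ∀ a, (ev K false).mapMatrix (M a) = Matrix.scalar _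
        (φ (algebraMap (MvPolynomial (Fin r) k) _ (MvPolynomial.C (δ a)))) := by
  classical
  obtain ⟨κ, hκ⟩ : ∃ κ : k →+* K, κ = φ.comp ((algebraMap (MvPolynomial (Fin r) k)
    (Localization.Away g)).comp MvPolynomial.C) := ⟨_, rfl⟩
  obtain ⟨c, hc⟩ : ∃ c : Fin r → K, c = fun l => φ (algebraMap
    (MvPolynomial (Fin r) k) _ (MvPolynomial.X l)) := ⟨_, rfl⟩
  obtain ⟨G, hG⟩ : ∃ G : K[X], G = lineHom κ z c g := ⟨_, rfl⟩
  have hgu : IsUnit (algebraMap (MvPolynomial (Fin r) k) (Localization.Away g) g) :=
    IsLocalization.Away.algebraMap_isUnit g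
  have hφl : (evalRingHom (1 : K)).comp (lineHom κ z c) =
      φ.comp (algebraMap (MvPolynomial (Fin r) k) (Localization.Away g)) := by
    refine MvPolynomial.ringHom_ext (fun a => ?_) fun l => ?_
    · simp [lineHom, hκ]
    · simp [lineHom, hc]
  have h1 : G.eval 1 ≠ 0 := by
    have e1 : G.eval 1 = φ (algebraMap _ _ g) := by
      rw [hG]
      exact RingHom.congr_fun hφl g
    rw [e1]
    exact (hgu.map φ).ne_zero
  have h0 : G.eval 0 ≠ 0 := by
    rw [hG, lineHom_eval_zero, ← hδ]
    exact ((hgu.map δ).map κ).ne_zero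
  have hdeg : G.natDegree ≤ m := by
    rw [hG]
    exact lineHom_deg κ z c g hm
  have hunit : IsUnit (((nu (m := m) G).comp (lineHom κ z c)) g) := by
    rw [RingHom.comp_apply, ← hG]
    exact isUnit_nu G h0
  obtain ⟨μ, hμ⟩ : ∃ μ : Localization.Away g →+* TT m G,
      ∀ p, μ (algebraMap _ _ p) = nu G (lineHom κ z c p) :=
    ⟨IsLocalization.Away.lift g hunit, fun p => IsLocalization.Away.lift_eq g hunit p⟩
  have hεμ : (eps (m := m) G h1).comp μ = φ := by
    refine IsLocalization.ringHom_ext (Submonoid.powers g) ?_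
    rw [← hφl]
    refine RingHom.ext fun p => ?_
    rw [RingHom.comp_apply, RingHom.comp_apply, hμ, eps_nu]
    rfl
  let b : Basis (Fin (m + 1)) K[X] (TT m G) :=
    (AdjoinRoot.powerBasis' (famPoly_monic hdeg)).basis.reindex
      (finCongr (famPoly_natDegree hdeg))
  have hb0 : b 0 = 1 := by
    have e1 : b 0 = (AdjoinRoot.powerBasis' (famPoly_monic hdeg)).basis
      ((finCongr (famPoly_natDegree hdeg)).symm 0) := Basis.reindex_apply _ _ _
    rw [e1, PowerBasis.basis_eq_pow]
    exact pow_zero _
  have halg : (eps (m := m) G h1).comp (algebraMap K[X] (TT m G)) = ev K true := by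
    refine RingHom.ext fun p => ?_
    have := eps_of (m := m) G h1 p
    rw [← AdjoinRoot.algebraMap_eq] at this
    rw [RingHom.comp_apply, this]
    simp [ev]
  refine ⟨(Algebra.leftMulMatrix b).toRingHom.comp μ, fun i => eps (m := m) G h1 (b i), ?_, ?_, ?_⟩
  · intro h
    have h2 := congrFun h 0
    rw [hb0, map_one] at h2
    exact one_ne_zero h2
  · intro a
    have h2 := row_eigen b (eps (m := m) G h1) (μ a)
    rw [halg] at h2
    have h3 : eps (m := m) G h1 (μ a) = φ a := RingHom.congr_fun hεμ a
    rw [h3] at h2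
    exact h2
  · -- the two homomorphisms agree on polynomials
    have hpoly : (((ev K false).mapMatrix).comp ((Algebra.leftMulMatrix b).toRingHom.comp μ)).comp
        (algebraMap (MvPolynomial (Fin r) k) (Localization.Away g)) =
        ((Matrix.scalar (Fin (m + 1))).comp (κ.comp δ)).comp
          (algebraMap (MvPolynomial (Fin r) k) (Localization.Away g)) := by
      have key : ∀ (c₀ : K) (t : TT m G),
          (ev K false).mapMatrix (Algebra.leftMulMatrix b
            (algebraMap K[X] (TT m G) (C c₀) + algebraMap K[X] (TT m G) X * t)) =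
          Matrix.scalar (Fin (m + 1)) c₀ := by
        intro c₀ t
        rw [map_add, map_mul, AlgHom.commutes, AlgHom.commutes, map_add, map_mul,
          Matrix.algebraMap_eq_diagonal, Matrix.algebraMap_eq_diagonal]
        ext i j
        simp [ev, Matrix.diagonal_apply]
      refine MvPolynomial.ringHom_ext (fun a => ?_) fun l => ?_
      · have e1 : nu (m := m) G (lineHom κ z c (MvPolynomial.C a)) =
            algebraMap K[X] (TT m G) (C (κ a)) + algebraMap K[X] (TT m G) X * 0 := by
          rw [mul_zero, add_zero]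
          simp [lineHom, nu, AdjoinRoot.algebraMap_eq]
        simp only [RingHom.comp_apply]
        rw [hμ, e1, hδ, MvPolynomial.eval_C]
        exact key (κ a) 0
      · have e1 : nu (m := m) G (lineHom κ z c (MvPolynomial.X l)) =
            algebraMap K[X] (TT m G) (C (κ (z l))) + algebraMap K[X] (TT m G) X *
              (algebraMap K[X] (TT m G) (C (c l - κ (z l))) *
                AdjoinRoot.root (famPoly m G)) := by
          simp [lineHom, nu, vv, AdjoinRoot.algebraMap_eq]
          ring
        simp only [RingHom.comp_apply]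
        rw [hμ, e1, hδ, MvPolynomial.eval_X]
        exact key (κ (z l)) _
    have hall := IsLocalization.ringHom_ext (Submonoid.powers g) hpoly
    intro a
    have h2 := RingHom.congr_fun hall a
    rw [hκ] at h2
    exact h2

end

end Pool.Agent.NCV
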