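import Pool.Agent.GSM.Link
import Pool.Agent.GSM.InjH
import Pool.Agent.GSM.Desc

/-!
# Linked points, for finite sets of variables and positions

`LinkedF p q D`: every product of `D` differences `p_* x - q_* x` of cubes in disjoint sets of
coordinates is a boundary, where the sets of variables and of positions are finite. This is the relation
`Linked` of GSM/Link.lean restricted to finite index sets, with the same formal properties, and a
`Linked` statement over an extension of an algebraically closed field descends to it.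
-/

noncomputable section

namespace Pool.Agent.NCV

open Pool.Agent.GSM

universe u v w

/-- `D` differences `p_* x - q_* x` multiply to a boundary. -/
def LinkedF {R : Type u} {K : Type v} [CommRing R] [CommRing K] (p q : R →+* K) (D : ℕ) : Prop :=
  ∀ (I σ : Type) [Finite I] [Finite σ] [DecidableEq I] [DecidableEq σ] (a : Fin D → Set I)
    (b : Fin D → Set σ) (X : Fin D → GG I σ R), (∀ i j, i ≠ j → Disjoint (a i) (a j)) →
    (∀ i j, i ≠ j → Disjoint (b i) (b j)) → (∀ j, IsCubeOn (a j) (b j) (X j)) →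
    BdOn (⋃ j, a j) (⋃ j, b j) (∏ j, (GG.base p (X j) - GG.base q (X j)))

private theorem ncvlinkf_union {ι I : Type} [DecidableEq ι] (a : ι → Set I) {s t : Finset ι}
    (h : t ⊆ s) : (⋃ j ∈ t, a j) ∪ (⋃ j ∈ s \ t, a j) = ⋃ j ∈ s, a j := by
  ext x
  simp only [Set.mem_union, Set.mem_iUnion, Finset.mem_sdiff, exists_prop]
  constructor
  · rintro (⟨j, hj, hx⟩ | ⟨j, hj, hx⟩)
    · exact ⟨j, h hj, hx⟩
    · exact ⟨j, hj.1, hx⟩
  · rintro ⟨j, hj, hx⟩
    by_cases hjt : j ∈ t
    · exact Or.inl ⟨j, hjt, hx⟩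
    · exact Or.inr ⟨j, ⟨hj, hjt⟩, hx⟩

private theorem ncvlinkf_disj {ι I : Type} [DecidableEq ι] (a : ι → Set I) {s t : Finset ι}
    (h : t ⊆ s) (ha : ∀ i ∈ s, ∀ j ∈ s, i ≠ j → Disjoint (a i) (a j)) :
    Disjoint (⋃ j ∈ t, a j) (⋃ j ∈ s \ t, a j) := by
  rw [Set.disjoint_left]
  intro x hx hx'
  simp only [Set.mem_iUnion, Finset.mem_sdiff, exists_prop] at hx hx'
  obtain ⟨i, hi, hxi⟩ := hx
  obtain ⟨j, ⟨hj, hjt⟩, hxj⟩ := hx'
  have hij : i ≠ j := fun e => hjt (e ▸ hi)
  exact Set.disjoint_left.1 (ha i (h hi) j hj hij) hxi hxj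

private theorem ncvlinkf_diff {R : Type u} {K : Type v} [CommRing R] [CommRing K] (p q : R →+* K)
    {I σ : Type} [DecidableEq I] [DecidableEq σ] {a : Set I} {b : Set σ} {X : GG I σ R}
    (hX : IsCubeOn a b X) : IsCubeOn a b (GG.base p X - GG.base q X) :=
  (hX.base p).sub (hX.base q)

section

variable {R : Type u} {K : Type v} [CommRing R] [CommRing K] {p q r : R →+* K} {D D' : ℕ}

theorem LinkedF.finset (h : LinkedF p q D) {I σ : Type} [Finite I] [Finite σ] [DecidableEq I]
    [DecidableEq σ] {ι : Type} [DecidableEq ι] (s : Finset ι) (hs : D ≤ s.card) (a : ι → Set I)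
    (b : ι → Set σ) (X : ι → GG I σ R) (ha : ∀ i ∈ s, ∀ j ∈ s, i ≠ j → Disjoint (a i) (a j))
    (hb : ∀ i ∈ s, ∀ j ∈ s, i ≠ j → Disjoint (b i) (b j))
    (hX : ∀ j ∈ s, IsCubeOn (a j) (b j) (X j)) :
    BdOn (⋃ j ∈ s, a j) (⋃ j ∈ s, b j) (∏ j ∈ s, (GG.base p (X j) - GG.base q (X j))) := by
  obtain ⟨t, hts, htc⟩ := Finset.exists_subset_card_eq hs
  let e : Fin D ≃ t := (t.equivFinOfCardEq htc).symm
  have hne : ∀ i j : Fin D, i ≠ j → (e i : ι) ≠ e j := fun i j hij h' =>
    hij (e.injective (Subtype.ext h'))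
  have h1 := h I σ (fun j => a (e j)) (fun j => b (e j)) (fun j => X (e j))
    (fun i j hij => ha _ (hts (e i).2) _ (hts (e j).2) (hne i j hij))
    (fun i j hij => hb _ (hts (e i).2) _ (hts (e j).2) (hne i j hij))
    (fun j => hX _ (hts (e j).2))
  have hU : ∀ {J : Type} (c : ι → Set J), (⋃ j : Fin D, c (e j)) = ⋃ j ∈ t, c j := by
    intro J c
    ext x
    simp only [Set.mem_iUnion, exists_prop]
    constructor
    · rintro ⟨j, hj⟩
      exact ⟨e j, (e j).2, hj⟩
    · rintro ⟨j, hj, hx⟩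
      refine ⟨e.symm ⟨j, hj⟩, ?_⟩
      rw [Equiv.apply_symm_apply]
      exact hx
  have hP : ∏ j : Fin D, (GG.base p (X (e j)) - GG.base q (X (e j))) =
      ∏ j ∈ t, (GG.base p (X j) - GG.base q (X j)) := by
    rw [Equiv.prod_comp e (fun j : t => GG.base p (X (j : ι)) - GG.base q (X (j : ι)))]
    exact Finset.prod_coe_sort t fun j => GG.base p (X j) - GG.base q (X j)
  rw [hU a, hU b, hP] at h1
  have hd : ∀ j ∈ s \ t, j ∈ s := fun j hj => (Finset.mem_sdiff.1 hj).1
  have h2 : IsCubeOn (⋃ j ∈ s \ t, a j) (⋃ j ∈ s \ t, b j)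
      (∏ j ∈ s \ t, (GG.base p (X j) - GG.base q (X j))) :=
    IsCubeOn.prod (s \ t) (fun i hi j hj hij => ha i (hd i hi) j (hd j hj) hij)
      (fun i hi j hj hij => hb i (hd i hi) j (hd j hj) hij)
      fun j hj => ncvlinkf_diff p q (hX j (hd j hj))
  have h3 := h1.mul (ncvlinkf_disj a hts ha) (ncvlinkf_disj b hts hb) h2
  rw [ncvlinkf_union a hts, ncvlinkf_union b hts, mul_comm, Finset.prod_sdiff hts] at h3
  exact h3

theorem LinkedF.mono (h : LinkedF p q D) (hD : D ≤ D') : LinkedF p q D' := by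
  intro I σ _ _ _ _ a b X ha hb hX
  have h1 := h.finset Finset.univ (by rw [Finset.card_univ, Fintype.card_fin]; exact hD) a b X
    (fun i _ j _ hij => ha i j hij) (fun i _ j _ hij => hb i j hij) fun j _ => hX j
  simpa using h1

theorem LinkedF.symm (h : LinkedF p q D) : LinkedF q p D := by
  intro I σ _ _ _ _ a b X ha hb hX
  have h1 := (h I σ a b X ha hb hX).smul ((-1) ^ D)
  have h2 : ∏ j, (GG.base q (X j) - GG.base p (X j)) =
      ((-1 : ℚ) ^ D) • ∏ j, (GG.base p (X j) - GG.base q (X j)) := by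
    rw [Algebra.smul_def, map_pow, map_neg, map_one]
    have h3 : (-1 : GG I σ K) ^ D = ∏ _j : Fin D, (-1 : GG I σ K) := by
      rw [Finset.prod_const, Finset.card_univ, Fintype.card_fin]
    rw [h3, ← Finset.prod_mul_distrib]
    refine Finset.prod_congr rfl fun j _ => ?_
    ring
  rw [h2]
  exact h1

theorem LinkedF.trans (h : LinkedF p q D) (h' : LinkedF q r D') : LinkedF p r (D + D') := by
  intro I σ _ _ _ _ a b X ha hb hX
  have h1 : ∏ j, (GG.base p (X j) - GG.base r (X j)) =
      ∏ j, ((GG.base p (X j) - GG.base q (X j)) + (GG.base q (X j) - GG.base r (X j))) :=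
    Finset.prod_congr rfl fun j _ => by ring
  rw [h1, Finset.prod_add]
  refine BdOn.sum _ fun t _ => ?_
  have hU : ∀ {J : Type} (c : Fin (D + D') → Set J),
      (⋃ j ∈ t, c j) ∪ (⋃ j ∈ Finset.univ \ t, c j) = ⋃ j, c j := by
    intro J c
    rw [ncvlinkf_union c (Finset.subset_univ t)]
    simp
  have hcard : t.card + (Finset.univ \ t).card = D + D' := by
    have h2 := Finset.card_sdiff_add_card_eq_card (Finset.subset_univ t)
    rw [Finset.card_univ, Fintype.card_fin] at h2
    omega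
  have da := ncvlinkf_disj a (Finset.subset_univ t) fun i _ j _ hij => ha i j hij
  have db := ncvlinkf_disj b (Finset.subset_univ t) fun i _ j _ hij => hb i j hij
  rcases Nat.lt_or_ge t.card D with hlt | hge
  · have h2 := h'.finset (Finset.univ \ t) (by omega) a b X
      (fun i _ j _ hij => ha i j hij) (fun i _ j _ hij => hb i j hij) fun j _ => hX j
    have h3 : IsCubeOn (⋃ j ∈ t, a j) (⋃ j ∈ t, b j)
        (∏ j ∈ t, (GG.base p (X j) - GG.base q (X j))) :=
      IsCubeOn.prod t (fun i _ j _ hij => ha i j hij) (fun i _ j _ hij => hb i j hij)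
        fun j _ => ncvlinkf_diff p q (hX j)
    have h4 := h2.mul da.symm db.symm h3
    rw [Set.union_comm, hU a, Set.union_comm, hU b, mul_comm] at h4
    exact h4
  · have h2 := h.finset t hge a b X
      (fun i _ j _ hij => ha i j hij) (fun i _ j _ hij => hb i j hij) fun j _ => hX j
    have h3 : IsCubeOn (⋃ j ∈ Finset.univ \ t, a j) (⋃ j ∈ Finset.univ \ t, b j)
        (∏ j ∈ Finset.univ \ t, (GG.base q (X j) - GG.base r (X j))) :=
      IsCubeOn.prod _ (fun i _ j _ hij => ha i j hij) (fun i _ j _ hij => hb i j hij)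
        fun j _ => ncvlinkf_diff q r (hX j)
    have h4 := h2.mul da db h3
    rw [hU a, hU b] at h4
    exact h4

theorem LinkedF.post {K' : Type w} [CommRing K'] (f : K →+* K') (h : LinkedF p q D) :
    LinkedF (f.comp p) (f.comp q) D := by
  intro I σ _ _ _ _ a b X ha hb hX
  have h1 := (h I σ a b X ha hb hX).base f
  rw [map_prod] at h1
  simpa only [map_sub, GG.base_base] using h1

end

theorem LinkedF.of_linked {R : Type u} [CommRing R] {K : Type v} [Field K] [IsAlgClosed K]
    {Ω : Type w} [Field Ω] [Algebra K Ω] {p q : R →+* K} {D : ℕ}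
    (h : Linked ((algebraMap K Ω).comp p) ((algebraMap K Ω).comp q) D) : LinkedF p q D := by
  intro I σ _ _ _ _ a b X ha hb hX
  have h1 := h I σ a b X ha hb hX
  have h2 : ∏ j, (GG.base ((algebraMap K Ω).comp p) (X j) - GG.base ((algebraMap K Ω).comp q) (X j)) =
      GG.base (algebraMap K Ω) (∏ j, (GG.base p (X j) - GG.base q (X j))) := by
    rw [map_prod]
    refine Finset.prod_congr rfl fun j _ => ?_
    rw [map_sub, GG.base_base, GG.base_base]
  rw [h2] at h1
  exact bd_of_isAlgClosed _ h1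

end Pool.Agent.NCV
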