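import Pool.Agent.LGF.Ult

/-!
# Ultraproducts of algebraically closed fields; compactness

MODULE NCV-UCl. PLAN. `isAlgClosed_UP`: `IsAlgClosed.of_exists_root`: lift the coefficients of a monic
irreducible (any monic, of degree `n ≥ 1`) polynomial `p` to elements `c j : ∏ k i` (`toUP_surjective`);
for every `i` the polynomial `X ^ n + ∑ j < n, c j i X ^ j` over `k i` has a root `a i` (`IsAlgClosed.exists_root`,
degree `n ≠ 0`); `toUP a` is a root of `p`: `p = X ^ n + ∑ j < n, toUP (c j) X ^ j`, evaluate, and the ring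
homomorphism `toUP` maps the family of zeros to zero.
`exists_tail2`: copy LGF/Cpt.lean with `{i | N < q i}` replaced by an antitone sequence of sets `S N`.
`charZero_UP2`: copy `charZero_UP` in LGF/Ult.lean (if the characteristic is `0`, `ringChar.spec` gives
`0 ∣ n`, that is `n = 0`).
-/

noncomputable section

namespace Pool.Agent.NCV

open Pool.Agent.GSM Pool.Agent.LGF Filter

private theorem ucl_root {F : Type} [Field F] [IsAlgClosed F] (n : ℕ) (hn : n ≠ 0) (c : ℕ → F) :
    ∃ a : F, a ^ n + ∑ j ∈ Finset.range n, c j * a ^ j = 0 := by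
  have hdeg : (∑ j ∈ Finset.range n, Polynomial.C (c j) * Polynomial.X ^ j : Polynomial F).degree <
      (n : WithBot ℕ) := by
    rw [Finset.sum_range fun j => Polynomial.C (c j) * Polynomial.X ^ j]
    exact Polynomial.degree_sum_fin_lt fun j : Fin n => c j
  have hmon : (Polynomial.X ^ n +
      ∑ j ∈ Finset.range n, Polynomial.C (c j) * Polynomial.X ^ j : Polynomial F).Monic :=
    Polynomial.monic_X_pow_add hdeg
  have hd : (Polynomial.X ^ n +
      ∑ j ∈ Finset.range n, Polynomial.C (c j) * Polynomial.X ^ j : Polynomial F).degree ≠ 0 := by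
    rw [Polynomial.degree_add_eq_left_of_degree_lt (by rwa [Polynomial.degree_X_pow]),
      Polynomial.degree_X_pow]
    exact_mod_cast hn
  obtain ⟨a, ha⟩ := IsAlgClosed.exists_root _ hd
  refine ⟨a, ?_⟩
  rw [Polynomial.IsRoot.def, Polynomial.eval_add, Polynomial.eval_pow, Polynomial.eval_X,
    Polynomial.eval_finsetSum] at ha
  rw [← ha]
  congr 1
  refine Finset.sum_congr rfl fun j _ => ?_
  rw [Polynomial.eval_mul, Polynomial.eval_C, Polynomial.eval_pow, Polynomial.eval_X]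

theorem isAlgClosed_UP {ι : Type} (k : ι → Type) [∀ i, Field (k i)] (U : Ultrafilter ι)
    (h : ∀ i, IsAlgClosed (k i)) : IsAlgClosed (UP k U) := by
  refine IsAlgClosed.of_exists_root _ fun p hp hirr => ?_
  have hn : p.natDegree ≠ 0 := hirr.natDegree_pos.ne'
  choose c hc using fun j => toUP_surjective k U (p.coeff j)
  choose a ha using fun i => ucl_root (F := k i) p.natDegree hn (fun j => c j i)
  refine ⟨toUP k U a, ?_⟩
  rw [Polynomial.eval_eq_sum_range, Finset.sum_range_succ, hp.coeff_natDegree, one_mul]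
  have h1 : (a ^ p.natDegree + ∑ j ∈ Finset.range p.natDegree, c j * a ^ j : ∀ i, k i) = 0 := by
    funext i
    rw [Pi.add_apply, Pi.pow_apply, Finset.sum_apply, Pi.zero_apply, ← ha i]
    rfl
  have h2 := congrArg (toUP k U) h1
  rw [map_add, map_pow, map_sum, map_zero] at h2
  rw [add_comm, ← h2]
  congr 1
  refine Finset.sum_congr rfl fun j _ => ?_
  rw [map_mul, map_pow, hc]

theorem charZero_UP2 {ι : Type} (k : ι → Type) [∀ i, Field (k i)] (U : Ultrafilter ι)
    (h : ∀ N : ℕ, ∀ᶠ i in (U : Filter ι), ringChar (k i) = 0 ∨ N < ringChar (k i)) :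
    CharZero (UP k U) := by
  refine charZero_of_inj_zero fun n hn => ?_
  by_contra hn0
  have h1 : toUP k U (n : ∀ i, k i) = 0 := by rw [map_natCast, hn]
  rw [toUP_eq_zero] at h1
  have h2 : ∀ᶠ _ in (U : Filter ι), False := by
    filter_upwards [h1, h n] with i h3 h4
    have h5 : ((n : ℕ) : k i) = 0 := h3
    have h6 := (ringChar.spec (k i) n).1 h5
    rcases h4 with h4 | h4
    · rw [h4, zero_dvd_iff] at h6
      exact hn0 h6
    · have h7 := Nat.le_of_dvd (Nat.pos_of_ne_zero hn0) h6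
      omega
  rw [Filter.eventually_false_iff_eq_bot] at h2
  exact U.neBot.ne h2

private def ucl_F {ι : Type} (S : ℕ → Set ι) (hS : Antitone S) (P : Set ι → Prop) (h0 : P ∅)
    (hunion : ∀ J J', P J → P J' → P (J ∪ J')) : Filter ι where
  sets := {A | ∃ (N : ℕ) (J : Set ι), P J ∧ S N \ J ⊆ A}
  univ_sets := ⟨0, ∅, h0, Set.subset_univ _⟩
  sets_of_superset := by
    rintro A A' ⟨N, J, hJ, hA⟩ hAA
    exact ⟨N, J, hJ, hA.trans hAA⟩
  inter_sets := by
    rintro A A' ⟨N, J, hJ, hA⟩ ⟨N', J', hJ', hA'⟩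
    refine ⟨max N N', J ∪ J', hunion J J' hJ hJ', ?_⟩
    rintro i ⟨h1, h2⟩
    exact ⟨hA ⟨hS (le_max_left _ _) h1, fun h => h2 (Or.inl h)⟩,
      hA' ⟨hS (le_max_right _ _) h1, fun h => h2 (Or.inr h)⟩⟩

theorem exists_tail2 {ι : Type} (S : ℕ → Set ι) (hS : Antitone S) (P : Set ι → Prop) (h0 : P ∅)
    (hmono : ∀ J J', J ⊆ J' → P J' → P J) (hunion : ∀ J J', P J → P J' → P (J ∪ J'))
    (hU : ∀ U : Ultrafilter ι, (∀ N : ℕ, S N ∈ U) → ∃ J ∈ U, P J) :
    ∃ N : ℕ, P (S N) := by
  by_contra hno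
  have hne : (ucl_F S hS P h0 hunion).NeBot := by
    rw [← Filter.forall_mem_nonempty_iff_neBot]
    intro A hAm
    rw [Set.nonempty_iff_ne_empty]
    rintro rfl
    obtain ⟨N, J, hJ, hA⟩ := hAm
    apply hno
    refine ⟨N, hmono _ J ?_ hJ⟩
    intro i hi
    by_contra hiJ
    exact hA ⟨hi, hiJ⟩
  have hle := Ultrafilter.of_le (ucl_F S hS P h0 hunion)
  obtain ⟨J, hJU, hJ⟩ := hU (Ultrafilter.of (ucl_F S hS P h0 hunion)) (fun N =>
    hle ⟨N, ∅, h0, fun i hi => hi.1⟩)
  have h1 : Jᶜ ∈ Ultrafilter.of (ucl_F S hS P h0 hunion) := hle ⟨0, J, hJ, fun i hi => hi.2⟩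
  exact Ultrafilter.compl_notMem_iff.2 hJU h1

end Pool.Agent.NCV
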