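import Pool.Agent.NCV.Pow
import Pool.Agent.NCV.Lift2
import Pool.Agent.NCV.UCl
import Pool.Agent.LGF.Glue
import Pool.Agent.LGF.IclE
import Pool.Agent.GSM.Main2

/-!
# Uniform nilpotence

Families of classes over fields `K i` with algebraically closed subfields `k i`: up to finitely many
characteristics, the family is constant up to a nilpotent family. Proof: the theorem `main_nilpotent` for
ultraproducts, and compactness.
-/

noncomputable section

namespace Pool.Agent.NCV

open Pool.Agent.GSM Pool.Agent.LGF Filter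

/-- The indices of characteristic zero or larger than `M`. -/
def Large {ι : Type} (K : ι → Type) [∀ i, Field (K i)] (M : ℕ) : Set ι :=
  {i | ringChar (K i) = 0 ∨ M < ringChar (K i)}

theorem large_antitone {ι : Type} (K : ι → Type) [∀ i, Field (K i)] : Antitone (Large K) := by
  intro M M' h i hi
  rcases hi with hi | hi
  · exact Or.inl hi
  · exact Or.inr (lt_of_le_of_lt h hi)

section

variable {ι : Type} (k K : ι → Type) [∀ i, Field (k i)] [∀ i, Field (K i)]
variable {I σ : Type} [DecidableEq I] [DecidableEq σ]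

private theorem nul_empty (x : GG I σ (∀ i : (∅ : Set ι), K i)) : Nul x := by
  have h1 : Subsingleton (∀ i : (∅ : Set ι), K i) :=
    ⟨fun a b => funext fun i => absurd i.2 (Set.notMem_empty _)⟩
  rw [gg_eq_zero_of_subsingleton x]
  exact BdOn.zero _ _

private theorem pw_un [Nonempty σ] {J J' : Set ι} {z : GG I σ (∀ i : (J ∪ J' : Set ι), K i)}
    (h₁ : Nul (GG.base (res (fun i : (J ∪ J' : Set ι) => K i)
      (fun s : {i : (J ∪ J' : Set ι) // (i : ι) ∈ J} => s.1)) z))
    (h₂ : Nul (GG.base (res (fun i : (J ∪ J' : Set ι) => K i)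
      (fun s : {i : (J ∪ J' : Set ι) // ¬ (i : ι) ∈ J} => s.1)) z)) : Nul z :=
  nul_glue (isProd_res (fun i : (J ∪ J' : Set ι) => K i) {i | (i : ι) ∈ J}) h₁ h₂

end

section

variable {ι : Type} (k K : ι → Type) [∀ i, Field (k i)] [∀ i, Field (K i)]
  (f : ∀ i, k i →+* K i) {n w : ℕ}

/-- The difference of `x` and a constant family over `J`. -/
private def dif (x : GG (Fin n) (Fin w) (∀ i, K i)) (J : Set ι)
    (y : GG (Fin n) (Fin w) (∀ i : J, k i)) : GG (Fin n) (Fin w) (∀ i : J, K i) :=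
  GG.base (res K (Subtype.val : J → ι)) x - GG.base (pmap (fun i : J => k i) fun i => f i) y

variable {k K f}

private theorem cub_dif {x : GG (Fin n) (Fin w) (∀ i, K i)} (hx : Cub x) {J : Set ι}
    {y : GG (Fin n) (Fin w) (∀ i : J, k i)} (hy : Cub y) : Cub (dif k K f x J y) :=
  (hx.base _).sub (hy.base _)

private theorem dif_mono (x : GG (Fin n) (Fin w) (∀ i, K i)) {J J' : Set ι} (h : J ⊆ J')
    (y : GG (Fin n) (Fin w) (∀ i : J', k i)) :
    GG.base (res (fun i : J' => K i) (Set.inclusion h)) (dif k K f x J' y) =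
      dif k K f x J (GG.base (res (fun i : J' => k i) (Set.inclusion h)) y) := by
  unfold dif
  rw [map_sub, GG.base_base, GG.base_base, GG.base_base]
  rfl

/-- The property which is shown for large sets. -/
private def Pr (x : GG (Fin n) (Fin w) (∀ i, K i)) (J : Set ι) : Prop :=
  ∃ (N : ℕ) (y : GG (Fin n) (Fin w) (∀ i : J, k i)), Cub y ∧ Nul (pw (N + 1) (dif k K f x J y))

private theorem pr_mono {x : GG (Fin n) (Fin w) (∀ i, K i)} {J J' : Set ι} (h : J ⊆ J')
    (h' : Pr (k := k) (f := f) x J') : Pr (k := k) (f := f) x J := by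
  obtain ⟨N, y, hy, h1⟩ := h'
  refine ⟨N, _, hy.base (res (fun i : J' => k i) (Set.inclusion h)), ?_⟩
  have h2 := h1.base (res (fun i : J' => K i) (Set.inclusion h))
  rw [pw_base, dif_mono] at h2
  exact h2

private theorem pr_union (hw : 0 < w) {x : GG (Fin n) (Fin w) (∀ i, K i)} (hx : Cub x)
    {J J' : Set ι} (h : Pr (k := k) (f := f) x J) (h' : Pr (k := k) (f := f) x J') :
    Pr (k := k) (f := f) x (J ∪ J') := by
  have : Nonempty (Fin w) := ⟨⟨0, hw⟩⟩
  obtain ⟨N, y, hy, h1⟩ := h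
  obtain ⟨N', y', hy', h1'⟩ := h'
  let φ : {i : (J ∪ J' : Set ι) // (i : ι) ∈ J} → J := fun s => ⟨s.1.1, s.2⟩
  let φ' : {i : (J ∪ J' : Set ι) // ¬ (i : ι) ∈ J} → J' := fun s =>
    ⟨s.1.1, s.1.2.resolve_left s.2⟩
  obtain ⟨Y, hY, e1, e2⟩ := cub_glue
    (isProd_res (fun i : (J ∪ J' : Set ι) => k i) {i | (i : ι) ∈ J})
    (hy.base (res (fun i : J => k i) φ)) (hy'.base (res (fun i : J' => k i) φ'))
  have hne : Nonempty (Σ _ : Fin (max N N' + 1), Fin w) := ⟨⟨0, ⟨0, hw⟩⟩⟩
  refine ⟨max N N', Y, hY, pw_un K ?_ ?_⟩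
  · rw [pw_base]
    have h2 : GG.base (res (fun i : (J ∪ J' : Set ι) => K i)
        (fun s : {i : (J ∪ J' : Set ι) // (i : ι) ∈ J} => s.1)) (dif k K f x (J ∪ J') Y) =
        GG.base (res (fun i : J => K i) φ) (dif k K f x J y) := by
      unfold dif
      rw [map_sub, map_sub, GG.base_base, GG.base_base, GG.base_base, GG.base_base]
      have e3 := congrArg (GG.base (pmap (fun s : {i : (J ∪ J' : Set ι) // (i : ι) ∈ J} => k s.1)
        fun s => f s.1)) e1
      rw [GG.base_base, GG.base_base] at e3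
      exact congrArg (_ - ·) e3
    rw [h2, ← pw_base]
    exact (pw_mono (Nat.succ_le_succ (le_max_left N N')) (cub_dif hx hy) h1).base _
  · rw [pw_base]
    have h2 : GG.base (res (fun i : (J ∪ J' : Set ι) => K i)
        (fun s : {i : (J ∪ J' : Set ι) // ¬ (i : ι) ∈ J} => s.1)) (dif k K f x (J ∪ J') Y) =
        GG.base (res (fun i : J' => K i) φ') (dif k K f x J' y') := by
      unfold dif
      rw [map_sub, map_sub, GG.base_base, GG.base_base, GG.base_base, GG.base_base]
      have e3 := congrArg (GG.base (pmap (fun s : {i : (J ∪ J' : Set ι) // ¬ (i : ι) ∈ J} => k s.1)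
        fun s => f s.1)) e2
      rw [GG.base_base, GG.base_base] at e3
      exact congrArg (_ - ·) e3
    rw [h2, ← pw_base]
    exact (pw_mono (Nat.succ_le_succ (le_max_right N N')) (cub_dif hx hy') h1').base _

private theorem pr_ultra (hk : ∀ i, IsAlgClosed (k i)) {x : GG (Fin n) (Fin w) (∀ i, K i)}
    (hx : Cub x) (U : Ultrafilter ι) (hU : ∀ M : ℕ, Large K M ∈ U) :
    ∃ J ∈ U, Pr (k := k) (f := f) x J := by
  haveI := charZero_UP2 K U hU
  haveI : CharZero (UP k U) := (upMap k U f).charZero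
  haveI := isAlgClosed_UP k U hk
  letI : Algebra (UP k U) (UP K U) := (upMap k U f).toAlgebra
  obtain ⟨y₀, N, h0⟩ := main_nilpotent (k := UP k U) (K := UP K U) n w
    ⟨GG.base (toUP K U) x, isCubeOn_univ.1 (hx.base _)⟩
  rw [H.mk_eq_zero] at h0
  have h1 : Nul (pw N (GG.base (toUP K U) x - GG.base (upMap k U f) (y₀ : GG (Fin n) (Fin w) (UP k U)))) :=
    h0
  obtain ⟨J₁, hJ₁, y₁, hy₁, e1⟩ := cub_of_UP k U (isCubeOn_univ.2 y₀.2)
  have e2 : GG.base (toUPJ K U hJ₁) (dif k K f x J₁ y₁) =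
      GG.base (toUP K U) x - GG.base (upMap k U f) (y₀ : GG (Fin n) (Fin w) (UP k U)) := by
    unfold dif
    rw [map_sub, GG.base_base, GG.base_base, toUPJ_res, ← upMap_toUPJ, ← GG.base_base, e1]
  have hc := cub_dif (f := f) hx hy₁
  have h2 : Nul (GG.base (toUPJ K U hJ₁) (pw (N + 1) (dif k K f x J₁ y₁))) := by
    rw [pw_base]
    refine pw_mono (Nat.le_succ N) (hc.base _) ?_
    rw [e2]
    exact h1
  obtain ⟨J, hJ, hs, h3⟩ := nul_of_UPJ K U hJ₁ (cub_pw (N + 1) hc) h2
  refine ⟨J, hJ, N, _, hy₁.base (res (fun i : J₁ => k i) (Set.inclusion hs)), ?_⟩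
  rw [pw_base, dif_mono] at h3
  exact h3

/-- Uniform nilpotence up to constant classes. -/
theorem unif (k K : ι → Type) [∀ i, Field (k i)] [∀ i, Field (K i)]
    (f : ∀ i, k i →+* K i) (hk : ∀ i, IsAlgClosed (k i)) (hw : 0 < w)
    {x : GG (Fin n) (Fin w) (∀ i, K i)} (hx : Cub x) :
    ∃ (M N : ℕ) (y : GG (Fin n) (Fin w) (∀ i : Large K M, k i)), Cub y ∧
      Nul (pw N (GG.base (res K (Subtype.val : Large K M → ι)) x -
        GG.base (pmap (fun i : Large K M => k i) fun i => f i) y)) := by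
  obtain ⟨M, N, y, hy, h⟩ := exists_tail2 (Large K) (large_antitone K)
    (fun J => Pr (k := k) (f := f) x J)
    ⟨0, 0, IsCubeOn.zero _ _, nul_empty K _⟩ (fun J J' h h' => pr_mono h h')
    (fun J J' h h' => pr_union hw hx h h') (fun U hU => pr_ultra hk hx U hU)
  exact ⟨M, N + 1, y, hy, h⟩

end

section

variable {ι : Type} (K : ι → Type) [∀ i, Field (K i)] {n w : ℕ}

private theorem q_ultra (hQ : ∀ z : GG (Fin n) (Fin w) (AlgebraicClosure ℚ), Cub z → Nul z)
    {x : GG (Fin n) (Fin w) (∀ i, K i)}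
    (hx : Cub x) (U : Ultrafilter ι) (hU : ∀ M : ℕ, Large K M ∈ U) :
    ∃ J ∈ U, ∃ N : ℕ, Nul (pw (N + 1) (GG.base (res K (Subtype.val : J → ι)) x)) := by
  haveI := charZero_UP2 K U hU
  haveI : CharZero (AlgebraicClosure (UP K U)) :=
    charZero_of_injective_algebraMap (algebraMap (UP K U) (AlgebraicClosure (UP K U))).injective
  haveI hA : Algebra.IsAlgebraic ℚ (AlgebraicClosure ℚ) := by
    have h := AlgebraicClosure.isAlgebraic ℚ
    convert h
    · rfl
    · exact Subsingleton.elim _ _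
  letI : Algebra (AlgebraicClosure ℚ) (AlgebraicClosure (UP K U)) :=
    (IsAlgClosed.lift (R := ℚ) (S := AlgebraicClosure ℚ)
      (M := AlgebraicClosure (UP K U))).toRingHom.toAlgebra
  obtain ⟨y₀, N, h0⟩ := main_nilpotent (k := AlgebraicClosure ℚ) (K := AlgebraicClosure (UP K U)) n w
    ⟨GG.base (algebraMap (UP K U) (AlgebraicClosure (UP K U))) (GG.base (toUP K U) x),
      isCubeOn_univ.1 ((hx.base _).base _)⟩
  rw [H.mk_eq_zero] at h0
  have hc := (hx.base (toUP K U)).base (algebraMap (UP K U) (AlgebraicClosure (UP K U)))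
  have hy := (isCubeOn_univ.2 y₀.2).base (algebraMap (AlgebraicClosure ℚ) (AlgebraicClosure (UP K U)))
  have hy0 := (hQ _ (isCubeOn_univ.2 y₀.2)).base
    (algebraMap (AlgebraicClosure ℚ) (AlgebraicClosure (UP K U)))
  have h1 : Nul (pw N (GG.base (algebraMap (UP K U) (AlgebraicClosure (UP K U)))
      (GG.base (toUP K U) x))) := by
    refine pw_congr N (hc.sub hy) hc ?_ h0
    rw [sub_sub_cancel_left]
    exact hy0.neg
  rw [← pw_base] at h1
  have h2 : Nul (pw (N + 1) (GG.base (toUP K U) x)) :=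
    pw_mono (Nat.le_succ N) (hx.base _) (bd_of_algebraic _ h1)
  rw [← pw_base] at h2
  obtain ⟨J, hJ, h3⟩ := nul_of_UP K U (cub_pw (N + 1) hx) h2
  rw [pw_base] at h3
  exact ⟨J, hJ, N, h3⟩

/-- Uniform nilpotence if the classes over the algebraic numbers vanish. -/
theorem unif_zero (hw : 0 < w)
    (hQ : ∀ z : GG (Fin n) (Fin w) (AlgebraicClosure ℚ), Cub z → Nul z)
    {x : GG (Fin n) (Fin w) (∀ i, K i)} (hx : Cub x) :
    ∃ M N : ℕ, Nul (pw N (GG.base (res K (Subtype.val : Large K M → ι)) x)) := by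
  obtain ⟨M, N, h⟩ := exists_tail2 (Large K) (large_antitone K)
    (fun J => ∃ N : ℕ, Nul (pw (N + 1) (GG.base (res K (Subtype.val : J → ι)) x)))
    ⟨0, nul_empty K _⟩
    (by
      rintro J J' h ⟨N, h'⟩
      refine ⟨N, ?_⟩
      have h2 := h'.base (res (fun i : J' => K i) (Set.inclusion h))
      rw [pw_base, GG.base_base] at h2
      exact h2)
    (by
      rintro J J' ⟨N, h⟩ ⟨N', h'⟩
      have hne : Nonempty (Σ _ : Fin (max N N' + 1), Fin w) := ⟨⟨0, ⟨0, hw⟩⟩⟩
      refine ⟨max N N', pw_un K ?_ ?_⟩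
      · rw [pw_base, GG.base_base]
        have h2 := (pw_mono (Nat.succ_le_succ (le_max_left N N')) (hx.base _) h).base
          (res (fun i : J => K i) (fun s : {i : (J ∪ J' : Set ι) // (i : ι) ∈ J} =>
            (⟨s.1.1, s.2⟩ : J)))
        rw [pw_base, GG.base_base] at h2
        exact h2
      · rw [pw_base, GG.base_base]
        have h2 := (pw_mono (Nat.succ_le_succ (le_max_right N N')) (hx.base _) h').base
          (res (fun i : J' => K i) (fun s : {i : (J ∪ J' : Set ι) // ¬ (i : ι) ∈ J} =>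
            (⟨s.1.1, s.1.2.resolve_left s.2⟩ : J')))
        rw [pw_base, GG.base_base] at h2
        exact h2)
    (fun U hU => q_ultra K hQ hx U hU)
  exact ⟨M, N + 1, h⟩

end

end Pool.Agent.NCV
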