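import Pool.Agent.NCV.Defs
import Pool.Agent.NCV.CH
import Pool.Agent.NCV.Unif
import Pool.Agent.GSM.MainP

/-!
# The theorems in terms of the plain definitions
-/

noncomputable section

namespace Pool.Agent.NCV.Plain

open Pool.Agent.GSM Pool.Agent.GSM.Plain Pool.Agent.LGF

universe u v

private theorem cub_iff {n w : ℕ} {R : Type u} [CommRing R] {x : F (Fin w) (MvPolynomial (Fin n) R)} :
    Plain.IsCube x ↔ Cub (toKK x : GG (Fin n) (Fin w) R) :=
  Plain.isCube_iff.trans isCubeOn_univ.symm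

private theorem vanishes_iff {n w : ℕ} {R : Type u} [CommRing R] :
    Vanishes n w R ↔ ∀ x : GG (Fin n) (Fin w) R, Cub x → Nul x := by
  constructor
  · intro h x hx
    obtain ⟨x, rfl⟩ := toKK_surjective x
    exact Plain.isBd_iff.1 (h x (cub_iff.2 hx))
  · intro h x hx
    exact Plain.isBd_iff.2 (h _ (cub_iff.1 hx))

private theorem toKK_pow {n w : ℕ} {R : Type u} [CommRing R] (N : ℕ)
    (x : F (Fin w) (MvPolynomial (Fin n) R)) :
    (toKK (pow N x) : GG (Σ _ : Fin N, Fin n) (Σ _ : Fin N, Fin w) R) =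
      pw N (toKK x : GG (Fin n) (Fin w) R) := by
  unfold pow pw
  rw [toKK_prod]
  exact Finset.prod_congr rfl fun j _ =>
    toKK_emb (ι := Fin N) (I := fun _ => Fin n) (σ := fun _ => Fin w) j x

theorem cayley (F₀ E : Type u) [Field F₀] [Field E] [Algebra F₀ E] [FiniteDimensional F₀ E]
    (n w : Fin (Module.finrank F₀ E) → ℕ)
    (hv : ∀ J : Finset (Fin (Module.finrank F₀ E)), J.Nonempty →
      Vanishes (∑ j ∈ J, n j) (∑ j ∈ J, w j) F₀)
    (x : ∀ j, F (Fin (w j)) (MvPolynomial (Fin (n j)) E)) (hx : ∀ j, Plain.IsCube (x j)) :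
    IsBd (prod fun j => emb j (x j)) := by
  obtain ⟨d, hd⟩ : ∃ d, Module.finrank F₀ E = d + 1 :=
    ⟨_, (Nat.succ_pred_eq_of_pos Module.finrank_pos).symm⟩
  have key : ∀ (m : ℕ) (hm : m = d + 1) (_ : Module.finrank F₀ E = m) (n w : Fin m → ℕ)
      (_ : ∀ J : Finset (Fin m), J.Nonempty → Vanishes (∑ j ∈ J, n j) (∑ j ∈ J, w j) F₀)
      (x : ∀ j, F (Fin (w j)) (MvPolynomial (Fin (n j)) E)) (_ : ∀ j, Plain.IsCube (x j)),
      IsBd (prod fun j => emb j (x j)) := by
    intro m hm hf n w hv x hx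
    subst hm
    rw [isBd_iff, toKK_prod]
    have h1 := ch (F := F₀) (E := E) (Module.finBasisOfFinrankEq F₀ E hf) n w
      (fun J hJ => vanishes_iff.1 (hv J hJ)) (fun j => toKK (x j)) (fun j => cub_iff.1 (hx j))
    have e : ∀ j : Fin (d + 1), (toKK (Plain.emb (I := fun j => Fin (n j))
        (σ := fun j => Fin (w j)) j (x j)) : GG (Σ j, Fin (n j)) (Σ j, Fin (w j)) E) =
        GSM.emb j (toKK (x j) : GG (Fin (n j)) (Fin (w j)) E) := fun j =>
      toKK_emb (ι := Fin (d + 1)) (I := fun j => Fin (n j)) (σ := fun j => Fin (w j)) j (x j)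
    rw [Finset.prod_congr rfl fun j _ => e j]
    exact h1
  exact key _ hd rfl n w hv x hx

theorem uniform {ι : Type} (k K : ι → Type) [∀ i, Field (k i)] [∀ i, Field (K i)]
    [∀ i, Algebra (k i) (K i)] [∀ i, IsAlgClosed (k i)] {n w : ℕ} (hw : 0 < w)
    (x : F (Fin w) (MvPolynomial (Fin n) (∀ i, K i))) (hx : Plain.IsCube x) :
    ∃ (M N : ℕ) (y : F (Fin w) (MvPolynomial (Fin n) (∀ i : Large K M, k i))),
      Plain.IsCube y ∧ IsBd (pow N (base (large K M) x - base (incl k K M) y)) := by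
  obtain ⟨M, N, y, hy, h⟩ := unif k K (fun i => algebraMap (k i) (K i)) (fun _ => inferInstance) hw
    (cub_iff.1 hx)
  obtain ⟨y, rfl⟩ := toKK_surjective y
  refine ⟨M, N, y, cub_iff.2 hy, ?_⟩
  rw [isBd_iff, toKK_pow, map_sub, toKK_base, toKK_base]
  exact h

theorem uniform_zero {ι : Type} (K : ι → Type) [∀ i, Field (K i)] {n w : ℕ} (hw : 0 < w)
    (hQ : Vanishes n w (AlgebraicClosure ℚ))
    (x : F (Fin w) (MvPolynomial (Fin n) (∀ i, K i))) (hx : Plain.IsCube x) :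
    ∃ M N : ℕ, IsBd (pow N (base (large K M) x)) := by
  obtain ⟨M, N, h⟩ := unif_zero K hw (vanishes_iff.1 hQ) (cub_iff.1 hx)
  refine ⟨M, N, ?_⟩
  rw [isBd_iff, toKK_pow, toKK_base]
  exact h

section

variable {ι : Type} (K : ι → Type) [∀ i, Field (K i)] [∀ i, CharZero (K i)]

private theorem mem_large (M : ℕ) (i : ι) : i ∈ Large K M :=
  Or.inl ((CharP.ringChar_zero_iff_CharZero (K i)).2 inferInstance)

/-- All indices are large. -/
private def unlarge (A : ι → Type) [∀ i, CommRing (A i)] (M : ℕ) :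
    (∀ i : Large K M, A i) →+* ∀ i, A i :=
  RingHom.pi fun i => Pi.evalRingHom (fun i : Large K M => A i) ⟨i, mem_large K M i⟩

theorem uniform0 (k : ι → Type) [∀ i, Field (k i)] [∀ i, Algebra (k i) (K i)]
    [∀ i, IsAlgClosed (k i)] {n w : ℕ} (hw : 0 < w)
    (x : F (Fin w) (MvPolynomial (Fin n) (∀ i, K i))) (hx : Plain.IsCube x) :
    ∃ y : F (Fin w) (MvPolynomial (Fin n) (∀ i, k i)), Plain.IsCube y ∧ ∃ N : ℕ,
      IsBd (pow N (x - base (algebraMap (∀ i, k i) (∀ i, K i)) y)) := by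
  obtain ⟨M, N, y, hy, h⟩ := uniform k K hw x hx
  refine ⟨base (unlarge K k M) y, cub_iff.2 ?_, N, ?_⟩
  · rw [toKK_base]
    exact (cub_iff.1 hy).base _
  · rw [isBd_iff, toKK_pow, map_sub, toKK_base, toKK_base] at h ⊢
    have h1 := BdOn.base (unlarge K K M) h
    rw [pw_base, map_sub, GG.base_base, GG.base_base] at h1
    rw [GG.base_base]
    have e1 : (unlarge K K M).comp (large K M) = RingHom.id _ := rfl
    have e2 : (unlarge K K M).comp (incl k K M) =
        (algebraMap (∀ i, k i) (∀ i, K i)).comp (unlarge K k M) := rfl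
    rw [e1, e2, GG.base_id] at h1
    exact h1

theorem uniform_zero0 {n w : ℕ} (hw : 0 < w) (hQ : Vanishes n w (AlgebraicClosure ℚ))
    (x : F (Fin w) (MvPolynomial (Fin n) (∀ i, K i))) (hx : Plain.IsCube x) :
    ∃ N : ℕ, IsBd (pow N x) := by
  obtain ⟨M, N, h⟩ := uniform_zero K hw hQ x hx
  refine ⟨N, ?_⟩
  rw [isBd_iff, toKK_pow, toKK_base] at h
  rw [isBd_iff, toKK_pow]
  have h1 := BdOn.base (unlarge K K M) h
  rw [pw_base, GG.base_base] at h1
  have e1 : (unlarge K K M).comp (large K M) = RingHom.id _ := rfl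
  rw [e1, GG.base_id] at h1
  exact h1

end

end Pool.Agent.NCV.Plain
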