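import Pool.Agent.NCV.Defs
import Pool.Agent.NCV.Eff2
import Pool.Agent.NCV.Conn
import Pool.Agent.GSM.PlainEq

/-!
# Uniform and effective nilpotence in terms of the plain definitions
-/

noncomputable section

namespace Pool.Agent.NCV.Plain

open Pool.Agent.GSM Pool.Agent.GSM.Plain

universe u v w

private theorem cub_iff {n w : ℕ} {R : Type u} [CommRing R] {x : F (Fin w) (MvPolynomial (Fin n) R)} :
    Plain.IsCube x ↔ IsCubeOn Set.univ Set.univ (toKK x : GG (Fin n) (Fin w) R) :=
  Plain.isCube_iff.trans isCubeOn_univ.symm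

private theorem toKK_term {R : Type v} [CommRing R] {K : Type u} [CommRing K] {D : ℕ}
    {n w : Fin D → ℕ} (x : ∀ j, F (Fin (w j)) (MvPolynomial (Fin (n j)) R)) (p : R →+* K)
    (q : Fin D → (R →+* K)) :
    (toKK (Plain.prod fun j => Plain.emb (I := fun j => Fin (n j)) (σ := fun j => Fin (w j)) j
      (Plain.base p (x j) - Plain.base (q j) (x j))) : GG (Σ j, Fin (n j)) (Σ j, Fin (w j)) K) =
      ∏ j, (GG.base p (emb (I := fun j => Fin (n j)) (σ := fun j => Fin (w j)) j (toKK (x j))) -
        GG.base (q j) (emb (I := fun j => Fin (n j)) (σ := fun j => Fin (w j)) j (toKK (x j)))) := by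
  rw [toKK_prod]
  refine Finset.prod_congr rfl fun j _ => ?_
  rw [toKK_emb (ι := Fin D) (I := fun j => Fin (n j)) (σ := fun j => Fin (w j)), map_sub,
    toKK_base, toKK_base, map_sub,
    emb_base (I := fun j => Fin (n j)) (σ := fun j => Fin (w j)),
    emb_base (I := fun j => Fin (n j)) (σ := fun j => Fin (w j))]

private theorem blk_disj {D : ℕ} (T : Fin D → Type) (i j : Fin D) (h : i ≠ j) :
    Disjoint {t : Σ j, T j | t.1 = i} {t : Σ j, T j | t.1 = j} := by
  rw [Set.disjoint_left]
  intro t h1 h2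
  exact h ((Eq.symm h1).trans h2)

private theorem blk_union {D : ℕ} (T : Fin D → Type) :
    (⋃ j, {t : Σ j, T j | t.1 = j}) = Set.univ := by
  ext t
  simp

section

variable {R : Type v} [CommRing R] {K : Type w} [CommRing K] {p : R →+* K}

private theorem bd_of_linked {q : R →+* K} {N : ℕ} (h : LinkedF p q N) : Link p q N := by
  intro n w x hx
  have h1 := h (Σ j, Fin (n j)) (Σ j, Fin (w j)) (fun j => {t | t.1 = j}) (fun j => {t | t.1 = j})
    (fun j => GSM.emb (I := fun j => Fin (n j)) (σ := fun j => Fin (w j)) j (toKK (x j)))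
    (blk_disj _) (blk_disj _) (fun j => isCubeOn_emb j (isCube_iff.1 (hx j)))
  rw [blk_union, blk_union] at h1
  have h2 := toKK_term x p fun _ => q
  rw [← h2] at h1
  exact isBd_iff.2 h1

private theorem root_of_killed {D : ℕ} {q : Fin D → (R →+* K)} (h : KilledF p q) : Root p q := by
  intro n w x hx
  have h1 := h (Σ j, Fin (n j)) (Σ j, Fin (w j)) (fun j => {t | t.1 = j}) (fun j => {t | t.1 = j})
    (fun j => GSM.emb (I := fun j => Fin (n j)) (σ := fun j => Fin (w j)) j (toKK (x j)))
    (blk_disj _) (blk_disj _) (fun j => isCubeOn_emb j (isCube_iff.1 (hx j)))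
  rw [blk_union, blk_union] at h1
  rw [isBd_iff, map_sum]
  have e1 : ∀ π : Equiv.Perm (Fin D), (toKK (Plain.prod fun j =>
      Plain.emb (I := fun j => Fin (n j)) (σ := fun j => Fin (w j)) j
        (Plain.base p (x j) - Plain.base (q (π j)) (x j))) :
      GG (Σ j, Fin (n j)) (Σ j, Fin (w j)) K) = _ := fun π =>
    toKK_term x p fun j => q (π j)
  rw [← Finset.sum_congr rfl fun π _ => e1 π] at h1
  exact h1

end

section

variable {k : Type u} [Field k] {R : Type v} [CommRing R] [Algebra k R] {K : Type w} [Field K]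
  [Algebra k K] {p : R →ₐ[k] K} {D : ℕ} {q : Fin D → (R →ₐ[k] k)}

private theorem kills_of_killed (h : KilledF (p : R →+* K) fun i => cpt K (q i)) :
    Kills k (p : R →+* K) D := by
  intro n w x hx hv
  have hx' : ∀ j, IsCubeOn Set.univ Set.univ (toKK (x j) : GG (Fin (n j)) (Fin (w j)) R) :=
    fun j => cub_iff.1 (hx j)
  have h1 := h (Σ j, Fin (n j)) (Σ j, Fin (w j)) (fun j => {t | t.1 = j}) (fun j => {t | t.1 = j})
    (fun j => GSM.emb (I := fun j => Fin (n j)) (σ := fun j => Fin (w j)) j (toKK (x j)))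
    (blk_disj _) (blk_disj _) (fun j => isCubeOn_emb j (isCube_iff.1 (hx j)))
  rw [blk_union, blk_union] at h1
  rw [isBd_iff, toKK_prod]
  have h2 := perm_prod_zero (fun j => toKK (x j)) (fun j => hx' _) (p : R →+* K)
    (fun i => cpt K (q i)) (fun i j => ?_) h1
  · have e2 : ∀ j, (toKK (Plain.emb (I := fun j => Fin (n j)) (σ := fun j => Fin (w j)) j
        (Plain.base (p : R →+* K) (x j))) : GG (Σ j, Fin (n j)) (Σ j, Fin (w j)) K) =
        GSM.emb (I := fun j => Fin (n j)) (σ := fun j => Fin (w j)) j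
          (GG.base (p : R →+* K) (toKK (x j))) := by
      intro j
      rw [toKK_emb (ι := Fin D) (I := fun j => Fin (n j)) (σ := fun j => Fin (w j)),
        toKK_base]
    rw [Finset.prod_congr rfl fun j _ => e2 j]
    exact h2
  · unfold cpt
    rw [← GG.base_base]
    have h3 := Plain.isBd_iff.1 (hv j (Plain.base (q i : R →+* k) (x j)) (cub_iff.2 (by
        rw [toKK_base]
        exact (hx' _).base _)))
    rw [toKK_base] at h3
    exact h3.base _

end

/-- All points of a connected affine scheme of finite type over an algebraically closed field of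
characteristic zero. -/
theorem uniform_points (k : Type u) [Field k] [IsAlgClosed k] [CharZero k] (R : Type v)
    [CommRing R] [ConnectedSpace (PrimeSpectrum R)] [Algebra k R] [Algebra.FiniteType k R] :
    ∃ N : ℕ, ∀ (K : Type u) [Field K] [Algebra k K] (p q : R →ₐ[k] K),
      Link (p : R →+* K) (q : R →+* K) N := by
  obtain ⟨N, hN⟩ := linked_conn k R
  exact ⟨N, fun K _ _ p q => bd_of_linked (hN K p q)⟩

/-- Free algebras over a localised polynomial ring. -/
theorem effective (k : Type u) [Field k] [IsAlgClosed k] {r e m : ℕ}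
    (g : MvPolynomial (Fin r) k) (hg : g ≠ 0) (hm : g.totalDegree ≤ m) (R : Type v) [CommRing R]
    [Algebra k R] (hR : FreeAway g e R) :
    ∃ q : Fin (e * (m + 1)) → (R →ₐ[k] k), ∀ (K : Type u) [Field K] [Algebra k K]
      (p : R →ₐ[k] K),
      (Root (p : R →+* K) fun i => (algebraMap k K).comp (q i : R →+* k)) ∧
      Kills k (p : R →+* K) (e * (m + 1)) := by
  obtain ⟨_, _, ⟨B⟩⟩ := hR
  obtain ⟨q, hq⟩ := eff_killed.{u, v, u} hg hm B
  exact ⟨q, fun K _ _ p => ⟨root_of_killed (hq K p), kills_of_killed (hq K p)⟩⟩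

end Pool.Agent.NCV.Plain
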