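import Pool.Agent.NCV.Ren

/-!
# A vanishing product of some of the factors
-/

noncomputable section

namespace Pool.Agent.NCV

open Pool.Agent.GSM

universe u

/-- If the product of the first `D` of `N` cubes vanishes, so does the product of all. -/
theorem bd_prod_castLE {R : Type u} [CommRing R] {D N : ℕ} (h : D ≤ N) {n w : Fin N → ℕ}
    (x : ∀ j, GG (Fin (n j)) (Fin (w j)) R) (hx : ∀ j, IsCubeOn Set.univ Set.univ (x j))
    (h0 : BdOn Set.univ Set.univ (∏ j, emb (I := fun j => Fin (n (Fin.castLE h j)))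
      (σ := fun j => Fin (w (Fin.castLE h j))) j (x (Fin.castLE h j)))) :
    BdOn Set.univ Set.univ (∏ j, emb (I := fun j => Fin (n j)) (σ := fun j => Fin (w j)) j (x j)) := by
  classical
  have hf : Function.Injective (Fin.castLE h) := Fin.castLE_injective h
  have h1 := bd_prod_inj (I := fun j : Fin N => Fin (n j)) (σ := fun j : Fin N => Fin (w j)) hf
    (fun j => x (Fin.castLE h j)) h0
  obtain ⟨s, hs⟩ : ∃ s : Finset (Fin N), s = Finset.univ.image (Fin.castLE h) := ⟨_, rfl⟩
  have hmem : ∀ j, j ∈ s ↔ j ∈ Set.range (Fin.castLE h) := by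
    intro j
    rw [hs, Finset.mem_image]
    simp only [Finset.mem_univ, true_and, Set.mem_range]
  have h2 : IsCubeOn {t : Σ j : Fin N, Fin (n j) | t.1 ∈ sᶜ} {t : Σ j : Fin N, Fin (w j) | t.1 ∈ sᶜ}
      (∏ j ∈ sᶜ, emb (I := fun j => Fin (n j)) (σ := fun j => Fin (w j)) j (x j)) := by
    have h1 := IsCubeOn.prod (R := R) (a := fun j => {t : Σ j : Fin N, Fin (n j) | t.1 = j})
      (b := fun j => {t : Σ j : Fin N, Fin (w j) | t.1 = j}) sᶜ
      (fun i _ j _ hij => Set.disjoint_left.2 fun t h1 h2 => hij (Eq.trans (Eq.symm h1) h2))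
      (fun i _ j _ hij => Set.disjoint_left.2 fun t h1 h2 => hij (Eq.trans (Eq.symm h1) h2))
      (fun j _ => isCubeOn_emb (I := fun j => Fin (n j)) (σ := fun j => Fin (w j)) j
        (isCubeOn_univ.1 (hx j)))
    have e1 : (⋃ j ∈ sᶜ, {t : Σ j : Fin N, Fin (n j) | t.1 = j}) = {t | t.1 ∈ sᶜ} := by
      ext t
      simp
    have e2 : (⋃ j ∈ sᶜ, {t : Σ j : Fin N, Fin (w j) | t.1 = j}) = {t | t.1 ∈ sᶜ} := by
      ext t
      simp
    rw [e1, e2] at h1
    exact h1
  have h3 := h1.mul (by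
      rw [Set.disjoint_left]
      intro t ht ht'
      exact (Finset.mem_compl.1 ht') ((hmem t.1).2 ht)) (by
      rw [Set.disjoint_left]
      intro t ht ht'
      exact (Finset.mem_compl.1 ht') ((hmem t.1).2 ht)) h2
  have e1 : {t : Σ j : Fin N, Fin (n j) | t.1 ∈ Set.range (Fin.castLE h)} ∪
      {t : Σ j : Fin N, Fin (n j) | t.1 ∈ sᶜ} = Set.univ := by
    ext t
    simp only [Set.mem_union, Set.mem_ofPred_eq, Finset.mem_compl, hmem, Set.mem_univ, iff_true]
    exact em _
  have e2 : {t : Σ j : Fin N, Fin (w j) | t.1 ∈ Set.range (Fin.castLE h)} ∪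
      {t : Σ j : Fin N, Fin (w j) | t.1 ∈ sᶜ} = Set.univ := by
    ext t
    simp only [Set.mem_union, Set.mem_ofPred_eq, Finset.mem_compl, hmem, Set.mem_univ, iff_true]
    exact em _
  rw [e1, e2] at h3
  have e3 : ∏ j, emb (I := fun j => Fin (n j)) (σ := fun j => Fin (w j)) j (x j) =
      (∏ j : Fin D, emb (I := fun j => Fin (n j)) (σ := fun j => Fin (w j))
        (Fin.castLE h j) (x (Fin.castLE h j))) *
        ∏ j ∈ sᶜ, emb (I := fun j => Fin (n j)) (σ := fun j => Fin (w j)) j (x j) := by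
    rw [← Finset.prod_mul_prod_compl s, hs, Finset.prod_image fun a _ b _ hab => hf hab]
  rw [e3]
  exact h3

end Pool.Agent.NCV
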