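import Pool.Agent.NCV.Ren
import Pool.Agent.LGF.Base

/-!
# External powers

`pw N z` is the `N`-th external power of the class `z`.
-/

noncomputable section

namespace Pool.Agent.NCV

open Pool.Agent.GSM Pool.Agent.LGF

universe u v

section

variable {n w : ℕ} {R : Type u} [CommRing R] {R' : Type v} [CommRing R']

/-- The `N`-th external power. -/
def pw (N : ℕ) (z : GG (Fin n) (Fin w) R) :
    GG (Σ _ : Fin N, Fin n) (Σ _ : Fin N, Fin w) R :=
  ∏ j : Fin N, emb (I := fun _ => Fin n) (σ := fun _ => Fin w) j z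

theorem pw_base (N : ℕ) (f : R →+* R') (z : GG (Fin n) (Fin w) R) :
    GG.base f (pw N z) = pw N (GG.base f z) := by
  unfold pw
  rw [map_prod]
  exact Finset.prod_congr rfl fun j _ =>
    (emb_base (ι := Fin N) (I := fun _ => Fin n) (σ := fun _ => Fin w) f j z).symm

private theorem pw_cube {N : ℕ} {z : GG (Fin n) (Fin w) R} (hz : Cub z) (s : Finset (Fin N)) :
    IsCubeOn {t : Σ _ : Fin N, Fin n | t.1 ∈ s} {t : Σ _ : Fin N, Fin w | t.1 ∈ s}
      (∏ j ∈ s, emb (I := fun _ => Fin n) (σ := fun _ => Fin w) j z) := by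
  have h1 := IsCubeOn.prod (R := R) (a := fun j => {t : Σ _ : Fin N, Fin n | t.1 = j})
    (b := fun j => {t : Σ _ : Fin N, Fin w | t.1 = j}) s
    (fun i _ j _ hij => Set.disjoint_left.2 fun t h1 h2 => hij (Eq.trans (Eq.symm h1) h2))
    (fun i _ j _ hij => Set.disjoint_left.2 fun t h1 h2 => hij (Eq.trans (Eq.symm h1) h2))
    (fun j _ => isCubeOn_emb (I := fun _ => Fin n) (σ := fun _ => Fin w) j (isCubeOn_univ.1 hz))
  have e1 : (⋃ j ∈ s, {t : Σ _ : Fin N, Fin n | t.1 = j}) = {t | t.1 ∈ s} := by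
    ext t
    simp
  have e2 : (⋃ j ∈ s, {t : Σ _ : Fin N, Fin w | t.1 = j}) = {t | t.1 ∈ s} := by
    ext t
    simp
  rw [e1, e2] at h1
  exact h1

theorem cub_pw (N : ℕ) {z : GG (Fin n) (Fin w) R} (hz : Cub z) : Cub (pw N z) := by
  have h1 := pw_cube hz (Finset.univ : Finset (Fin N))
  have e1 : {t : Σ _ : Fin N, Fin n | t.1 ∈ (Finset.univ : Finset (Fin N))} = Set.univ := by
    ext t
    simp
  have e2 : {t : Σ _ : Fin N, Fin w | t.1 ∈ (Finset.univ : Finset (Fin N))} = Set.univ := by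
    ext t
    simp
  rw [e1, e2] at h1
  exact h1

theorem pw_mono {N N' : ℕ} (h : N ≤ N') {z : GG (Fin n) (Fin w) R} (hz : Cub z)
    (h0 : Nul (pw N z)) : Nul (pw N' z) := by
  classical
  have hf : Function.Injective (Fin.castLE h) := Fin.castLE_injective h
  have h1 := bd_prod_inj (I := fun _ : Fin N' => Fin n) (σ := fun _ : Fin N' => Fin w) hf
    (fun _ => z) h0
  obtain ⟨s, hs⟩ : ∃ s : Finset (Fin N'), s = Finset.univ.image (Fin.castLE h) := ⟨_, rfl⟩
  have hmem : ∀ j, j ∈ s ↔ j ∈ Set.range (Fin.castLE h) := by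
    intro j
    rw [hs, Finset.mem_image]
    simp only [Finset.mem_univ, true_and, Set.mem_range]
  have h2 := pw_cube hz sᶜ
  have h3 := h1.mul (by
      rw [Set.disjoint_left]
      intro t ht ht'
      exact (Finset.mem_compl.1 ht') ((hmem t.1).2 ht)) (by
      rw [Set.disjoint_left]
      intro t ht ht'
      exact (Finset.mem_compl.1 ht') ((hmem t.1).2 ht)) h2
  have e1 : {t : Σ _ : Fin N', Fin n | t.1 ∈ Set.range (Fin.castLE h)} ∪
      {t : Σ _ : Fin N', Fin n | t.1 ∈ sᶜ} = Set.univ := by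
    ext t
    simp only [Set.mem_union, Set.mem_ofPred_eq, Finset.mem_compl, hmem, Set.mem_univ, iff_true]
    exact em _
  have e2 : {t : Σ _ : Fin N', Fin w | t.1 ∈ Set.range (Fin.castLE h)} ∪
      {t : Σ _ : Fin N', Fin w | t.1 ∈ sᶜ} = Set.univ := by
    ext t
    simp only [Set.mem_union, Set.mem_ofPred_eq, Finset.mem_compl, hmem, Set.mem_univ, iff_true]
    exact em _
  rw [e1, e2] at h3
  have e3 : pw N' z = (∏ j : Fin N, emb (I := fun _ => Fin n) (σ := fun _ => Fin w)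
      (Fin.castLE h j) z) * ∏ j ∈ sᶜ, emb (I := fun _ => Fin n) (σ := fun _ => Fin w) j z := by
    unfold pw
    rw [← Finset.prod_mul_prod_compl s, hs, Finset.prod_image fun a _ b _ hab => hf hab]
  rw [e3]
  exact h3

/-- The power of a difference only depends on the classes up to boundaries. -/
theorem pw_congr (N : ℕ) {z z' : GG (Fin n) (Fin w) R} (hz : Cub z) (hz' : Cub z')
    (h : Nul (z - z')) (h0 : Nul (pw N z)) : Nul (pw N z') := by
  have h1 : H.mk (⟨z, isCubeOn_univ.1 hz⟩ : Z (Fin n) (Fin w) R) =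
      H.mk ⟨z', isCubeOn_univ.1 hz'⟩ := by
    rw [← sub_eq_zero, ← map_sub, H.mk_eq_zero]
    exact h
  have h2 := Z.prod_congr (I := fun _ : Fin N => Fin n) (σ := fun _ : Fin N => Fin w)
    (fun _ => ⟨z, isCubeOn_univ.1 hz⟩) (fun _ => ⟨z', isCubeOn_univ.1 hz'⟩) fun _ => h1
  have h3 : H.mk (Z.prod (I := fun _ : Fin N => Fin n) (σ := fun _ : Fin N => Fin w)
      fun _ => (⟨z, isCubeOn_univ.1 hz⟩ : Z (Fin n) (Fin w) R)) = 0 := H.mk_eq_zero.2 h0
  rw [h2, H.mk_eq_zero] at h3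
  exact h3

end

end Pool.Agent.NCV
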