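import Pool.Agent.GSM.Stmt

/-!
# Renaming variables and positions

`ren φ χ x`: the variable `i` becomes `φ i`, the matrix at position `s` is moved to the position `χ s`
(`χ` injective), the identity matrix is put at the positions which are not of the form `χ s`.

MODULE NCV-Ren. PLAN. Model: `isCubeOn_emb`, `stmt_bd`, `stmt_sub_face`, `stmt_kill` in GSM/Stmt.lean (they are
the case of `Sigma.mk j`). `ren_base`, `ren_corr`: `GG.base_sub`, `GG.base_pull`, `GG.corr_sub`,
`GG.corr_pull`. `ren_ren`: `GG.sub_pull`, `GG.sub_sub`, `KK.pull_pull`, and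
`(pinv χ' t).bind (pinv χ) = pinv (χ' ∘ χ) t`. `bd_of_card`: with `e : I ≃ Fin n`, `f : σ ≃ Fin w` the class
`ren e f z` is a cube on `univ, univ`, hence a boundary, and `z = ren e.symm f.symm (ren e f z)`.
`bd_prod_inj`: `map_prod`, `ren_emb`, `bdOn_ren` for `Sigma.map f fun _ => id`.
-/

noncomputable section

namespace Pool.Agent.NCV

open Pool.Agent.GSM

universe u v w

section

variable {I J L σ τ υ : Type} {R : Type u} {R' : Type v} [CommRing R] [CommRing R']

/-- The partial inverse of a map. -/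
def pinv (χ : σ → τ) : τ → Option σ := fun t =>
  open Classical in if h : ∃ s, χ s = t then some h.choose else none

theorem pinv_apply {χ : σ → τ} (hχ : Function.Injective χ) (s : σ) : pinv χ (χ s) = some s := by
  have h : ∃ s', χ s' = χ s := ⟨s, rfl⟩
  unfold pinv
  rw [dif_pos h]
  exact congrArg some (hχ h.choose_spec)

theorem pinv_none {χ : σ → τ} {t : τ} (h : ∀ s, χ s ≠ t) : pinv χ t = none := by
  unfold pinv
  rw [dif_neg]
  rintro ⟨s, hs⟩
  exact h s hs

/-- Rename variables and positions. -/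
def ren (φ : I → J) (χ : σ → τ) : GG I σ R →ₐ[ℚ] GG J τ R :=
  (KK.pull (pinv χ)).comp (GG.sub fun i => MvPolynomial.X (φ i))

theorem ren_base (φ : I → J) (χ : σ → τ) (f : R →+* R') (x : GG I σ R) :
    ren φ χ (GG.base f x) = GG.base f (ren φ χ x) := by
  unfold ren
  rw [AlgHom.comp_apply, AlgHom.comp_apply, GG.base_pull, GG.base_sub]

theorem ren_corr {δ : Type} [Fintype δ] [DecidableEq δ] (φ : I → J) (χ : σ → τ)
    (Λ : R →+* Matrix δ δ R') (x : GG I σ R) :
    ren φ χ (GG.corr Λ x) = GG.corr Λ (ren φ χ x) := by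
  unfold ren
  rw [AlgHom.comp_apply, AlgHom.comp_apply, GG.corr_pull, GG.corr_sub]

private theorem nr_bind {χ : σ → τ} (hχ : Function.Injective χ) {χ' : τ → υ}
    (hχ' : Function.Injective χ') (t : υ) :
    (pinv χ' t).bind (pinv χ) = pinv (χ' ∘ χ) t := by
  by_cases h : ∃ u, χ' u = t
  · obtain ⟨u, rfl⟩ := h
    rw [pinv_apply hχ']
    show pinv χ u = _
    by_cases h' : ∃ s, χ s = u
    · obtain ⟨s, rfl⟩ := h'
      rw [pinv_apply hχ]
      exact (pinv_apply (hχ'.comp hχ) s).symm
    · have h1 : ∀ s, χ s ≠ u := fun s hs => h' ⟨s, hs⟩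
      exact (pinv_none h1).trans (pinv_none (χ := χ' ∘ χ) fun s hs => h1 s (hχ' hs)).symm
  · have h1 : ∀ u, χ' u ≠ t := fun u hu => h ⟨u, hu⟩
    rw [pinv_none h1]
    exact (pinv_none (χ := χ' ∘ χ) fun s => h1 (χ s)).symm

theorem ren_ren (φ : I → J) {χ : σ → τ} (hχ : Function.Injective χ) (φ' : J → L) {χ' : τ → υ}
    (hχ' : Function.Injective χ') (x : GG I σ R) :
    ren φ' χ' (ren φ χ x) = ren (φ' ∘ φ) (χ' ∘ χ) x := by
  unfold ren
  rw [AlgHom.comp_apply, AlgHom.comp_apply, AlgHom.comp_apply, GG.sub_pull, GG.sub_sub,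
    KK.pull_pull]
  have h1 : (fun t => (pinv χ' t).bind (pinv χ)) = pinv (χ' ∘ χ) :=
    funext fun t => nr_bind hχ hχ' t
  have h2 : (fun i => MvPolynomial.bind₁ (fun j => (MvPolynomial.X (φ' j) : MvPolynomial L ℤ))
      (MvPolynomial.X (φ i))) = fun i => MvPolynomial.X ((φ' ∘ φ) i) :=
    funext fun i => MvPolynomial.bind₁_X_right _ _
  rw [h1, h2]

theorem ren_id (x : GG I σ R) : ren id id x = x := by
  unfold ren
  have h1 : pinv (id : σ → σ) = fun s => some s :=
    funext fun s => pinv_apply (χ := (id : σ → σ)) Function.injective_id s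
  rw [AlgHom.comp_apply, h1, KK.pull_some]
  exact GG.sub_X x

end

section

variable {I J σ τ : Type} [DecidableEq I] [DecidableEq J] [DecidableEq σ] [DecidableEq τ]
  {R : Type u} [CommRing R]

omit [DecidableEq I] [DecidableEq σ] [DecidableEq τ] in
private theorem nr_face (φ : I → J) (χ : σ → τ) (t : J) (e : Bool) (x : GG I σ R) :
    face t e (ren φ χ x) = KK.pull (pinv χ) (GG.sub (fun i => faceSub t e (φ i)) x) := by
  unfold ren face
  rw [AlgHom.comp_apply, GG.sub_pull, GG.sub_sub]
  simp only [MvPolynomial.bind₁_X_right]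

omit [DecidableEq I] [DecidableEq J] [DecidableEq σ] in
private theorem nr_kill (φ : I → J) (χ : σ → τ) (t : τ) (x : GG I σ R) :
    kill t (ren φ χ x) = KK.pull (fun t' => (killMap t t').bind (pinv χ))
      (GG.sub (fun i => MvPolynomial.X (φ i)) x) := by
  unfold ren kill
  rw [AlgHom.comp_apply, KK.pull_pull]

theorem isCubeOn_ren {φ : I → J} (hφ : Function.Injective φ) {χ : σ → τ}
    (hχ : Function.Injective χ) {x : GG I σ R} (hx : IsCubeOn Set.univ Set.univ x) :
    IsCubeOn (Set.range φ) (Set.range χ) (ren φ χ x) := by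
  have hx' := isCubeOn_univ.1 hx
  constructor
  · rintro t ⟨i, rfl⟩ e
    rw [nr_face]
    have h1 : (fun i' => faceSub (φ i) e (φ i')) =
        fun i' => MvPolynomial.bind₁ (fun i => (MvPolynomial.X (φ i) : MvPolynomial J ℤ))
          (faceSub i e i') := by
      funext i'
      unfold faceSub
      by_cases h : i' = i
      · subst h
        cases e <;> simp
      · rw [if_neg h, if_neg (fun h3 => h (hφ h3)), MvPolynomial.bind₁_X_right]
    rw [h1, ← GG.sub_sub]
    have h3 : GG.sub (faceSub i e) x = 0 := hx'.1 i e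
    rw [h3, map_zero, map_zero]
  · intro t ht e
    rw [nr_face]
    have h1 : (fun i' => faceSub t e (φ i')) =
        fun i' => (MvPolynomial.X (φ i') : MvPolynomial J ℤ) := by
      funext i'
      unfold faceSub
      rw [if_neg]
      intro h
      exact ht ⟨i', h⟩
    rw [h1]
    rfl
  · rintro t ⟨s, rfl⟩
    rw [nr_kill]
    have h1 : (fun t' => (killMap (χ s) t').bind (pinv χ)) =
        fun t' => (pinv χ t').bind (killMap s) := by
      funext t'
      by_cases h : ∃ u, χ u = t'
      · obtain ⟨u, rfl⟩ := h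
        unfold killMap
        by_cases hu : u = s
        · subst hu
          simp [pinv_apply hχ]
        · rw [if_neg (fun h3 => hu (hχ h3))]
          simp [pinv_apply hχ, hu]
      · have h2 : ∀ u, χ u ≠ t' := fun u hu => h ⟨u, hu⟩
        unfold killMap
        rw [if_neg (fun h3 => h2 s h3.symm)]
        simp [pinv_none h2]
    rw [h1, ← KK.pull_pull]
    have h3 : KK.pull (killMap s) (GG.sub (fun i => (MvPolynomial.X (φ i) :
        MvPolynomial J ℤ)) x) = 0 := by
      rw [← GG.sub_pull]
      have h4 : KK.pull (killMap s) x = 0 := hx'.2 s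
      rw [h4, map_zero]
    rw [h3, map_zero]
  · intro t ht
    rw [nr_kill]
    have h1 : (fun t' => (killMap t t').bind (pinv χ)) = pinv χ := by
      funext t'
      unfold killMap
      by_cases h : t' = t
      · subst h
        rw [if_pos rfl, pinv_none fun s hs => ht ⟨s, hs⟩]
        rfl
      · rw [if_neg h]
        rfl
    rw [h1]
    rfl

theorem bdOn_ren {φ : I → J} (hφ : Function.Injective φ) {χ : σ → τ}
    (hχ : Function.Injective χ) {x : GG I σ R} (hx : BdOn Set.univ Set.univ x) :
    BdOn (Set.range φ) (Set.range χ) (ren φ χ x) := by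
  obtain ⟨y, h1, h2⟩ := hx
  refine ⟨ren φ χ y, isCubeOn_ren hφ hχ h1, ?_⟩
  rw [← ren_base, ← ren_base, ← map_sub, h2]

/-- Vanishing only depends on the number of variables and of positions. -/
theorem bd_of_card [Fintype I] [Fintype σ] {n w : ℕ} (hn : Fintype.card I = n)
    (hw : Fintype.card σ = w)
    (h : ∀ z : GG (Fin n) (Fin w) R, IsCubeOn Set.univ Set.univ z → BdOn Set.univ Set.univ z)
    {z : GG I σ R} (hz : IsCubeOn Set.univ Set.univ z) : BdOn Set.univ Set.univ z := by
  obtain ⟨e⟩ : Nonempty (I ≃ Fin n) := ⟨Fintype.equivFinOfCardEq hn⟩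
  obtain ⟨f⟩ : Nonempty (σ ≃ Fin w) := ⟨Fintype.equivFinOfCardEq hw⟩
  have h1 : IsCubeOn Set.univ Set.univ (ren e f z) := by
    have h2 := isCubeOn_ren e.injective f.injective hz
    rwa [e.surjective.range_eq, f.surjective.range_eq] at h2
  have h3 := bdOn_ren e.symm.injective f.symm.injective (h _ h1)
  rw [e.symm.surjective.range_eq, f.symm.surjective.range_eq,
    ren_ren e f.injective e.symm f.symm.injective] at h3
  have h4 : (e.symm ∘ e : I → I) = id := funext fun i => e.symm_apply_apply i
  have h5 : (f.symm ∘ f : σ → σ) = id := funext fun s => f.symm_apply_apply s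
  rwa [h4, h5, ren_id] at h3

end

section

variable {ι κ : Type} [DecidableEq ι] [DecidableEq κ] {I σ : κ → Type}
  {R : Type u} [CommRing R]

theorem emb_eq_ren (j : κ) (x : GG (I j) (σ j) R) :
    emb j x = ren (Sigma.mk j) (Sigma.mk j) x := by
  unfold emb ren
  have h1 : (fun t : Σ j, σ j => if h : t.1 = j then some (h ▸ t.2 : σ j) else none) =
      pinv (Sigma.mk j) := by
    funext t
    obtain ⟨l, s⟩ := t
    by_cases h : l = j
    · subst h
      rw [pinv_apply sigma_mk_injective]
      simp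
    · rw [pinv_none, dif_neg h]
      intro s' h2
      exact h (congrArg Sigma.fst h2).symm
  rw [h1]

theorem ren_emb {f : ι → κ} (hf : Function.Injective f) (j : ι) (x : GG (I (f j)) (σ (f j)) R) :
    ren (Sigma.map f (fun _ => id) : (Σ j : ι, I (f j)) → Σ j, I j)
      (Sigma.map f (fun _ => id) : (Σ j : ι, σ (f j)) → Σ j, σ j)
      (emb (I := fun j => I (f j)) (σ := fun j => σ (f j)) j x) = emb (f j) x := by
  rw [emb_eq_ren (κ := ι) (I := fun j => I (f j)) (σ := fun j => σ (f j)) j x,
    emb_eq_ren (f j) x, ren_ren _ sigma_mk_injective _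
      (Function.Injective.sigma_map hf fun _ => Function.injective_id)]
  rfl

/-- A vanishing product stays zero in a larger set of blocks. -/
theorem bd_prod_inj [Fintype ι] [∀ j, DecidableEq (I j)] [∀ j, DecidableEq (σ j)] {f : ι → κ}
    (hf : Function.Injective f) (x : ∀ j, GG (I (f j)) (σ (f j)) R)
    (h : BdOn Set.univ Set.univ (∏ j, emb (I := fun j => I (f j)) (σ := fun j => σ (f j)) j (x j))) :
    BdOn {t : Σ j, I j | t.1 ∈ Set.range f} {t : Σ j, σ j | t.1 ∈ Set.range f}
      (∏ j, emb (f j) (x j)) := by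
  have h1 := bdOn_ren (Function.Injective.sigma_map hf fun _ => Function.injective_id)
    (Function.Injective.sigma_map hf fun _ => Function.injective_id) h
  rw [map_prod] at h1
  simp only [ren_emb hf] at h1
  have e1 : ∀ A : κ → Type, Set.range (Sigma.map f (fun _ => id) : (Σ j : ι, A (f j)) → Σ j, A j) =
      {t : Σ j, A j | t.1 ∈ Set.range f} := by
    intro A
    ext ⟨j, a⟩
    constructor
    · rintro ⟨⟨i, b⟩, h⟩
      exact ⟨i, congrArg Sigma.fst h⟩
    · rintro ⟨i, hi⟩
      have hi' : f i = j := hi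
      subst hi'
      exact ⟨⟨i, a⟩, rfl⟩
  rwa [e1 I, e1 σ] at h1

end

end Pool.Agent.NCV
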